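import Mathlib

open MeasureTheory Set Filter Topology
open scoped ENNReal NNReal

namespace Pool.Agent.H521

/-- Sums of functions analytic in the half plane with uniform bounds. -/
theorem diffOn_tsum_half {F : ℕ → ℂ → ℂ} {B : ℝ → ℕ → ℝ}
    (hF : ∀ j, DifferentiableOn ℂ (F j) {s : ℂ | 1 / 2 < s.re})
    (hB : ∀ j (σ : ℝ) (s : ℂ), 1 / 2 < σ → σ ≤ s.re → ‖F j s‖ ≤ B σ j)
    (hsum : ∀ σ : ℝ, 1 / 2 < σ → Summable (B σ)) :
    DifferentiableOn ℂ (fun s => ∑' j, F j s) {s : ℂ | 1 / 2 < s.re} ∧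
      (∀ s : ℂ, 1 / 2 < s.re → Summable fun j => F j s) ∧
      ∀ ε : ℝ, 0 < ε → ∃ C : ℝ, ∀ s : ℂ, 1 / 2 + ε ≤ s.re → ‖∑' j, F j s‖ ≤ C := by
  refine ⟨?_, ?_, ?_⟩
  · intro s₀ hs₀
    simp only [mem_ofPred_eq] at hs₀
    set σ₀ : ℝ := (1 / 2 + s₀.re) / 2 with hσ₀
    have h1 : 1 / 2 < σ₀ := by rw [hσ₀]; linarith
    have h2 : σ₀ < s₀.re := by rw [hσ₀]; linarith
    set U : Set ℂ := {s : ℂ | σ₀ < s.re} with hU
    have hUo : IsOpen U := isOpen_lt continuous_const Complex.continuous_re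
    have hmem : s₀ ∈ U := h2
    have hd : DifferentiableOn ℂ (fun s => ∑' j, F j s) U := by
      refine Complex.differentiableOn_tsum_of_summable_norm
        (u := B σ₀) (hsum _ h1) (fun j => ?_) hUo (fun j s hs => ?_)
      · exact (hF j).mono (fun s hs => lt_trans h1 hs)
      · exact hB j σ₀ s h1 (le_of_lt hs)
    exact (hd.differentiableAt (hUo.mem_nhds hmem)).differentiableWithinAt
  · intro s hs
    exact Summable.of_norm_bounded (hsum _ hs) (fun j => hB j _ s hs le_rfl)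
  · intro ε hε
    refine ⟨∑' j, B (1 / 2 + ε) j, fun s hs => ?_⟩
    exact tsum_of_norm_bounded (hsum _ (by linarith)).hasSum
      (fun j => hB j _ s (by linarith) hs)

theorem norm_log_one_sub_add_le {z : ℂ} (hz : ‖z‖ ≤ 3 / 5) :
    ‖-Complex.log (1 - z) - z‖ ≤ 2 * ‖z‖ ^ 2 := by
  have h1 := Complex.norm_log_one_add_sub_self_le (z := -z) (by rw [norm_neg]; linarith)
  rw [norm_neg] at h1
  have h2 : -Complex.log (1 - z) - z = -(Complex.log (1 + -z) - -z) := by ring_nf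
  rw [h2, norm_neg]
  refine h1.trans ?_
  have h3 : (1 - ‖z‖)⁻¹ ≤ 4 := by
    rw [inv_le_comm₀ (by linarith) (by norm_num)]
    linarith
  have h4 : 0 ≤ ‖z‖ ^ 2 := sq_nonneg _
  nlinarith

/-- The prime powers part. -/
theorem E2_props {p : ℕ → ℝ} (hp : ∀ j, 3 ≤ p j)
    (hV : ∀ σ : ℝ, 1 / 2 < σ → Summable fun j => p j ^ (-(2 * σ))) :
    DifferentiableOn ℂ (fun s => ∑' j, (-Complex.log (1 - (p j : ℂ) ^ (-s)) - (p j : ℂ) ^ (-s)))
      {s : ℂ | 1 / 2 < s.re} ∧
      (∀ s : ℂ, 1 / 2 < s.re →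
        Summable fun j => (-Complex.log (1 - (p j : ℂ) ^ (-s)) - (p j : ℂ) ^ (-s))) ∧
      ∀ ε : ℝ, 0 < ε → ∃ C : ℝ, ∀ s : ℂ, 1 / 2 + ε ≤ s.re →
        ‖∑' j, (-Complex.log (1 - (p j : ℂ) ^ (-s)) - (p j : ℂ) ^ (-s))‖ ≤ C := by
  have hpos : ∀ j, 0 < p j := fun j => by linarith [hp j]
  have hnorm : ∀ j (s : ℂ), ‖(p j : ℂ) ^ (-s)‖ = p j ^ (-s.re) := by
    intro j s
    rw [Complex.norm_cpow_eq_rpow_re_of_pos (hpos j)]; simp
  have hsmall : ∀ j (s : ℂ), 1 / 2 < s.re → ‖(p j : ℂ) ^ (-s)‖ ≤ 3 / 5 := by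
    intro j s hs
    rw [hnorm]
    calc p j ^ (-s.re) ≤ p j ^ (-(1 / 2) : ℝ) :=
          Real.rpow_le_rpow_of_exponent_le (by linarith [hp j]) (by linarith)
      _ ≤ (3 : ℝ) ^ (-(1 / 2) : ℝ) :=
          Real.rpow_le_rpow_of_nonpos (by norm_num) (hp j) (by norm_num)
      _ ≤ 3 / 5 := by
          rw [Real.rpow_neg (by norm_num), ← Real.sqrt_eq_rpow]
          rw [inv_le_comm₀ (by positivity) (by norm_num)]
          apply Real.le_sqrt_of_sq_le
          norm_num
  refine diffOn_tsum_half (B := fun σ j => 2 * p j ^ (-(2 * σ))) ?_ ?_ ?_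
  · intro j s hs
    simp only [mem_ofPred_eq] at hs
    have hpne : (p j : ℂ) ≠ 0 := by exact_mod_cast (hpos j).ne'
    have h1 : DifferentiableAt ℂ (fun s : ℂ => (p j : ℂ) ^ (-s)) s :=
      (differentiableAt_id.neg).const_cpow (Or.inl hpne)
    have h2 : DifferentiableAt ℂ (fun s : ℂ => Complex.log (1 - (p j : ℂ) ^ (-s))) s := by
      apply DifferentiableAt.clog ((differentiableAt_const _).sub h1)
      rw [sub_eq_add_neg]
      apply Complex.mem_slitPlane_of_norm_lt_one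
      change ‖-((p j : ℂ) ^ (-s))‖ < 1
      rw [norm_neg]
      have := hsmall j s hs
      linarith
    exact (h2.neg.sub h1).differentiableWithinAt
  · intro j σ s hσ hs
    refine (norm_log_one_sub_add_le (hsmall j s (by linarith))).trans ?_
    rw [hnorm, ← Real.rpow_natCast, ← Real.rpow_mul (hpos j).le]
    apply mul_le_mul_of_nonneg_left _ (by norm_num)
    apply Real.rpow_le_rpow_of_exponent_le (by linarith [hp j])
    push_cast
    linarith
  · intro σ hσ
    exact (hV σ hσ).mul_left 2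

theorem differentiable_integral_cpow {h : ℝ → ℂ} {a b M : ℝ} (ha : 1 ≤ a) (hab : a ≤ b)
    (hm : AEStronglyMeasurable h (volume.restrict (Ioc a b)))
    (hb : ∀ u ∈ Ioc a b, ‖h u‖ ≤ M) :
    Differentiable ℂ fun s : ℂ => ∫ u in a..b, h u * (u : ℂ) ^ (-s) := by
  intro s₀
  have ha0 : 0 < a := by linarith
  have hM : Ioc a b = ∅ ∨ 0 ≤ M := by
    rcases eq_empty_or_nonempty (Ioc a b) with h | ⟨u, hu⟩
    · left; exact h
    · right; exact (norm_nonneg _).trans (hb u hu)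
  rcases hM with hM | hM
  · have : ∀ s : ℂ, ∫ u in a..b, h u * (u : ℂ) ^ (-s) = 0 := by
      intro s
      rw [intervalIntegral.integral_of_le hab, hM]; simp
    simp_rw [this]
    exact differentiableAt_const _
  simp_rw [intervalIntegral.integral_of_le hab]
  have hmeas : ∀ s : ℂ, AEStronglyMeasurable (fun u : ℝ => h u * (u : ℂ) ^ (-s))
      (volume.restrict (Ioc a b)) := fun s =>
    hm.mul ((by fun_prop : Measurable fun v : ℝ => ((v : ℂ) ^ (-s))).aestronglyMeasurable)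
  have key := hasDerivAt_integral_of_dominated_loc_of_deriv_le
    (μ := volume.restrict (Ioc a b)) (𝕜 := ℂ)
    (F := fun (s : ℂ) (v : ℝ) => h v * ((v : ℂ) ^ (-s)))
    (F' := fun (s : ℂ) (v : ℝ) => h v * -(((v : ℂ) ^ (-s)) * Complex.log v))
    (x₀ := s₀) (s := Metric.ball s₀ 1)
    (bound := fun _ => M * (b ^ (‖s₀‖ + 1) * Real.log b))
    (Metric.ball_mem_nhds _ one_pos)
    (Eventually.of_forall fun s => hmeas s)
    ?_ ?_ ?_ (integrable_const _) ?_
  · exact key.2.differentiableAt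
  · refine Integrable.of_bound (hmeas s₀) (M * max (a ^ (-s₀.re)) (b ^ (-s₀.re))) ?_
    filter_upwards [ae_restrict_mem measurableSet_Ioc] with v hv
    have hv0 : 0 < v := lt_of_lt_of_le ha0 hv.1.le
    rw [norm_mul]
    apply mul_le_mul (hb v hv) _ (norm_nonneg _) hM
    rw [Complex.norm_cpow_eq_rpow_re_of_pos hv0, Complex.neg_re]
    rcases le_total 0 s₀.re with h | h
    · apply le_max_of_le_left
      exact Real.rpow_le_rpow_of_nonpos ha0 hv.1.le (by linarith)
    · apply le_max_of_le_right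
      exact Real.rpow_le_rpow hv0.le hv.2 (by linarith)
  · apply hm.mul
    apply Measurable.aestronglyMeasurable
    have h1 : Measurable fun v : ℝ => ((v : ℂ) ^ (-s₀)) := by fun_prop
    have h2 : Measurable fun v : ℝ => Complex.log (v : ℂ) :=
      Complex.measurable_log.comp Complex.measurable_ofReal
    exact (h1.mul h2).neg
  · filter_upwards [ae_restrict_mem measurableSet_Ioc] with v hv s hs
    have hv0 : 0 < v := lt_of_lt_of_le ha0 hv.1.le
    have hv1 : 1 ≤ v := ha.trans hv.1.le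
    rw [norm_mul]
    apply mul_le_mul (hb v hv) _ (norm_nonneg _) hM
    rw [norm_neg, norm_mul, Complex.norm_cpow_eq_rpow_re_of_pos hv0]
    rw [← Complex.ofReal_log hv0.le, Complex.norm_real, Real.norm_eq_abs,
      abs_of_nonneg (Real.log_nonneg hv1)]
    apply mul_le_mul
    · have h1 : ‖s‖ ≤ ‖s₀‖ + 1 := by
        have := norm_add_le s₀ (s - s₀)
        rw [Metric.mem_ball, dist_eq_norm] at hs
        simp only [add_sub_cancel] at this
        linarith
      have h2 : (-s).re ≤ ‖s₀‖ + 1 := by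
        have := (Complex.abs_re_le_norm s)
        have h3 := neg_abs_le s.re
        simp only [Complex.neg_re]
        linarith
      calc v ^ (-s).re ≤ v ^ (‖s₀‖ + 1) := Real.rpow_le_rpow_of_exponent_le hv1 h2
        _ ≤ b ^ (‖s₀‖ + 1) := Real.rpow_le_rpow hv0.le hv.2 (by positivity)
    · exact Real.log_le_log hv0 hv.2
    · exact Real.log_nonneg hv1
    · exact Real.rpow_nonneg (hv0.le.trans hv.2) _
  · filter_upwards [ae_restrict_mem measurableSet_Ioc] with v hv s hs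
    have hv0 : 0 < v := lt_of_lt_of_le ha0 hv.1.le
    have hvne : (v : ℂ) ≠ 0 := by exact_mod_cast hv0.ne'
    have h2 := (hasDerivAt_neg s).const_cpow (c := (v : ℂ)) (Or.inl hvne)
    have h3 := h2.const_mul (h v)
    exact h3.congr_deriv (by ring)

theorem norm_integral_cpow_le {h : ℝ → ℂ} {a b M : ℝ} (ha : 0 < a) (hab : a ≤ b)
    (hb : ∀ u ∈ Ioc a b, ‖h u‖ ≤ M) (hM : 0 ≤ M) {s : ℂ} {σ : ℝ} (hσ : 0 ≤ σ)
    (ha1 : 1 ≤ a) (hs : σ ≤ s.re) :
    ‖∫ u in a..b, h u * (u : ℂ) ^ (-s)‖ ≤ M * ((b - a) * a ^ (-σ)) := by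
  have h1 := intervalIntegral.norm_integral_le_of_norm_le_const (a := a) (b := b)
    (f := fun u : ℝ => h u * (u : ℂ) ^ (-s)) (C := M * a ^ (-σ)) (by
      intro u hu
      rw [uIoc_of_le hab] at hu
      have hu0 : 0 < u := lt_trans ha hu.1
      rw [norm_mul]
      apply mul_le_mul (hb u hu) _ (norm_nonneg _) hM
      rw [Complex.norm_cpow_eq_rpow_re_of_pos hu0, Complex.neg_re]
      calc u ^ (-s.re) ≤ a ^ (-s.re) := Real.rpow_le_rpow_of_nonpos ha hu.1.le (by linarith)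
        _ ≤ a ^ (-σ) := Real.rpow_le_rpow_of_exponent_le ha1 (by linarith))
  rw [abs_of_nonneg (by linarith)] at h1
  calc _ ≤ _ := h1
    _ = _ := by ring

end Pool.Agent.H521
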