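import Pool.Agent.H521.Engine2
import Pool.Agent.H521.Pieces

open MeasureTheory Set Filter Topology
open scoped ENNReal NNReal

namespace Pool.Agent.H521

/-- Admissible densities. -/
structure Dens (f : ℝ → ℝ) (x₀ : ℝ) : Prop where
  hx₀ : 3 ≤ x₀
  meas : Measurable f
  cont : ContinuousOn f (Ici x₀)
  nonneg : ∀ u, x₀ ≤ u → 0 ≤ f u
  le_one : ∀ u, x₀ ≤ u → f u ≤ 1

/-- Cells `[a j, b j]` of unit mass separated by windows `(b j, a (j+1))`. -/
structure Cells (f : ℝ → ℝ) (x₀ : ℝ) (a b : ℕ → ℝ) : Prop where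
  a0 : a 0 = x₀
  ab1 : ∀ j, a j + 1 ≤ b j
  ablog : ∀ j, b j ≤ a j + 4 * Real.log (a j)
  int1 : ∀ j, ∫ u in a j..b j, f u = 1
  ba : ∀ j, b j ≤ a (j + 1)
  win : ∀ σ : ℝ, 1 / 2 < σ → Summable fun j => (a (j + 1) - b j) * b j ^ (-σ)

namespace Cells

variable {f : ℝ → ℝ} {x₀ : ℝ} {a b : ℕ → ℝ}

theorem a_ge (hD : Dens f x₀) (h : Cells f x₀ a b) (j : ℕ) : x₀ + j ≤ a j := by
  induction j with
  | zero => simp [h.a0]
  | succ j ih =>
    have h1 := h.ab1 j
    have h2 := h.ba j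
    push_cast
    linarith

theorem a_ge3 (hD : Dens f x₀) (h : Cells f x₀ a b) (j : ℕ) : 3 ≤ a j := by
  have := h.a_ge hD j
  have := hD.hx₀
  have : (0 : ℝ) ≤ j := Nat.cast_nonneg j
  linarith

theorem a_ge_x (hD : Dens f x₀) (h : Cells f x₀ a b) (j : ℕ) : x₀ ≤ a j := by
  have := h.a_ge hD j
  have : (0 : ℝ) ≤ j := Nat.cast_nonneg j
  linarith

theorem a_ge_succ (hD : Dens f x₀) (h : Cells f x₀ a b) (j : ℕ) : (j : ℝ) + 1 ≤ a j := by
  have := h.a_ge hD j
  have := hD.hx₀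
  linarith

theorem a_le_b (h : Cells f x₀ a b) (j : ℕ) : a j ≤ b j := by linarith [h.ab1 j]

theorem tendsto_a (hD : Dens f x₀) (h : Cells f x₀ a b) : Tendsto a atTop atTop := by
  apply tendsto_atTop_mono (fun j => h.a_ge_succ hD j)
  exact tendsto_atTop_add_const_right _ _ tendsto_natCast_atTop_atTop

theorem summable_pow (hD : Dens f x₀) (h : Cells f x₀ a b) {τ : ℝ} (hτ : 1 < τ) :
    Summable fun j => a j ^ (-τ) := by
  have h1 : Summable fun j : ℕ => ((j : ℝ) + 1) ^ (-τ) := by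
    have := (summable_nat_add_iff 1).2 (Real.summable_nat_rpow.2 (by linarith : -τ < -1))
    simpa using this
  refine Summable.of_nonneg_of_le (fun j => Real.rpow_nonneg (by linarith [h.a_ge3 hD j]) _)
    (fun j => ?_) h1
  apply Real.rpow_le_rpow_of_nonpos (by positivity) (h.a_ge_succ hD j) (by linarith)

theorem summable_V (hD : Dens f x₀) (h : Cells f x₀ a b) (σ : ℝ) (hσ : 1 / 2 < σ) :
    Summable fun j => a j ^ (-(2 * σ)) := h.summable_pow hD (by linarith)

theorem summable_S (hD : Dens f x₀) (h : Cells f x₀ a b) (σ : ℝ) (hσ : 1 / 2 < σ) :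
    Summable fun j => (b j - a j) * a j ^ (-σ - 1) := by
  refine Summable.of_nonneg_of_le (f := fun j => 16 * a j ^ (-(5 / 4 : ℝ)))
    (fun j => ?_) (fun j => ?_) ((h.summable_pow hD (by norm_num)).mul_left _)
  · apply mul_nonneg (by linarith [h.ab1 j])
    exact Real.rpow_nonneg (by linarith [h.a_ge3 hD j]) _
  · have ha := h.a_ge3 hD j
    have ha0 : 0 < a j := by linarith
    have hlog : Real.log (a j) ≤ a j ^ (1 / 4 : ℝ) / (1 / 4) :=
      Real.log_le_rpow_div ha0.le (by norm_num)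
    have h1 : b j - a j ≤ 16 * a j ^ (1 / 4 : ℝ) := by
      have := h.ablog j
      linarith
    have hp : 0 ≤ a j ^ (-σ - 1) := Real.rpow_nonneg ha0.le _
    calc (b j - a j) * a j ^ (-σ - 1) ≤ 16 * a j ^ (1 / 4 : ℝ) * a j ^ (-σ - 1) :=
          mul_le_mul_of_nonneg_right h1 hp
      _ = 16 * a j ^ ((1 / 4 : ℝ) + (-σ - 1)) := by
          rw [Real.rpow_add ha0]; ring
      _ ≤ 16 * a j ^ (-(5 / 4 : ℝ)) := by
          apply mul_le_mul_of_nonneg_left _ (by norm_num)
          apply Real.rpow_le_rpow_of_exponent_le (by linarith)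
          linarith

end Cells

/-- the cell measure -/
noncomputable def cellM (f : ℝ → ℝ) (a b : ℝ) : Measure ℝ :=
  (volume.restrict (Ioc a b)).withDensity fun u => ENNReal.ofReal (f u)

theorem cellM_compl (f : ℝ → ℝ) (a b : ℝ) : cellM f a b (Icc a b)ᶜ = 0 := by
  unfold cellM
  apply withDensity_absolutelyContinuous
  rw [Measure.restrict_apply measurableSet_Icc.compl]
  have : (Icc a b)ᶜ ∩ Ioc a b = ∅ := by
    ext u
    simp only [mem_inter_iff, mem_compl_iff, mem_Icc, mem_Ioc, mem_empty_iff_false, iff_false]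
    rintro ⟨h1, h2⟩
    exact h1 ⟨h2.1.le, h2.2⟩
  rw [this]; simp

theorem cellM_compl' (f : ℝ → ℝ) (a b : ℝ) : cellM f a b (Ico a b)ᶜ = 0 := by
  unfold cellM
  apply withDensity_absolutelyContinuous
  rw [Measure.restrict_apply measurableSet_Ico.compl]
  have : (Ico a b)ᶜ ∩ Ioc a b ⊆ {b} := by
    intro u
    simp only [mem_inter_iff, mem_compl_iff, mem_Ico, mem_Ioc, mem_singleton_iff]
    rintro ⟨h1, h2⟩
    by_contra h3
    exact h1 ⟨h2.1.le, lt_of_le_of_ne h2.2 h3⟩
  exact measure_mono_null this (by simp)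

theorem cellM_prob {f : ℝ → ℝ} {x₀ a b : ℝ} (hD : Dens f x₀) (ha : x₀ ≤ a) (hab : a ≤ b)
    (hint : ∫ u in a..b, f u = 1) : IsProbabilityMeasure (cellM f a b) := by
  constructor
  unfold cellM
  rw [withDensity_apply _ MeasurableSet.univ]
  simp only [Measure.restrict_univ]
  rw [← ofReal_integral_eq_lintegral_ofReal]
  · rw [← intervalIntegral.integral_of_le hab, hint]; simp
  · have : IntervalIntegrable f volume a b := by
      apply ContinuousOn.intervalIntegrable
      rw [uIcc_of_le hab]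
      exact hD.cont.mono (fun u hu => ha.trans hu.1)
    exact (intervalIntegrable_iff_integrableOn_Ioc_of_le hab).1 this
  · filter_upwards [ae_restrict_mem measurableSet_Ioc] with u hu
    exact hD.nonneg u (ha.trans hu.1.le)

theorem integral_cellM {f : ℝ → ℝ} {x₀ a b : ℝ} (hD : Dens f x₀) (ha : x₀ ≤ a) (hab : a ≤ b)
    (s : ℂ) : ∫ v : ℝ, (v : ℂ) ^ (-s) ∂(cellM f a b) = ∫ u in a..b, (f u : ℂ) * (u : ℂ) ^ (-s) := by
  unfold cellM
  rw [integral_withDensity_eq_integral_toReal_smul hD.meas.ennreal_ofReal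
    (Eventually.of_forall fun u => ENNReal.ofReal_lt_top),
    intervalIntegral.integral_of_le hab]
  apply setIntegral_congr_fun measurableSet_Ioc
  intro u hu
  simp only
  rw [ENNReal.toReal_ofReal (hD.nonneg u (ha.trans hu.1.le)), Complex.real_smul]

theorem norm_dens_le {f : ℝ → ℝ} {x₀ : ℝ} (hD : Dens f x₀) {u : ℝ} (hu : x₀ ≤ u) :
    ‖(f u : ℂ)‖ ≤ 1 := by
  rw [Complex.norm_real, Real.norm_eq_abs, abs_of_nonneg (hD.nonneg u hu)]
  exact hD.le_one u hu

theorem intervalIntegrable_dens {f : ℝ → ℝ} {x₀ a b : ℝ} (hD : Dens f x₀) (ha : x₀ ≤ a)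
    (hab : a ≤ b) (s : ℂ) :
    IntervalIntegrable (fun u : ℝ => (f u : ℂ) * (u : ℂ) ^ (-s)) volume a b := by
  apply ContinuousOn.intervalIntegrable
  rw [uIcc_of_le hab]
  intro u hu
  have hu0 : 0 < u := by linarith [hu.1, hD.hx₀]
  have h1 : ContinuousWithinAt (fun u : ℝ => (f u : ℂ)) (Icc a b) u :=
    (Complex.continuous_ofReal.continuousAt.comp_continuousWithinAt
      (hD.cont.mono (fun v hv => ha.trans hv.1) u hu))
  have h2 : ContinuousAt (fun u : ℝ => (u : ℂ) ^ (-s)) u := by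
    apply ContinuousAt.cpow (by fun_prop) continuousAt_const
    exact Complex.ofReal_mem_slitPlane.2 hu0
  exact h1.mul h2.continuousWithinAt

/-- The discretisation theorem in terms of `∑ -log(1 - p^{-s})`. -/
theorem assemble {f : ℝ → ℝ} {x₀ : ℝ} {a b : ℕ → ℝ} (hD : Dens f x₀) (h : Cells f x₀ a b)
    (hfi : ∀ s : ℂ, 1 < s.re → IntegrableOn (fun u : ℝ => (f u : ℂ) * (u : ℂ) ^ (-s)) (Ioi x₀)) :
    ∃ p : ℕ → ℝ, (∀ j, p j ∈ Ico (a j) (b j)) ∧
      ∃ R : ℂ → ℂ, DifferentiableOn ℂ R {s : ℂ | 1 / 2 < s.re} ∧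
        (∀ s : ℂ, 1 < s.re → ∑' j, -Complex.log (1 - (p j : ℂ) ^ (-s)) =
          (∫ u in Ioi x₀, (f u : ℂ) * (u : ℂ) ^ (-s)) + R s) ∧
        ∀ ε : ℝ, 0 < ε → ∃ C : ℝ, ∀ s : ℂ, 1 / 2 + ε ≤ s.re →
          |(R s).re| ≤ C + ε * Real.log (2 + ‖s‖) := by
  have ha3 := h.a_ge3 hD
  have hax := h.a_ge_x hD
  have hab := h.a_le_b
  have : ∀ j, IsProbabilityMeasure (cellM f (a j) (b j)) := fun j =>
    cellM_prob hD (hax j) (hab j) (h.int1 j)
  obtain ⟨p, hp, hsX, hdX, hbX⟩ := engine (μ := fun j => cellM f (a j) (b j))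
    (fun j => by linarith [ha3 j]) (fun j => cellM_compl f (a j) (b j))
    (h.summable_V hD) (h.summable_S hD) (fun j => Ico (a j) (b j))
    (fun j => cellM_compl' f (a j) (b j)) (fun j => Ico_subset_Icc_self)
  have hp3 : ∀ j, 3 ≤ p j := fun j => (ha3 j).trans (hp j).1
  have hpV : ∀ τ : ℝ, 1 < τ → Summable fun j => p j ^ (-τ) := by
    intro τ hτ
    refine Summable.of_nonneg_of_le (fun j => Real.rpow_nonneg (by linarith [hp3 j]) _)
      (fun j => ?_) (h.summable_pow hD hτ)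
    exact Real.rpow_le_rpow_of_nonpos (by linarith [ha3 j]) (hp j).1 (by linarith)
  obtain ⟨hd2, hs2, hb2⟩ := E2_props hp3 (fun σ hσ => hpV (2 * σ) (by linarith))
  -- windows
  have hbx : ∀ j, x₀ ≤ b j := fun j => (hax j).trans (hab j)
  have hb1 : ∀ j, 1 ≤ b j := fun j => by linarith [hbx j, hD.hx₀]
  obtain ⟨hdD, hsD, hbD⟩ := diffOn_tsum_half
    (F := fun j s => ∫ u in b j..a (j + 1), (f u : ℂ) * (u : ℂ) ^ (-s))
    (B := fun σ j => (a (j + 1) - b j) * b j ^ (-σ))
    (fun j => (differentiable_integral_cpow (hb1 j) (h.ba j)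
      (Complex.measurable_ofReal.comp hD.meas).aestronglyMeasurable (M := 1)
      (fun u hu => norm_dens_le hD ((hbx j).trans hu.1.le))).differentiableOn)
    (fun j σ s hσ hs => by
      have := norm_integral_cpow_le (h := fun u => (f u : ℂ)) (by linarith [hb1 j]) (h.ba j)
        (M := 1) (fun u hu => norm_dens_le hD ((hbx j).trans hu.1.le)) zero_le_one
        (s := s) (σ := σ) (by linarith) (hb1 j) hs
      simpa using this)
    h.win
  set E1 : ℂ → ℂ := fun s => ∑' j, Xt (cellM f (a j) (b j)) (p j) s with hE1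
  set E2 : ℂ → ℂ := fun s => ∑' j, (-Complex.log (1 - (p j : ℂ) ^ (-s)) - (p j : ℂ) ^ (-s))
    with hE2
  set D : ℂ → ℂ := fun s => ∑' j, ∫ u in b j..a (j + 1), (f u : ℂ) * (u : ℂ) ^ (-s) with hDd
  refine ⟨p, hp, fun s => E1 s + E2 s - D s, (hdX.add hd2).sub hdD, ?_, ?_⟩
  · intro s hs
    have hs' : 1 / 2 < s.re := by linarith
    -- cell integrals
    have hcell : ∀ j, ‖∫ u in a j..b j, (f u : ℂ) * (u : ℂ) ^ (-s)‖ ≤ a j ^ (-s.re) := by
      intro j
      rw [← integral_cellM hD (hax j) (hab j)]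
      have := norm_integral_le_of_norm_le_const (μ := cellM f (a j) (b j))
        (f := fun v : ℝ => (v : ℂ) ^ (-s)) (C := a j ^ (-s.re)) (by
          filter_upwards [ae_mem_of_null (cellM_compl f (a j) (b j))] with v hv
          have hv0 : 0 < v := by linarith [ha3 j, hv.1]
          rw [norm_ofReal_cpow_neg hv0]
          exact Real.rpow_le_rpow_of_nonpos (by linarith [ha3 j]) hv.1 (by linarith))
      simpa using this
    have hscell : Summable fun j => ∫ u in a j..b j, (f u : ℂ) * (u : ℂ) ^ (-s) :=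
      Summable.of_norm_bounded (h.summable_pow hD hs) hcell
    have hstot : Summable fun j => (∫ u in a j..b j, (f u : ℂ) * (u : ℂ) ^ (-s)) +
        ∫ u in b j..a (j + 1), (f u : ℂ) * (u : ℂ) ^ (-s) := hscell.add (hsD s hs')
    have htot : ∑' j, ((∫ u in a j..b j, (f u : ℂ) * (u : ℂ) ^ (-s)) +
        ∫ u in b j..a (j + 1), (f u : ℂ) * (u : ℂ) ^ (-s)) =
        ∫ u in Ioi x₀, (f u : ℂ) * (u : ℂ) ^ (-s) := by
      have h1 := hstot.hasSum.tendsto_sum_nat
      have h2 : ∀ J : ℕ, ∑ j ∈ Finset.range J, ((∫ u in a j..b j, (f u : ℂ) * (u : ℂ) ^ (-s)) +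
          ∫ u in b j..a (j + 1), (f u : ℂ) * (u : ℂ) ^ (-s)) =
          ∫ u in x₀..a J, (f u : ℂ) * (u : ℂ) ^ (-s) := by
        intro J
        induction J with
        | zero => simp [h.a0]
        | succ J ih =>
          rw [Finset.sum_range_succ, ih]
          rw [intervalIntegral.integral_add_adjacent_intervals
            (intervalIntegrable_dens hD (hax J) (hab J) s)
            (intervalIntegrable_dens hD (hbx J) (h.ba J) s),
            intervalIntegral.integral_add_adjacent_intervals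
            (intervalIntegrable_dens hD le_rfl (hax J) s)
            (intervalIntegrable_dens hD (hax J) ((hab J).trans (h.ba J)) s)]
      simp_rw [h2] at h1
      exact tendsto_nhds_unique h1
        (intervalIntegral_tendsto_integral_Ioi x₀ (hfi s hs) (h.tendsto_a hD))
    have hsp : Summable fun j => (p j : ℂ) ^ (-s) := by
      refine Summable.of_norm_bounded (hpV s.re hs) (fun j => ?_)
      rw [norm_ofReal_cpow_neg (by linarith [hp3 j])]
    have hXt : ∀ j, Xt (cellM f (a j) (b j)) (p j) s = (p j : ℂ) ^ (-s) -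
        ∫ u in a j..b j, (f u : ℂ) * (u : ℂ) ^ (-s) := by
      intro j
      unfold Xt
      rw [integral_cellM hD (hax j) (hab j)]
    have e1 : E1 s = ∑' j, (p j : ℂ) ^ (-s) -
        ∑' j, ∫ u in a j..b j, (f u : ℂ) * (u : ℂ) ^ (-s) := by
      rw [hE1]
      simp only
      simp_rw [hXt]
      exact hsp.tsum_sub hscell
    have e2 : ∑' j, -Complex.log (1 - (p j : ℂ) ^ (-s)) = E2 s + ∑' j, (p j : ℂ) ^ (-s) := by
      rw [hE2]
      simp only
      rw [← (hs2 s hs').tsum_add hsp]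
      apply tsum_congr
      intro j
      ring
    rw [← htot, hscell.tsum_add (hsD s hs'), e2]
    simp only
    rw [e1]
    simp only [hDd]
    ring
  · intro ε hε
    obtain ⟨C1, h1⟩ := hbX ε hε
    obtain ⟨C2, h2⟩ := hb2 ε hε
    obtain ⟨C3, h3⟩ := hbD ε hε
    refine ⟨C1 + C2 + C3, fun s hs => ?_⟩
    have g1 := h1 s hs
    have g2 := (Complex.abs_re_le_norm _).trans (h2 s hs)
    have g3 := (Complex.abs_re_le_norm _).trans (h3 s hs)
    simp only [Complex.sub_re, Complex.add_re]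
    change |(E1 s).re| ≤ _ at g1
    change |(E2 s).re| ≤ _ at g2
    change |(D s).re| ≤ _ at g3
    rw [abs_le] at g1 g2 g3 ⊢
    constructor <;> linarith [g1.1, g1.2, g2.1, g2.2, g3.1, g3.2]

end Pool.Agent.H521
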