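import Pool.Agent.H521.Shift

open MeasureTheory Set Filter Topology
open scoped ENNReal NNReal

namespace Pool.Agent.H521

/-- The counting function of generalised integers (with multiplicity). -/
noncomputable def countInt (p : ℕ → ℝ) (x : ℝ) : ℕ := Set.ncard {e : ℕ →₀ ℕ | gint p e ≤ x}

/-- The integrated counting function. -/
noncomputable def Aint (p : ℕ → ℝ) (x : ℝ) : ℝ := ∑' e : ℕ →₀ ℕ, max 0 (x - gint p e)

theorem summable_gint_real (p : ℕ → ℝ) (hp : ∀ j, 2 ≤ p j)
    (hV : ∀ τ : ℝ, 1 < τ → Summable fun j => p j ^ (-τ)) {c : ℝ} (hc : 1 < c) :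
    Summable fun e : ℕ →₀ ℕ => gint p e ^ (-c) := by
  have h := summable_gint p hp (c : ℂ) (by simpa using hc.le) (by simpa using hV c hc)
  refine h.congr fun e => ?_
  rw [Complex.norm_cpow_eq_rpow_re_of_pos (gint_pos (fun j => one_le_two.trans (hp j)) e)]
  simp

theorem finite_gint (p : ℕ → ℝ) (hp : ∀ j, 2 ≤ p j)
    (hV : ∀ τ : ℝ, 1 < τ → Summable fun j => p j ^ (-τ)) (x : ℝ) :
    {e : ℕ →₀ ℕ | gint p e ≤ x}.Finite := by
  rcases le_or_gt x 0 with hx | hx
  · have : {e : ℕ →₀ ℕ | gint p e ≤ x} = ∅ := by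
      ext e
      have := gint_pos (fun j => one_le_two.trans (hp j)) e
      simp only [mem_ofPred_eq, mem_empty_iff_false, iff_false, not_le]
      linarith
    rw [this]; exact finite_empty
  · have h1 := (summable_gint_real p hp hV one_lt_two).tendsto_cofinite_zero
    have h2 : ∀ᶠ e : ℕ →₀ ℕ in cofinite, gint p e ^ (-(2 : ℝ)) < x ^ (-(2 : ℝ)) :=
      h1.eventually_lt_const (Real.rpow_pos_of_pos hx _)
    rw [eventually_cofinite] at h2
    refine h2.subset fun e he => ?_
    simp only [mem_ofPred_eq, not_lt] at he ⊢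
    exact Real.rpow_le_rpow_of_nonpos (gint_pos (fun j => one_le_two.trans (hp j)) e) he
      (by norm_num)

theorem Aint_eq_sum (p : ℕ → ℝ) (hp : ∀ j, 2 ≤ p j)
    (hV : ∀ τ : ℝ, 1 < τ → Summable fun j => p j ^ (-τ)) {x y : ℝ} (hxy : x ≤ y) :
    Aint p x = ∑ e ∈ (finite_gint p hp hV y).toFinset, max 0 (x - gint p e) := by
  unfold Aint
  apply tsum_eq_sum
  intro e he
  rw [Set.Finite.mem_toFinset] at he
  simp only [mem_ofPred_eq, not_le] at he
  exact max_eq_left (by linarith)

theorem count_le_Aint (p : ℕ → ℝ) (hp : ∀ j, 2 ≤ p j)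
    (hV : ∀ τ : ℝ, 1 < τ → Summable fun j => p j ^ (-τ)) (x : ℝ) :
    (countInt p x : ℝ) ≤ Aint p (x + 1) - Aint p x := by
  classical
  rw [Aint_eq_sum p hp hV (le_refl (x + 1)), Aint_eq_sum p hp hV (by linarith : x ≤ x + 1),
    ← Finset.sum_sub_distrib]
  have h1 : (countInt p x : ℝ) =
      ∑ e ∈ (finite_gint p hp hV (x + 1)).toFinset, if gint p e ≤ x then (1 : ℝ) else 0 := by
    rw [Finset.sum_boole, countInt]
    congr 1
    rw [← Set.ncard_coe_finset]
    congr 1
    ext e
    simp only [Finset.coe_filter, Set.Finite.mem_toFinset, mem_ofPred_eq]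
    constructor
    · intro h; exact ⟨by linarith, h⟩
    · intro h; exact h.2
  rw [h1]
  apply Finset.sum_le_sum
  intro e _
  split_ifs with h
  · rw [max_eq_right (by linarith), max_eq_right (by linarith)]
    linarith
  · push Not at h
    rw [max_eq_left (by linarith : x - gint p e ≤ 0)]
    have := le_max_left (0 : ℝ) (x + 1 - gint p e)
    linarith

theorem Aint_le_count (p : ℕ → ℝ) (hp : ∀ j, 2 ≤ p j)
    (hV : ∀ τ : ℝ, 1 < τ → Summable fun j => p j ^ (-τ)) (x : ℝ) :
    Aint p (x + 1) - Aint p x ≤ (countInt p (x + 1) : ℝ) := by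
  classical
  rw [Aint_eq_sum p hp hV (le_refl (x + 1)), Aint_eq_sum p hp hV (by linarith : x ≤ x + 1),
    ← Finset.sum_sub_distrib]
  have h1 : (countInt p (x + 1) : ℝ) =
      ∑ e ∈ (finite_gint p hp hV (x + 1)).toFinset, (1 : ℝ) := by
    rw [Finset.sum_const, nsmul_eq_mul, mul_one, countInt,
      Set.ncard_eq_toFinset_card _ (finite_gint p hp hV (x + 1))]
  rw [h1]
  apply Finset.sum_le_sum
  intro e _
  rcases le_total (x + 1 - gint p e) 0 with h | h
  · rw [max_eq_left h, max_eq_left (by linarith : x - gint p e ≤ 0)]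
    norm_num
  · rw [max_eq_right h]
    have := le_max_right (0 : ℝ) (x - gint p e)
    linarith

theorem zetaB_two (p : ℕ → ℝ) (hp : ∀ j, 2 ≤ p j)
    (hV : ∀ τ : ℝ, 1 < τ → Summable fun j => p j ^ (-τ)) {x : ℝ} (hx : 0 < x) :
    ((Aint p x : ℝ) : ℂ) = ((1 / (2 * Real.pi) : ℝ) : ℂ) * ∫ y : ℝ,
      (x : ℂ) ^ ((2 : ℝ) + y * Complex.I + 1 : ℂ) * (zetaB p ((2 : ℝ) + y * Complex.I) *
        (1 / (((2 : ℝ) + y * Complex.I : ℂ) * ((2 : ℝ) + y * Complex.I + 1)))) := by
  have hxne : (x : ℂ) ≠ 0 := by exact_mod_cast hx.ne'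
  have hg : ∀ e, 0 < gint p e := gint_pos fun j => one_le_two.trans (hp j)
  set F : (ℕ →₀ ℕ) → ℝ → ℂ := fun e y => (((gint p e / x : ℝ)) : ℂ) ^ (-(((2 : ℝ) : ℂ) + y * Complex.I)) *
      (1 / ((((2 : ℝ) : ℂ) + y * Complex.I) * (((2 : ℝ) : ℂ) + y * Complex.I + 1))) with hF
  have hk : Integrable fun y : ℝ =>
      (1 / ((((2 : ℝ) : ℂ) + y * Complex.I) * (((2 : ℝ) : ℂ) + y * Complex.I + 1))) := by
    apply integrable_of_le_japanese (C := 16) (r := 2) _ one_lt_two
    · intro y
      have hy : 0 < 1 + |y| := by positivity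
      have h1 := norm_ge_one_add (c := 2) (by norm_num) y
      have h2 := norm_ge_one_add (c := 2 + 1) (by norm_num) y
      rw [norm_div, norm_one, norm_mul]
      have h3 : (((2 + 1 : ℝ) : ℂ) + y * Complex.I) = ((2 : ℝ) : ℂ) + y * Complex.I + 1 := by
        push_cast; ring
      rw [h3] at h2
      rw [Real.rpow_neg hy.le, div_le_iff₀ (mul_pos (by linarith) (by linarith))]
      have h4 := mul_le_mul h1 h2 (by positivity) (norm_nonneg _)
      have h5 : (1 + |y|) ^ (2 : ℝ) = (1 + |y|) * (1 + |y|) := by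
        rw [show (2 : ℝ) = ((2 : ℕ) : ℝ) by norm_num, Real.rpow_natCast]; ring
      rw [h5]
      calc (1 : ℝ) = 16 * ((1 + |y|) * (1 + |y|))⁻¹ * (((1 + |y|) / 4) * ((1 + |y|) / 4)) := by
            field_simp; norm_num
        _ ≤ _ := mul_le_mul_of_nonneg_left h4 (by positivity)
    · apply Continuous.aestronglyMeasurable
      apply Continuous.div continuous_const (by fun_prop)
      intro y h
      rcases mul_eq_zero.1 h with h | h
      · have := congrArg Complex.re h
        simp at this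
      · have := congrArg Complex.re h
        simp at this
        linarith
  have hnF : ∀ e y, ‖F e y‖ = (gint p e / x) ^ (-(2 : ℝ)) *
      ‖(1 / ((((2 : ℝ) : ℂ) + y * Complex.I) * (((2 : ℝ) : ℂ) + y * Complex.I + 1)))‖ := by
    intro e y
    rw [hF]
    simp only
    rw [norm_mul, Complex.norm_cpow_eq_rpow_re_of_pos (div_pos (hg e) hx)]
    simp
  have hFi : ∀ e, Integrable (F e) := by
    intro e
    have hm : AEStronglyMeasurable (F e) volume := by
      apply AEStronglyMeasurable.mul _ hk.aestronglyMeasurable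
      apply Continuous.aestronglyMeasurable
      apply Continuous.const_cpow (by fun_prop)
      left
      exact_mod_cast (div_pos (hg e) hx).ne'
    refine Integrable.mono' ((hk.norm).const_mul ((gint p e / x) ^ (-(2 : ℝ)))) hm
      (Eventually.of_forall fun y => ?_)
    rw [hnF]
  have hsum : Summable fun e => ∫ y, ‖F e y‖ := by
    simp_rw [hnF, integral_const_mul]
    apply Summable.mul_right
    have h1 : (fun e : ℕ →₀ ℕ => (gint p e / x) ^ (-(2 : ℝ))) =
        fun e => gint p e ^ (-(2 : ℝ)) * x ^ (2 : ℝ) := by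
      ext e
      rw [Real.div_rpow (hg e).le hx.le, Real.rpow_neg hx.le 2]
      field_simp
    rw [h1]
    exact (summable_gint_real p hp hV one_lt_two).mul_right _
  have hHS := hasSum_integral_of_summable_integral_norm hFi hsum
  have hterm : ∀ e, ((max 0 (1 - gint p e / x) : ℝ) : ℂ) =
      ((1 / (2 * Real.pi) : ℝ) : ℂ) * ∫ y, F e y := by
    intro e
    rw [hF]
    exact (perron1 (c := 2) (by norm_num) (div_pos (hg e) hx)).symm
  have hA : ((Aint p x : ℝ) : ℂ) = (x : ℂ) * ∑' e, ((max 0 (1 - gint p e / x) : ℝ) : ℂ) := by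
    unfold Aint
    rw [Complex.ofReal_tsum, ← tsum_mul_left]
    apply tsum_congr
    intro e
    have : max 0 (x - gint p e) = x * max 0 (1 - gint p e / x) := by
      rw [mul_max_of_nonneg _ _ hx.le, mul_zero]
      congr 1
      field_simp
    rw [this]
    push_cast
    rfl
  rw [hA]
  simp_rw [hterm]
  rw [tsum_mul_left, hHS.tsum_eq, mul_left_comm]
  congr 1
  rw [← integral_const_mul]
  apply integral_congr_ae
  filter_upwards with y
  rw [hF]
  simp only
  rw [tsum_mul_right]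
  unfold zetaB
  have h3 : ∑' e : ℕ →₀ ℕ, (((gint p e / x : ℝ)) : ℂ) ^ (-(((2 : ℝ) : ℂ) + y * Complex.I)) =
      (∑' e : ℕ →₀ ℕ, ((gint p e : ℝ) : ℂ) ^ (-(((2 : ℝ) : ℂ) + y * Complex.I))) *
        (x : ℂ) ^ (((2 : ℝ) : ℂ) + y * Complex.I) := by
    rw [← tsum_mul_right]
    apply tsum_congr
    intro e
    rw [div_eq_mul_inv, Complex.ofReal_mul, Complex.mul_cpow_ofReal_nonneg (hg e).le
      (inv_nonneg.2 hx.le)]
    congr 1
    rw [Complex.ofReal_inv, Complex.inv_cpow, Complex.cpow_neg, inv_inv]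
    rw [Complex.arg_ofReal_of_nonneg hx.le]
    exact Real.pi_ne_zero.symm
  rw [h3, Complex.cpow_add _ 1 hxne, Complex.cpow_one]
  ring

end Pool.Agent.H521
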