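import Pool.Agent.H521.Count

open MeasureTheory Set Filter Topology
open scoped ENNReal NNReal

namespace Pool.Agent.H521

theorem norm_le_norm_add_one {s : ℂ} (hs : 0 ≤ s.re) : ‖s‖ ≤ ‖s + 1‖ := by
  rw [← abs_norm s, ← abs_norm (s + 1)]
  apply sq_le_sq.1
  rw [Complex.sq_norm, Complex.sq_norm, Complex.normSq_apply, Complex.normSq_apply]
  simp only [Complex.add_re, Complex.one_re, Complex.add_im, Complex.one_im, add_zero]
  nlinarith

theorem norm_ge_half {s : ℂ} (hs : 1 / 2 ≤ s.re) : (2 + ‖s‖) / 5 ≤ ‖s‖ := by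
  have := (le_abs_self s.re).trans (Complex.abs_re_le_norm s)
  linarith

/-- The regular part `(H(s) - κ s)/(s - 1)`. -/
noncomputable def Rg (H : ℂ → ℂ) (κ : ℂ) : ℂ → ℂ := dslope (fun s => H s - κ * s) 1

theorem Rg_diff {H : ℂ → ℂ} {κ : ℂ} (hH : DifferentiableOn ℂ H {s : ℂ | 1 / 2 < s.re}) :
    DifferentiableOn ℂ (Rg H κ) {s : ℂ | 1 / 2 < s.re} := by
  unfold Rg
  rw [Complex.differentiableOn_dslope]
  · exact hH.sub (by fun_prop)
  · apply (isOpen_lt continuous_const Complex.continuous_re).mem_nhds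
    simp; norm_num

theorem Rg_eq {H : ℂ → ℂ} {κ : ℂ} (hκ : H 1 = κ) {s : ℂ} (hs : s ≠ 1) :
    Rg H κ s = (H s - κ * s) / (s - 1) := by
  unfold Rg
  rw [dslope_of_ne _ hs, slope_def_field, hκ]
  simp

theorem Rg_bound {H : ℂ → ℂ} {κ : ℂ} (hH : DifferentiableOn ℂ H {s : ℂ | 1 / 2 < s.re})
    (hκ : H 1 = κ)
    (hb : ∀ ε : ℝ, 0 < ε → ∃ C : ℝ, ∀ s : ℂ, 1 / 2 + ε ≤ s.re →
      ‖H s‖ ≤ C * ‖s‖ * (2 + ‖s‖) ^ ε) {ε : ℝ} (hε : 0 < ε) :
    ∃ C : ℝ, 0 ≤ C ∧ ∀ s : ℂ, 1 / 2 + ε ≤ s.re → ‖Rg H κ s‖ ≤ C * (2 + ‖s‖) ^ ε := by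
  obtain ⟨C, hC⟩ := hb ε hε
  have hcomp : IsCompact (Metric.closedBall (1 : ℂ) (1 / 4)) := isCompact_closedBall _ _
  have hsub : Metric.closedBall (1 : ℂ) (1 / 4) ⊆ {s : ℂ | 1 / 2 < s.re} := by
    intro z hz
    rw [Metric.mem_closedBall, dist_eq_norm] at hz
    have h1 := (Complex.abs_re_le_norm (z - 1)).trans hz
    rw [Complex.sub_re, Complex.one_re, abs_le] at h1
    simp only [mem_ofPred_eq]
    linarith [h1.1]
  obtain ⟨M, hM⟩ := hcomp.exists_bound_of_continuousOn ((Rg_diff (κ := κ) hH).continuousOn.mono hsub)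
  have hM0 : 0 ≤ M := (norm_nonneg _).trans (hM 1 (by simp))
  refine ⟨M + 5 * (|C| + ‖κ‖), by positivity, fun s hs => ?_⟩
  have hp1 : 1 ≤ (2 + ‖s‖) ^ ε := Real.one_le_rpow (by linarith [norm_nonneg s]) hε.le
  rcases le_or_gt ‖s - 1‖ (1 / 4) with h | h
  · have h1 := hM s (by rw [Metric.mem_closedBall, dist_eq_norm]; exact h)
    calc ‖Rg H κ s‖ ≤ M := h1
      _ ≤ (M + 5 * (|C| + ‖κ‖)) * 1 := by
          have : 0 ≤ 5 * (|C| + ‖κ‖) := by positivity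
          linarith
      _ ≤ _ := mul_le_mul_of_nonneg_left hp1 (by positivity)
  · have hs1 : s ≠ 1 := by
      rintro rfl
      simp at h
      linarith
    have hpos : 0 < ‖s - 1‖ := by linarith
    rw [Rg_eq hκ hs1, norm_div, div_le_iff₀ hpos]
    have h2 : ‖s‖ ≤ 5 * ‖s - 1‖ := by
      have := norm_add_le (s - 1) 1
      simp only [sub_add_cancel, norm_one] at this
      linarith
    have h3 : ‖H s - κ * s‖ ≤ (|C| + ‖κ‖) * ‖s‖ * (2 + ‖s‖) ^ ε := by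
      refine (norm_sub_le _ _).trans ?_
      have h4 := hC s hs
      have h5 : C * ‖s‖ * (2 + ‖s‖) ^ ε ≤ |C| * ‖s‖ * (2 + ‖s‖) ^ ε := by
        gcongr
        exact le_abs_self C
      have h6 : ‖κ * s‖ ≤ ‖κ‖ * ‖s‖ * (2 + ‖s‖) ^ ε := by
        rw [norm_mul]
        calc ‖κ‖ * ‖s‖ = ‖κ‖ * ‖s‖ * 1 := (mul_one _).symm
          _ ≤ _ := mul_le_mul_of_nonneg_left hp1 (by positivity)
      calc _ ≤ |C| * ‖s‖ * (2 + ‖s‖) ^ ε + ‖κ‖ * ‖s‖ * (2 + ‖s‖) ^ ε :=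
            add_le_add (h4.trans h5) h6
        _ = _ := by ring
    calc ‖H s - κ * s‖ ≤ (|C| + ‖κ‖) * ‖s‖ * (2 + ‖s‖) ^ ε := h3
      _ ≤ (|C| + ‖κ‖) * (5 * ‖s - 1‖) * (2 + ‖s‖) ^ ε := by gcongr
      _ = (5 * (|C| + ‖κ‖)) * (2 + ‖s‖) ^ ε * ‖s - 1‖ := by ring
      _ ≤ (M + 5 * (|C| + ‖κ‖)) * (2 + ‖s‖) ^ ε * ‖s - 1‖ := by
          gcongr
          linarith

/-- the function integrated -/
noncomputable def Qf (H : ℂ → ℂ) (κ : ℂ) (s : ℂ) : ℂ := Rg H κ s / (s * (s + 1))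

theorem Qf_diff {H : ℂ → ℂ} {κ : ℂ} (hH : DifferentiableOn ℂ H {s : ℂ | 1 / 2 < s.re}) :
    DifferentiableOn ℂ (Qf H κ) {s : ℂ | 1 / 2 < s.re} := by
  unfold Qf
  apply (Rg_diff hH).div (by fun_prop)
  intro s hs h
  simp only [mem_ofPred_eq] at hs
  rcases mul_eq_zero.1 h with h | h
  · rw [h] at hs; simp at hs; linarith
  · have := congrArg Complex.re h
    simp at this
    linarith

theorem Qf_bound {H : ℂ → ℂ} {κ : ℂ} (hH : DifferentiableOn ℂ H {s : ℂ | 1 / 2 < s.re})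
    (hκ : H 1 = κ)
    (hb : ∀ ε : ℝ, 0 < ε → ∃ C : ℝ, ∀ s : ℂ, 1 / 2 + ε ≤ s.re →
      ‖H s‖ ≤ C * ‖s‖ * (2 + ‖s‖) ^ ε) {ε : ℝ} (hε : 0 < ε) :
    ∃ C : ℝ, 0 ≤ C ∧ ∀ s : ℂ, 1 / 2 + ε ≤ s.re → ‖Qf H κ s‖ ≤ C * (2 + ‖s‖) ^ (ε - 2) := by
  obtain ⟨C, hC0, hC⟩ := Rg_bound hH hκ hb hε
  refine ⟨25 * C, by positivity, fun s hs => ?_⟩
  have h1 := norm_ge_half (s := s) (by linarith)
  have h2 := norm_le_norm_add_one (s := s) (by linarith)
  have hpos : 0 < 2 + ‖s‖ := by positivity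
  unfold Qf
  have hs0 : 0 < ‖s‖ := by linarith [norm_nonneg s]
  rw [norm_div, norm_mul, div_le_iff₀ (mul_pos hs0 (lt_of_lt_of_le hs0 h2))]
  have h3 : ((2 + ‖s‖) / 5) * ((2 + ‖s‖) / 5) ≤ ‖s‖ * ‖s + 1‖ :=
    mul_le_mul h1 (h1.trans h2) (by positivity) (norm_nonneg _)
  have h4 : (2 + ‖s‖) ^ ε = (2 + ‖s‖) ^ (ε - 2) * ((2 + ‖s‖) * (2 + ‖s‖)) := by
    rw [← pow_two, ← Real.rpow_natCast, ← Real.rpow_add hpos]
    congr 1
    push_cast
    ring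
  calc ‖Rg H κ s‖ ≤ C * (2 + ‖s‖) ^ ε := hC s hs
    _ = 25 * C * (2 + ‖s‖) ^ (ε - 2) * (((2 + ‖s‖) / 5) * ((2 + ‖s‖) / 5)) := by
        rw [h4]; ring
    _ ≤ _ := by
        apply mul_le_mul_of_nonneg_left h3
        positivity

theorem one_add_im_le {s : ℂ} : 1 + |s.im| ≤ 2 + ‖s‖ := by
  linarith [Complex.abs_im_le_norm s]

theorem Qf_bound' {H : ℂ → ℂ} {κ : ℂ} (hH : DifferentiableOn ℂ H {s : ℂ | 1 / 2 < s.re})
    (hκ : H 1 = κ)
    (hb : ∀ ε : ℝ, 0 < ε → ∃ C : ℝ, ∀ s : ℂ, 1 / 2 + ε ≤ s.re →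
      ‖H s‖ ≤ C * ‖s‖ * (2 + ‖s‖) ^ ε) {ε : ℝ} (hε : 0 < ε) (hε2 : ε ≤ 1 / 2) :
    ∃ C : ℝ, 0 ≤ C ∧ ∀ s : ℂ, 1 / 2 + ε ≤ s.re → ‖Qf H κ s‖ ≤ C * (1 + |s.im|) ^ (-(3 / 2 : ℝ)) := by
  obtain ⟨C, hC0, hC⟩ := Qf_bound hH hκ hb hε
  refine ⟨C, hC0, fun s hs => (hC s hs).trans ?_⟩
  apply mul_le_mul_of_nonneg_left _ hC0
  calc (2 + ‖s‖) ^ (ε - 2) ≤ (1 + |s.im|) ^ (ε - 2) :=
        Real.rpow_le_rpow_of_nonpos (by positivity) one_add_im_le (by linarith)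
    _ ≤ _ := by
        apply Real.rpow_le_rpow_of_exponent_le
        · linarith [abs_nonneg s.im]
        · linarith

/-- Perron's formula on the shifted line. -/
theorem Aint_formula {p : ℕ → ℝ} (hp : ∀ j, 2 ≤ p j)
    (hV : ∀ τ : ℝ, 1 < τ → Summable fun j => p j ^ (-τ)) {H : ℂ → ℂ} {κ : ℝ}
    (hH : DifferentiableOn ℂ H {s : ℂ | 1 / 2 < s.re}) (hκ : H 1 = κ)
    (hz : ∀ s : ℂ, 1 < s.re → (s - 1) * zetaB p s = H s)
    (hb : ∀ ε : ℝ, 0 < ε → ∃ C : ℝ, ∀ s : ℂ, 1 / 2 + ε ≤ s.re →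
      ‖H s‖ ≤ C * ‖s‖ * (2 + ‖s‖) ^ ε) {ε : ℝ} (hε : 0 < ε) (hε2 : ε ≤ 1 / 2)
    {x : ℝ} (hx : 1 ≤ x) :
    (((Aint p x - κ * ((x ^ 2 - 1) / 2) : ℝ)) : ℂ) = ((1 / (2 * Real.pi) : ℝ) : ℂ) * ∫ y : ℝ,
      (x : ℂ) ^ ((((1 / 2 + ε : ℝ) : ℂ) + y * Complex.I) + 1) *
        Qf H κ (((1 / 2 + ε : ℝ) : ℂ) + y * Complex.I) := by
  have hx0 : 0 < x := by linarith
  have hxne : (x : ℂ) ≠ 0 := by exact_mod_cast hx0.ne'
  obtain ⟨C, hC0, hC⟩ := Qf_bound' hH hκ hb hε hε2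
  set G : ℂ → ℂ := fun s => (x : ℂ) ^ (s + 1) * Qf H κ s with hG
  have hGd : DifferentiableOn ℂ G {s : ℂ | 1 / 2 < s.re} := by
    apply DifferentiableOn.mul _ (Qf_diff hH)
    intro s _
    have : DifferentiableAt ℂ (fun s : ℂ => (x : ℂ) ^ (s + 1)) s :=
      (differentiableAt_id.add_const 1).const_cpow (Or.inl hxne)
    exact this.differentiableWithinAt
  have hGb : ∀ s : ℂ, 1 / 2 + ε ≤ s.re → s.re ≤ 2 →
      ‖G s‖ ≤ (x ^ (3 : ℝ) * C) * (1 + |s.im|) ^ (-(3 / 2 : ℝ)) := by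
    intro s h1 h2
    rw [hG]
    simp only
    rw [norm_mul, Complex.norm_cpow_eq_rpow_re_of_pos hx0, mul_assoc]
    apply mul_le_mul _ (hC s h1) (norm_nonneg _) (by positivity)
    apply Real.rpow_le_rpow_of_exponent_le hx
    simp
    linarith
  have hshift := contour_shift (σ₀ := 1 / 2 + ε) (c := 2) (by linarith) (by linarith)
    (by norm_num : (1 : ℝ) < 3 / 2) hGd hGb
  have hGi : Integrable fun y : ℝ => G (((2 : ℝ) : ℂ) + y * Complex.I) := by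
    apply integrable_of_le_japanese (C := x ^ (3 : ℝ) * C) (r := 3 / 2)
      (continuous_vertical hGd (by norm_num)).aestronglyMeasurable (by norm_num)
    intro y
    have := hGb (((2 : ℝ) : ℂ) + y * Complex.I) (by simp; linarith) (by simp)
    simpa using this
  -- the main term
  have hne : ∀ y : ℝ, (((2 : ℝ) : ℂ) + y * Complex.I - 1) ≠ 0 := by
    intro y h
    have := congrArg Complex.re h
    simp at this
    linarith
  have hne1 : ∀ y : ℝ, (((2 : ℝ) : ℂ) + y * Complex.I + 1) ≠ 0 := by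
    intro y h
    have := congrArg Complex.re h
    simp at this
    linarith
  have hne0 : ∀ y : ℝ, (((2 : ℝ) : ℂ) + y * Complex.I) ≠ 0 := by
    intro y h
    have := congrArg Complex.re h
    simp at this
  have hmi : Integrable fun y : ℝ => (x : ℂ) ^ (((2 : ℝ) : ℂ) + y * Complex.I) *
      (1 / (((((2 : ℝ) : ℂ) + y * Complex.I) - 1) * (((2 : ℝ) : ℂ) + y * Complex.I + 1))) := by
    apply integrable_of_le_japanese (C := x ^ (2 : ℝ) * 16) (r := 2) _ one_lt_two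
    · intro y
      have hy : 0 < 1 + |y| := by positivity
      have h1 := norm_ge_one_add (c := 2 - 1) (by norm_num) y
      have h2 := norm_ge_one_add (c := 2 + 1) (by norm_num) y
      rw [norm_mul, norm_div, norm_one, norm_mul, Complex.norm_cpow_eq_rpow_re_of_pos hx0]
      have h3 : (((2 + 1 : ℝ) : ℂ) + y * Complex.I) = ((2 : ℝ) : ℂ) + y * Complex.I + 1 := by
        push_cast; ring
      have h3' : (((2 - 1 : ℝ) : ℂ) + y * Complex.I) = ((2 : ℝ) : ℂ) + y * Complex.I - 1 := by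
        push_cast; ring
      rw [h3] at h2
      rw [h3'] at h1
      have hre : ((((2 : ℝ) : ℂ) + y * Complex.I)).re = 2 := by simp
      rw [hre, mul_assoc]
      apply mul_le_mul_of_nonneg_left _ (by positivity)
      rw [Real.rpow_neg hy.le, div_le_iff₀ (mul_pos (by linarith) (by linarith))]
      have h4 := mul_le_mul h1 h2 (by positivity) (norm_nonneg _)
      have h5 : (1 + |y|) ^ (2 : ℝ) = (1 + |y|) * (1 + |y|) := by
        rw [show (2 : ℝ) = ((2 : ℕ) : ℝ) by norm_num, Real.rpow_natCast]; ring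
      rw [h5]
      calc (1 : ℝ) = 16 * ((1 + |y|) * (1 + |y|))⁻¹ * (((1 + |y|) / 4) * ((1 + |y|) / 4)) := by
            field_simp; norm_num
        _ ≤ _ := mul_le_mul_of_nonneg_left h4 (by positivity)
    · apply Continuous.aestronglyMeasurable
      apply Continuous.mul
      · exact Continuous.const_cpow (by fun_prop) (Or.inl hxne)
      · apply Continuous.div continuous_const (by fun_prop)
        intro y
        exact mul_ne_zero (hne y) (hne1 y)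
  have hA := zetaB_two p hp hV hx0
  have hP := perron2 (c := 2) (by norm_num) hx
  have hsplit : ∀ y : ℝ, (x : ℂ) ^ ((2 : ℝ) + y * Complex.I + 1 : ℂ) *
      (zetaB p ((2 : ℝ) + y * Complex.I) *
        (1 / (((2 : ℝ) + y * Complex.I : ℂ) * ((2 : ℝ) + y * Complex.I + 1)))) =
      G (((2 : ℝ) : ℂ) + y * Complex.I) + (κ : ℂ) * x * ((x : ℂ) ^ (((2 : ℝ) : ℂ) + y * Complex.I) *
      (1 / (((((2 : ℝ) : ℂ) + y * Complex.I) - 1) * (((2 : ℝ) : ℂ) + y * Complex.I + 1)))) := by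
    intro y
    have hz' := hz (((2 : ℝ) : ℂ) + y * Complex.I) (by simp)
    have hs1 : (((2 : ℝ) : ℂ) + y * Complex.I) ≠ 1 := fun h => hne y (by rw [h]; ring)
    rw [hG]
    simp only
    unfold Qf
    rw [Rg_eq hκ hs1, ← hz', Complex.cpow_add _ 1 hxne, Complex.cpow_one]
    have a1 := hne y
    have a2 := hne1 y
    have a3 := hne0 y
    generalize (((2 : ℝ) : ℂ) + y * Complex.I) = s at *
    field_simp
    ring
  simp_rw [hsplit] at hA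
  rw [integral_add hGi (hmi.const_mul _), integral_const_mul, mul_add] at hA
  have hP' : ((1 / (2 * Real.pi) : ℝ) : ℂ) * ((κ : ℂ) * x * ∫ y : ℝ,
      (x : ℂ) ^ (((2 : ℝ) : ℂ) + y * Complex.I) *
      (1 / (((((2 : ℝ) : ℂ) + y * Complex.I) - 1) * (((2 : ℝ) : ℂ) + y * Complex.I + 1)))) =
      ((κ * ((x ^ 2 - 1) / 2) : ℝ) : ℂ) := by
    rw [mul_left_comm, hP, ← Complex.ofReal_mul, ← Complex.ofReal_mul]
    congr 1
    field_simp
  rw [hP'] at hA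
  rw [Complex.ofReal_sub, hA, add_sub_cancel_right]
  congr 1
  exact hshift.symm

end Pool.Agent.H521
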