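import Pool.Agent.H521.Count2

open MeasureTheory Set Filter Topology
open scoped ENNReal NNReal

namespace Pool.Agent.H521

/-- difference bound for `u ↦ u^{s+1}` -/
theorem norm_cpow_diff_le {x : ℝ} (hx : 1 ≤ x) {s : ℂ} (hs : 0 ≤ s.re) {θ : ℝ} (hθ : 0 ≤ θ)
    (hθ1 : θ ≤ 1) :
    ‖((x + 1 : ℝ) : ℂ) ^ (s + 1) - (x : ℂ) ^ (s + 1)‖ ≤
      2 * (2 + ‖s‖) ^ (1 - θ) * (x + 1) ^ (s.re + θ) := by
  have hx0 : 0 < x := by linarith
  have hX0 : 0 < x + 1 := by linarith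
  set D := ‖((x + 1 : ℝ) : ℂ) ^ (s + 1) - (x : ℂ) ^ (s + 1)‖ with hD
  have hD0 : 0 ≤ D := norm_nonneg _
  have hA : D ≤ (2 + ‖s‖) * (x + 1) ^ s.re := by
    have hder : ∀ u ∈ Icc x (x + 1), HasDerivWithinAt (fun u : ℝ => ((u : ℂ) ^ (s + 1)))
        ((s + 1) * (u : ℂ) ^ s) (Icc x (x + 1)) u := by
      intro u hu
      have hu0 : 0 < u := lt_of_lt_of_le hx0 hu.1
      have h1 : HasDerivAt (fun z : ℂ => z ^ (s + 1)) ((s + 1) * (u : ℂ) ^ (s + 1 - 1)) (u : ℂ) := by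
        have := (hasDerivAt_id (u : ℂ)).cpow_const (c := s + 1) (by
          simp only [id]; exact Or.inl (by simpa using hu0))
        simpa using this
      rw [add_sub_cancel_right] at h1
      exact h1.comp_ofReal.hasDerivWithinAt
    have hb : ∀ u ∈ Ico x (x + 1), ‖(s + 1) * (u : ℂ) ^ s‖ ≤ (2 + ‖s‖) * (x + 1) ^ s.re := by
      intro u hu
      have hu0 : 0 < u := lt_of_lt_of_le hx0 hu.1
      rw [norm_mul, Complex.norm_cpow_eq_rpow_re_of_pos hu0]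
      apply mul_le_mul
      · have := norm_add_le s 1
        rw [norm_one] at this
        linarith
      · exact Real.rpow_le_rpow hu0.le hu.2.le hs
      · positivity
      · positivity
    have := norm_image_sub_le_of_norm_deriv_le_segment' hder hb (x + 1)
      ⟨by linarith, le_rfl⟩
    simp only [add_sub_cancel_left, mul_one] at this
    exact this
  have hB : D ≤ 2 * (x + 1) ^ (s.re + 1) := by
    refine (norm_sub_le _ _).trans ?_
    rw [Complex.norm_cpow_eq_rpow_re_of_pos hX0, Complex.norm_cpow_eq_rpow_re_of_pos hx0]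
    simp only [Complex.add_re, Complex.one_re]
    have : x ^ (s.re + 1) ≤ (x + 1) ^ (s.re + 1) :=
      Real.rpow_le_rpow hx0.le (by linarith) (by linarith)
    linarith
  rcases eq_or_lt_of_le hD0 with h0 | h0
  · rw [← h0]; positivity
  calc D = D ^ (1 - θ) * D ^ θ := by
        rw [← Real.rpow_add h0]; simp
    _ ≤ ((2 + ‖s‖) * (x + 1) ^ s.re) ^ (1 - θ) * (2 * (x + 1) ^ (s.re + 1)) ^ θ := by
        apply mul_le_mul
        · exact Real.rpow_le_rpow hD0 hA (by linarith)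
        · exact Real.rpow_le_rpow hD0 hB hθ
        · positivity
        · positivity
    _ = 2 ^ θ * (2 + ‖s‖) ^ (1 - θ) * (x + 1) ^ (s.re + θ) := by
        rw [Real.mul_rpow (by positivity) (by positivity), Real.mul_rpow (by positivity)
          (by positivity), ← Real.rpow_mul hX0.le, ← Real.rpow_mul hX0.le]
        have : (x + 1) ^ (s.re + θ) = (x + 1) ^ (s.re * (1 - θ)) * (x + 1) ^ ((s.re + 1) * θ) := by
          rw [← Real.rpow_add hX0]
          congr 1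
          ring
        rw [this]
        ring
    _ ≤ 2 * (2 + ‖s‖) ^ (1 - θ) * (x + 1) ^ (s.re + θ) := by
        have h2 : (2 : ℝ) ^ θ ≤ 2 := by
          calc (2 : ℝ) ^ θ ≤ 2 ^ (1 : ℝ) :=
                Real.rpow_le_rpow_of_exponent_le one_le_two hθ1
            _ = 2 := Real.rpow_one 2
        gcongr

theorem Aint_diff {p : ℕ → ℝ} (hp : ∀ j, 2 ≤ p j)
    (hV : ∀ τ : ℝ, 1 < τ → Summable fun j => p j ^ (-τ)) {H : ℂ → ℂ} {κ : ℝ}
    (hH : DifferentiableOn ℂ H {s : ℂ | 1 / 2 < s.re}) (hκ : H 1 = κ)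
    (hz : ∀ s : ℂ, 1 < s.re → (s - 1) * zetaB p s = H s)
    (hb : ∀ ε : ℝ, 0 < ε → ∃ C : ℝ, ∀ s : ℂ, 1 / 2 + ε ≤ s.re →
      ‖H s‖ ≤ C * ‖s‖ * (2 + ‖s‖) ^ ε) {ε : ℝ} (hε : 0 < ε) (hε2 : ε ≤ 1 / 2) :
    ∃ C : ℝ, 0 ≤ C ∧ ∀ x : ℝ, 1 ≤ x →
      |Aint p (x + 1) - Aint p x - κ * (x + 1 / 2)| ≤ C * (x + 1) ^ (1 / 2 + 3 * ε) := by
  obtain ⟨C, hC0, hC⟩ := Qf_bound hH hκ hb hε
  obtain ⟨C', hC'0, hC'⟩ := Qf_bound' hH hκ hb hε hε2
  set J : ℝ := ∫ y : ℝ, (1 + ‖y‖) ^ (-(1 + ε)) with hJ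
  have hJi : Integrable fun y : ℝ => (1 + ‖y‖) ^ (-(1 + ε)) :=
    integrable_one_add_norm (by simp; linarith)
  have hJ0 : 0 ≤ J := integral_nonneg fun y => by positivity
  refine ⟨2 * C * J, by positivity, fun x hx => ?_⟩
  have hx0 : 0 < x := by linarith
  have hX0 : 0 < x + 1 := by linarith
  have f1 := Aint_formula hp hV hH hκ hz hb hε hε2 hx
  have f2 := Aint_formula hp hV hH hκ hz hb hε hε2 (x := x + 1) (by linarith)
  set σ₀ : ℝ := 1 / 2 + ε with hσ₀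
  have hGi : ∀ z : ℝ, 1 ≤ z → Integrable fun y : ℝ =>
      (z : ℂ) ^ (((σ₀ : ℂ) + y * Complex.I) + 1) * Qf H κ ((σ₀ : ℂ) + y * Complex.I) := by
    intro z hz1
    have hz0 : 0 < z := by linarith
    apply integrable_of_le_japanese (C := z ^ (σ₀ + 1) * C') (r := 3 / 2) _ (by norm_num)
    · intro y
      have h1 := hC' ((σ₀ : ℂ) + y * Complex.I) (by simp [hσ₀])
      rw [norm_mul, Complex.norm_cpow_eq_rpow_re_of_pos hz0, mul_assoc]
      have hre : ((σ₀ : ℂ) + y * Complex.I + 1).re = σ₀ + 1 := by simp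
      rw [hre]
      apply mul_le_mul_of_nonneg_left _ (by positivity)
      simpa using h1
    · apply Continuous.aestronglyMeasurable
      apply Continuous.mul
      · exact Continuous.const_cpow (by fun_prop) (Or.inl (by exact_mod_cast hz0.ne'))
      · exact continuous_vertical (Qf_diff hH) (by rw [hσ₀]; linarith)
  have hdiff : (((Aint p (x + 1) - Aint p x - κ * (x + 1 / 2) : ℝ)) : ℂ) =
      ((1 / (2 * Real.pi) : ℝ) : ℂ) * ∫ y : ℝ,
        (((x + 1 : ℝ) : ℂ) ^ (((σ₀ : ℂ) + y * Complex.I) + 1) -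
          (x : ℂ) ^ (((σ₀ : ℂ) + y * Complex.I) + 1)) * Qf H κ ((σ₀ : ℂ) + y * Complex.I) := by
    simp_rw [sub_mul]
    rw [integral_sub (hGi (x + 1) (by linarith)) (hGi x hx), mul_sub, ← f1, ← f2,
      ← Complex.ofReal_sub]
    congr 1
    ring
  have hnorm : |Aint p (x + 1) - Aint p x - κ * (x + 1 / 2)| =
      ‖(((Aint p (x + 1) - Aint p x - κ * (x + 1 / 2) : ℝ)) : ℂ)‖ := by
    rw [Complex.norm_real, Real.norm_eq_abs]
  rw [hnorm, hdiff, norm_mul]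
  have hbound : ‖∫ y : ℝ, (((x + 1 : ℝ) : ℂ) ^ (((σ₀ : ℂ) + y * Complex.I) + 1) -
          (x : ℂ) ^ (((σ₀ : ℂ) + y * Complex.I) + 1)) * Qf H κ ((σ₀ : ℂ) + y * Complex.I)‖ ≤
      ∫ y : ℝ, (2 * C * (x + 1) ^ (1 / 2 + 3 * ε)) * (1 + ‖y‖) ^ (-(1 + ε)) := by
    apply norm_integral_le_of_norm_le (hJi.const_mul _)
    refine Eventually.of_forall fun y => ?_
    set s : ℂ := (σ₀ : ℂ) + y * Complex.I with hs
    have hre : s.re = σ₀ := by simp [hs]
    have him : s.im = y := by simp [hs]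
    have h1 := norm_cpow_diff_le hx (s := s) (by rw [hre, hσ₀]; linarith) (θ := 2 * ε)
      (by linarith) (by linarith)
    have h2 := hC s (by rw [hre])
    have hpos : 0 < 2 + ‖s‖ := by positivity
    rw [norm_mul]
    calc _ ≤ (2 * (2 + ‖s‖) ^ (1 - 2 * ε) * (x + 1) ^ (s.re + 2 * ε)) *
          (C * (2 + ‖s‖) ^ (ε - 2)) := mul_le_mul h1 h2 (norm_nonneg _) (by positivity)
      _ = 2 * C * (x + 1) ^ (1 / 2 + 3 * ε) * (2 + ‖s‖) ^ (-(1 + ε)) := by
          have e1 : (2 + ‖s‖) ^ (-(1 + ε)) = (2 + ‖s‖) ^ (1 - 2 * ε) * (2 + ‖s‖) ^ (ε - 2) := by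
            rw [← Real.rpow_add hpos]
            congr 1
            ring
          have e2 : s.re + 2 * ε = 1 / 2 + 3 * ε := by rw [hre, hσ₀]; ring
          rw [e1, e2]
          ring
      _ ≤ _ := by
          apply mul_le_mul_of_nonneg_left _ (by positivity)
          apply Real.rpow_le_rpow_of_nonpos (by positivity) _ (by linarith)
          have := one_add_im_le (s := s)
          rw [him] at this
          exact this
  rw [integral_const_mul] at hbound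
  have hpi : ‖((1 / (2 * Real.pi) : ℝ) : ℂ)‖ ≤ 1 := by
    rw [Complex.norm_real, Real.norm_eq_abs, abs_of_pos (by positivity)]
    rw [div_le_one (by positivity)]
    linarith [Real.pi_gt_three]
  calc _ ≤ 1 * ‖∫ y : ℝ, (((x + 1 : ℝ) : ℂ) ^ (((σ₀ : ℂ) + y * Complex.I) + 1) -
          (x : ℂ) ^ (((σ₀ : ℂ) + y * Complex.I) + 1)) * Qf H κ ((σ₀ : ℂ) + y * Complex.I)‖ :=
        mul_le_mul_of_nonneg_right hpi (norm_nonneg _)
    _ ≤ 2 * C * (x + 1) ^ (1 / 2 + 3 * ε) * J := by rw [one_mul]; exact hbound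
    _ = _ := by ring

/-- The counting theorem: `N(x) = κ x + O(x^{1/2+δ})`. -/
theorem count_asymp {p : ℕ → ℝ} (hp : ∀ j, 2 ≤ p j)
    (hV : ∀ τ : ℝ, 1 < τ → Summable fun j => p j ^ (-τ)) {H : ℂ → ℂ} {κ : ℝ}
    (hH : DifferentiableOn ℂ H {s : ℂ | 1 / 2 < s.re}) (hκ : H 1 = κ)
    (hz : ∀ s : ℂ, 1 < s.re → (s - 1) * zetaB p s = H s)
    (hb : ∀ ε : ℝ, 0 < ε → ∃ C : ℝ, ∀ s : ℂ, 1 / 2 + ε ≤ s.re →
      ‖H s‖ ≤ C * ‖s‖ * (2 + ‖s‖) ^ ε) {δ : ℝ} (hδ : 0 < δ) :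
    ∃ C : ℝ, ∀ x : ℝ, 1 ≤ x → |(countInt p x : ℝ) - κ * x| ≤ C * x ^ (1 / 2 + δ) := by
  set ε : ℝ := min (δ / 3) (1 / 2) with hε
  have hε0 : 0 < ε := by rw [hε]; positivity
  have hε1 : ε ≤ 1 / 2 := min_le_right _ _
  have hε2 : 3 * ε ≤ δ := by
    have := min_le_left (δ / 3) (1 / 2)
    rw [← hε] at this
    linarith
  obtain ⟨C, hC0, hC⟩ := Aint_diff hp hV hH hκ hz hb hε0 hε1
  -- x + 1 ≤ 2 x
  have hpow : ∀ x : ℝ, 1 ≤ x → (x + 1) ^ (1 / 2 + 3 * ε) ≤ 4 * x ^ (1 / 2 + δ) := by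
    intro x hx
    calc (x + 1) ^ (1 / 2 + 3 * ε) ≤ (2 * x) ^ (1 / 2 + 3 * ε) :=
          Real.rpow_le_rpow (by linarith) (by linarith) (by positivity)
      _ = 2 ^ (1 / 2 + 3 * ε) * x ^ (1 / 2 + 3 * ε) := Real.mul_rpow (by norm_num) (by linarith)
      _ ≤ 2 ^ (2 : ℝ) * x ^ (1 / 2 + δ) := by
          apply mul_le_mul
          · exact Real.rpow_le_rpow_of_exponent_le one_le_two (by linarith)
          · exact Real.rpow_le_rpow_of_exponent_le hx (by linarith)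
          · positivity
          · positivity
      _ = _ := by norm_num
  have hone : ∀ x : ℝ, 1 ≤ x → 1 ≤ x ^ (1 / 2 + δ) := fun x hx =>
    Real.one_le_rpow hx (by positivity)
  refine ⟨4 * C + 2 * |κ|, fun x hx => ?_⟩
  have h1 := hone x hx
  have hκ0 : 0 ≤ |κ| := abs_nonneg κ
  have hup : (countInt p x : ℝ) - κ * x ≤ (4 * C + 2 * |κ|) * x ^ (1 / 2 + δ) := by
    have h2 := count_le_Aint p hp hV x
    have h3 := (abs_le.1 (hC x hx)).2
    have h4 := hpow x hx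
    have h5 : C * (x + 1) ^ (1 / 2 + 3 * ε) ≤ C * (4 * x ^ (1 / 2 + δ)) :=
      mul_le_mul_of_nonneg_left h4 hC0
    have h6 := le_abs_self κ
    nlinarith
  have hlo : -((4 * C + 2 * |κ|) * x ^ (1 / 2 + δ)) ≤ (countInt p x : ℝ) - κ * x := by
    rcases le_or_gt x 2 with hx2 | hx2
    · have h2 : (0 : ℝ) ≤ countInt p x := Nat.cast_nonneg _
      have h3 : κ * x ≤ 2 * |κ| := by
        have := le_abs_self κ
        nlinarith
      have h4 : 2 * |κ| * 1 ≤ 2 * |κ| * x ^ (1 / 2 + δ) :=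
        mul_le_mul_of_nonneg_left h1 (by positivity)
      have h5 : 0 ≤ 4 * C * x ^ (1 / 2 + δ) := by positivity
      nlinarith
    · have h2 := Aint_le_count p hp hV (x - 1)
      have h3 := (abs_le.1 (hC (x - 1) (by linarith))).1
      rw [sub_add_cancel] at h2 h3
      have h4 : x ^ (1 / 2 + 3 * ε) ≤ 4 * x ^ (1 / 2 + δ) :=
        le_trans (Real.rpow_le_rpow (by linarith) (by linarith) (by positivity)) (hpow x hx)
      have h5 : C * x ^ (1 / 2 + 3 * ε) ≤ C * (4 * x ^ (1 / 2 + δ)) :=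
        mul_le_mul_of_nonneg_left h4 hC0
      have h6 := le_abs_self κ
      have h7 := neg_abs_le κ
      nlinarith
  exact abs_le.2 ⟨hlo, hup⟩

end Pool.Agent.H521
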