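import Pool.Agent.H521.Template

open MeasureTheory Set Filter Topology
open scoped ENNReal NNReal ComplexConjugate

namespace Pool.Agent.H521

/-- The oscillating sum attached to the prescribed zeros. -/
noncomputable def osc (Z : Multiset ℂ) (u : ℝ) : ℝ := (Z.map fun ρ => ((u : ℂ) ^ (ρ - 1)).re).sum

/-- The template density. -/
noncomputable def fZ (Z : Multiset ℂ) (u : ℝ) : ℝ := Wf u * (1 - osc Z u)

theorem osc_zero (u : ℝ) : osc 0 u = 0 := by simp [osc]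

theorem osc_cons (ρ : ℂ) (Z : Multiset ℂ) (u : ℝ) :
    osc (ρ ::ₘ Z) u = ((u : ℂ) ^ (ρ - 1)).re + osc Z u := by simp [osc]

theorem measurable_osc (Z : Multiset ℂ) : Measurable (osc Z) := by
  induction Z using Multiset.induction_on with
  | empty => simp_rw [show osc 0 = fun _ => 0 from funext osc_zero]; exact measurable_const
  | cons ρ Z ih =>
    simp_rw [show osc (ρ ::ₘ Z) = fun u : ℝ => ((u : ℂ) ^ (ρ - 1)).re + osc Z u from
      funext (osc_cons ρ Z)]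
    exact (Complex.measurable_re.comp (by fun_prop)).add ih

theorem continuousOn_osc (Z : Multiset ℂ) : ContinuousOn (osc Z) (Ioi 0) := by
  induction Z using Multiset.induction_on with
  | empty => simp_rw [show osc 0 = fun _ => 0 from funext osc_zero]; exact continuousOn_const
  | cons ρ Z ih =>
    simp_rw [show osc (ρ ::ₘ Z) = fun u : ℝ => ((u : ℂ) ^ (ρ - 1)).re + osc Z u from
      funext (osc_cons ρ Z)]
    refine ContinuousOn.add ?_ ih
    intro u hu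
    apply ContinuousAt.continuousWithinAt
    apply Complex.continuous_re.continuousAt.comp
    apply ContinuousAt.cpow (by fun_prop) continuousAt_const
    exact Complex.ofReal_mem_slitPlane.2 hu

theorem tendsto_osc {Z : Multiset ℂ} (hZ : ∀ ρ ∈ Z, ρ.re < 1) : Tendsto (osc Z) atTop (𝓝 0) := by
  induction Z using Multiset.induction_on with
  | empty => simp_rw [show osc 0 = fun _ => 0 from funext osc_zero]; exact tendsto_const_nhds
  | cons ρ Z ih =>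
    simp_rw [show osc (ρ ::ₘ Z) = fun u : ℝ => ((u : ℂ) ^ (ρ - 1)).re + osc Z u from
      funext (osc_cons ρ Z)]
    have h1 : Tendsto (fun u : ℝ => ((u : ℂ) ^ (ρ - 1)).re) atTop (𝓝 0) := by
      have h2 : Tendsto (fun u : ℝ => u ^ (-(1 - ρ.re))) atTop (𝓝 0) :=
        tendsto_rpow_neg_atTop (by linarith [hZ ρ (Multiset.mem_cons_self ρ Z)])
      refine squeeze_zero_norm' ?_ h2
      filter_upwards [eventually_gt_atTop 0] with u hu
      rw [Real.norm_eq_abs]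
      refine (Complex.abs_re_le_norm _).trans ?_
      rw [Complex.norm_cpow_eq_rpow_re_of_pos hu]
      simp
    have := h1.add (ih fun ρ' h => hZ ρ' (Multiset.mem_cons_of_mem h))
    simpa using this

theorem abs_osc_le {Z : Multiset ℂ} (hZ : ∀ ρ ∈ Z, ρ.re < 1) {u : ℝ} (hu : 1 ≤ u) :
    |osc Z u| ≤ Multiset.card Z := by
  induction Z using Multiset.induction_on with
  | empty => simp [osc_zero]
  | cons ρ Z ih =>
    rw [osc_cons, Multiset.card_cons]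
    push_cast
    have h1 : |((u : ℂ) ^ (ρ - 1)).re| ≤ 1 := by
      refine (Complex.abs_re_le_norm _).trans ?_
      rw [Complex.norm_cpow_eq_rpow_re_of_pos (by linarith)]
      apply Real.rpow_le_one_of_one_le_of_nonpos hu
      have := hZ ρ (Multiset.mem_cons_self ρ Z)
      simp; linarith
    have h2 := ih fun ρ' h => hZ ρ' (Multiset.mem_cons_of_mem h)
    have := abs_add_le (((u : ℂ) ^ (ρ - 1)).re) (osc Z u)
    linarith

theorem measurable_fZ (Z : Multiset ℂ) : Measurable (fZ Z) :=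
  measurable_Wf.mul (measurable_const.sub (measurable_osc Z))

theorem continuousOn_fZ (Z : Multiset ℂ) : ContinuousOn (fZ Z) (Ioi 1) :=
  continuousOn_Wf.mul (continuousOn_const.sub ((continuousOn_osc Z).mono
    (Ioi_subset_Ioi zero_le_one)))

/-- the antiderivative -/
noncomputable def Alog (s ρ : ℂ) : ℂ := Complex.log (s - ρ + 1) - Complex.log (s - ρ)

theorem int_one {ρ s : ℂ} (h : ρ.re < s.re) :
    IntegrableOn (fun u : ℝ => (Wf u : ℂ) * (u : ℂ) ^ (ρ - 1) * (u : ℂ) ^ (-s)) (Ioi 1) ∧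
    ∫ u in Ioi (1 : ℝ), (Wf u : ℂ) * (u : ℂ) ^ (ρ - 1) * (u : ℂ) ^ (-s) = Alog s ρ := by
  have hw : 0 < (s - ρ).re := by simp; linarith
  have hcongr : EqOn (fun u : ℝ => (Wf u : ℂ) * (u : ℂ) ^ (-1 - (s - ρ)))
      (fun u : ℝ => (Wf u : ℂ) * (u : ℂ) ^ (ρ - 1) * (u : ℂ) ^ (-s)) (Ioi 1) := by
    intro u hu
    have hu1 : (1 : ℝ) < u := hu
    have hune : (u : ℂ) ≠ 0 := by exact_mod_cast (by linarith : u ≠ 0)
    simp only
    rw [mul_assoc, ← Complex.cpow_add _ _ hune]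
    ring_nf
  constructor
  · exact (integrableOn_Wf_cpow hw).congr_fun hcongr measurableSet_Ioi
  · rw [← setIntegral_congr_fun measurableSet_Ioi hcongr, integral_Wf_cpow hw]
    rfl

theorem conj_cpow_ofReal {u : ℝ} (hu : 0 < u) (ρ : ℂ) :
    (u : ℂ) ^ (conj ρ - 1) = conj ((u : ℂ) ^ (ρ - 1)) := by
  have h := Complex.cpow_conj (u : ℂ) (ρ - 1) (by
    rw [Complex.arg_ofReal_of_nonneg hu.le]; exact Real.pi_ne_zero.symm)
  rw [Complex.conj_ofReal] at h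
  rw [← h]
  simp

theorem int_re {ρ s : ℂ} (h : ρ.re < s.re) :
    IntegrableOn (fun u : ℝ => (Wf u : ℂ) * ((((u : ℂ) ^ (ρ - 1)).re : ℝ) : ℂ) *
      (u : ℂ) ^ (-s)) (Ioi 1) ∧
    ∫ u in Ioi (1 : ℝ), (Wf u : ℂ) * ((((u : ℂ) ^ (ρ - 1)).re : ℝ) : ℂ) * (u : ℂ) ^ (-s) =
      (Alog s ρ + Alog s (conj ρ)) / 2 := by
  obtain ⟨i1, e1⟩ := int_one h
  obtain ⟨i2, e2⟩ := int_one (ρ := conj ρ) (s := s) (by simpa using h)
  have hcongr : EqOn (fun u : ℝ => ((Wf u : ℂ) * (u : ℂ) ^ (ρ - 1) * (u : ℂ) ^ (-s) +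
      (Wf u : ℂ) * (u : ℂ) ^ (conj ρ - 1) * (u : ℂ) ^ (-s)) / 2)
      (fun u : ℝ => (Wf u : ℂ) * ((((u : ℂ) ^ (ρ - 1)).re : ℝ) : ℂ) * (u : ℂ) ^ (-s))
      (Ioi 1) := by
    intro u hu
    have hu1 : (1 : ℝ) < u := hu
    simp only
    rw [conj_cpow_ofReal (by linarith), Complex.re_eq_add_conj]
    ring
  constructor
  · refine IntegrableOn.congr_fun ?_ hcongr measurableSet_Ioi
    exact (i1.add i2).div_const 2
  · rw [← setIntegral_congr_fun measurableSet_Ioi hcongr, integral_div, integral_add i1 i2, e1, e2]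

theorem int_osc {Z : Multiset ℂ} {s : ℂ} (hZ : ∀ ρ ∈ Z, ρ.re < s.re) :
    IntegrableOn (fun u : ℝ => (Wf u : ℂ) * (osc Z u : ℂ) * (u : ℂ) ^ (-s)) (Ioi 1) ∧
    ∫ u in Ioi (1 : ℝ), (Wf u : ℂ) * (osc Z u : ℂ) * (u : ℂ) ^ (-s) =
      (Z.map fun ρ => (Alog s ρ + Alog s (conj ρ)) / 2).sum := by
  induction Z using Multiset.induction_on with
  | empty => simp [osc_zero]
  | cons ρ Z ih =>
    obtain ⟨i1, e1⟩ := int_re (hZ ρ (Multiset.mem_cons_self ρ Z))
    obtain ⟨i2, e2⟩ := ih fun ρ' h => hZ ρ' (Multiset.mem_cons_of_mem h)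
    have hfun : (fun u : ℝ => (Wf u : ℂ) * (osc (ρ ::ₘ Z) u : ℂ) * (u : ℂ) ^ (-s)) =
        fun u : ℝ => (Wf u : ℂ) * ((((u : ℂ) ^ (ρ - 1)).re : ℝ) : ℂ) * (u : ℂ) ^ (-s) +
          (Wf u : ℂ) * (osc Z u : ℂ) * (u : ℂ) ^ (-s) := by
      ext u
      rw [osc_cons]
      push_cast
      ring
    rw [hfun]
    constructor
    · exact i1.add i2
    · rw [integral_add i1 i2, e1, e2]
      simp

theorem conj_sum {Z : Multiset ℂ} (hZc : Z.map conj = Z) (A : ℂ → ℂ) :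
    (Z.map fun ρ => (A ρ + A (conj ρ)) / 2).sum = (Z.map A).sum := by
  have h1 : (Z.map fun ρ => A (conj ρ)).sum = (Z.map A).sum := by
    conv_rhs => rw [← hZc]
    rw [Multiset.map_map]
    rfl
  have h2 : (Z.map fun ρ => (A ρ + A (conj ρ)) / 2).sum =
      ((Z.map A).sum + (Z.map fun ρ => A (conj ρ)).sum) / 2 := by
    rw [← Multiset.sum_map_add, Multiset.sum_map_div]
  rw [h2, h1]
  ring

theorem int_fZ {Z : Multiset ℂ} (hZ : ∀ ρ ∈ Z, ρ.re < 1) (hZc : Z.map conj = Z) {s : ℂ}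
    (hs : 1 < s.re) :
    IntegrableOn (fun u : ℝ => (fZ Z u : ℂ) * (u : ℂ) ^ (-s)) (Ioi 1) ∧
    ∫ u in Ioi (1 : ℝ), (fZ Z u : ℂ) * (u : ℂ) ^ (-s) = Alog s 1 - (Z.map (Alog s)).sum := by
  obtain ⟨i1, e1⟩ := int_one (ρ := 1) (s := s) (by simpa using hs)
  obtain ⟨i2, e2⟩ := int_osc (Z := Z) (s := s) (fun ρ h => by linarith [hZ ρ h])
  have hfun : (fun u : ℝ => (fZ Z u : ℂ) * (u : ℂ) ^ (-s)) =
      fun u : ℝ => (Wf u : ℂ) * (u : ℂ) ^ ((1 : ℂ) - 1) * (u : ℂ) ^ (-s) -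
          (Wf u : ℂ) * (osc Z u : ℂ) * (u : ℂ) ^ (-s) := by
    ext u
    unfold fZ
    rw [sub_self, Complex.cpow_zero]
    push_cast
    ring
  rw [hfun]
  constructor
  · exact i1.sub i2
  · rw [integral_sub i1 i2, e1, e2, conj_sum hZc]

theorem exists_x0 {Z : Multiset ℂ} (hZ : ∀ ρ ∈ Z, ρ.re < 1) :
    ∃ x₀ : ℝ, 3 ≤ x₀ ∧ (∀ u, x₀ ≤ u → 1 / 2 ≤ fZ Z u * Real.log u) ∧
      (∀ u, x₀ ≤ u → fZ Z u * Real.log u ≤ 2) ∧ (∀ u, x₀ ≤ u → 2 ≤ Real.log u) ∧
      (∀ u, x₀ ≤ u → 4 * Real.log u ≤ u) := by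
  have h1 : Tendsto (fun u : ℝ => (1 - 1 / u) * (1 - osc Z u)) atTop (𝓝 ((1 - 0) * (1 - 0))) := by
    apply Tendsto.mul
    · have : Tendsto (fun u : ℝ => 1 / u) atTop (𝓝 0) := by
        simpa using (tendsto_inv_atTop_zero (𝕜 := ℝ))
      exact this.const_sub 1
    · exact (tendsto_osc hZ).const_sub _
  have h2 : ∀ᶠ u : ℝ in atTop, 1 / 2 ≤ (1 - 1 / u) * (1 - osc Z u) :=
    h1.eventually_const_le (by norm_num)
  have h3 : ∀ᶠ u : ℝ in atTop, (1 - 1 / u) * (1 - osc Z u) ≤ 2 :=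
    h1.eventually_le_const (by norm_num)
  have h4 : ∀ᶠ u : ℝ in atTop, 2 ≤ Real.log u := Real.tendsto_log_atTop.eventually_ge_atTop 2
  have h5 : ∀ᶠ u : ℝ in atTop, 4 * Real.log u ≤ u := by
    have := Real.isLittleO_log_id_atTop.bound (c := 1 / 4) (by norm_num)
    filter_upwards [this, eventually_ge_atTop 1] with u hu hu1
    rw [Real.norm_eq_abs, abs_of_nonneg (Real.log_nonneg hu1)] at hu
    simp only [id, Real.norm_eq_abs, abs_of_nonneg (by linarith : 0 ≤ u)] at hu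
    linarith
  have hall := h2.and (h3.and (h4.and (h5.and (eventually_ge_atTop 3))))
  obtain ⟨x₀, hx₀⟩ := (eventually_atTop.1 hall)
  have hfl : ∀ u, x₀ ≤ u → fZ Z u * Real.log u = (1 - 1 / u) * (1 - osc Z u) := by
    intro u hu
    have hlog := (hx₀ u hu).2.2.1
    unfold fZ Wf
    field_simp
  refine ⟨x₀, (hx₀ x₀ le_rfl).2.2.2.2, fun u hu => ?_, fun u hu => ?_,
    fun u hu => (hx₀ u hu).2.2.1, fun u hu => (hx₀ u hu).2.2.2.1⟩
  · rw [hfl u hu]; exact (hx₀ u hu).1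
  · rw [hfl u hu]; exact (hx₀ u hu).2.1

end Pool.Agent.H521
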