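import Mathlib

open MeasureTheory Set Filter Topology
open scoped ENNReal NNReal

namespace Pool.Agent.H521

/-- One step of the method of conditional expectations. -/
theorem step_lintegral {Ω : Type*} [MeasurableSpace Ω] (ν : Measure Ω) [SFinite ν]
    (μ : Measure ℝ) [IsProbabilityMeasure μ] (A : Set ℝ) (hA : μ Aᶜ = 0)
    (Y : ℝ → Ω → ℝ≥0∞) (hY : Measurable (Function.uncurry Y))
    (hle : ∀ ω, ∫⁻ u, Y u ω ∂μ ≤ 1) (g : Ω → ℝ≥0∞) (hg : Measurable g) :
    ∃ u ∈ A, ∫⁻ ω, g ω * Y u ω ∂ν ≤ ∫⁻ ω, g ω ∂ν := by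
  have hm : Measurable (Function.uncurry fun (u : ℝ) (ω : Ω) => g ω * Y u ω) :=
    (hg.comp measurable_snd).mul hY
  have h1 : ∫⁻ u, ∫⁻ ω, g ω * Y u ω ∂ν ∂μ ≤ ∫⁻ ω, g ω ∂ν := by
    rw [lintegral_lintegral_swap hm.aemeasurable]
    apply lintegral_mono
    intro ω
    have : ∫⁻ u, g ω * Y u ω ∂μ = g ω * ∫⁻ u, Y u ω ∂μ :=
      lintegral_const_mul _ (hY.comp (measurable_id.prodMk measurable_const))
    simp only
    rw [this]
    exact (mul_le_mul_right (hle ω) _).trans (by simp)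
  obtain ⟨u, hu, hle'⟩ := exists_notMem_null_le_lintegral
    (μ := μ) (f := fun u => ∫⁻ ω, g ω * Y u ω ∂ν) (N := Aᶜ)
    (hm.lintegral_prod_right').aemeasurable hA
  exact ⟨u, by simpa using hu, hle'.trans h1⟩

/-- The method of conditional expectations along a sequence. -/
theorem exists_seq_lintegral_le {Ω : Type*} [MeasurableSpace Ω] (ν : Measure Ω) [SFinite ν]
    (μ : ℕ → Measure ℝ) [∀ j, IsProbabilityMeasure (μ j)] (A : ℕ → Set ℝ)
    (hA : ∀ j, μ j (A j)ᶜ = 0)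
    (Y : ℕ → ℝ → Ω → ℝ≥0∞) (hY : ∀ j, Measurable (Function.uncurry (Y j)))
    (hle : ∀ j ω, ∫⁻ u, Y j u ω ∂(μ j) ≤ 1) :
    ∃ u : ℕ → ℝ, (∀ j, u j ∈ A j) ∧
      ∀ J, ∫⁻ ω, ∏ j ∈ Finset.range J, Y j (u j) ω ∂ν ≤ ν univ := by
  classical
  choose! U hU1 hU2 using fun (j : ℕ) (g : Ω → ℝ≥0∞) (hg : Measurable g) =>
    step_lintegral ν (μ j) (A j) (hA j) (Y j) (hY j) (hle j) g hg
  let G : ℕ → (Ω → ℝ≥0∞) := fun n => Nat.rec (fun _ => 1)
    (fun j g => fun ω => g ω * Y j (U j g) ω) n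
  have hG0 : G 0 = fun _ => 1 := rfl
  have hGs : ∀ j, G (j + 1) = fun ω => G j ω * Y j (U j (G j)) ω := fun j => rfl
  have hGm : ∀ j, Measurable (G j) := by
    intro j
    induction j with
    | zero => rw [hG0]; exact measurable_const
    | succ j ih =>
      rw [hGs]
      exact ih.mul ((hY j).comp (measurable_const.prodMk measurable_id))
  have hGle : ∀ j, ∫⁻ ω, G j ω ∂ν ≤ ν univ := by
    intro j
    induction j with
    | zero => rw [hG0]; simp
    | succ j ih =>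
      rw [hGs]
      exact (hU2 j (G j) (hGm j)).trans ih
  have hGp : ∀ J ω, G J ω = ∏ j ∈ Finset.range J, Y j (U j (G j)) ω := by
    intro J ω
    induction J with
    | zero => simp [hG0]
    | succ J ih => rw [Finset.prod_range_succ, ← ih, hGs]
  refine ⟨fun j => U j (G j), fun j => hU1 j (G j) (hGm j), fun J => ?_⟩
  simp_rw [← hGp]
  exact hGle J
theorem ae_mem_of_null {μ : Measure ℝ} {A : Set ℝ} (h : μ Aᶜ = 0) : ∀ᵐ v ∂μ, v ∈ A := by
  rw [ae_iff]; exact h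

theorem norm_ofReal_cpow_neg {u : ℝ} (hu : 0 < u) (s : ℂ) :
    ‖((u : ℂ) ^ (-s))‖ = u ^ (-s.re) := by
  rw [Complex.norm_cpow_eq_rpow_re_of_pos hu]; simp

theorem measurable_cpow_neg (s : ℂ) : Measurable fun v : ℝ => ((v : ℂ) ^ (-s)) := by
  fun_prop

theorem measurable_cpow_neg2 : Measurable fun q : ℝ × ℂ => ((q.1 : ℂ) ^ (-q.2)) := by
  fun_prop

theorem rpow_neg_le_max {a b u : ℝ} (ha : 0 < a) (hu : u ∈ Icc a b) (σ : ℝ) :
    u ^ (-σ) ≤ max (a ^ (-σ)) (b ^ (-σ)) := by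
  have hu0 : 0 < u := lt_of_lt_of_le ha hu.1
  rcases le_total 0 σ with h | h
  · apply le_max_of_le_left
    exact Real.rpow_le_rpow_of_nonpos ha hu.1 (by linarith)
  · apply le_max_of_le_right
    exact Real.rpow_le_rpow hu0.le hu.2 (by linarith)

theorem integrable_cpow_neg {μ : Measure ℝ} [IsFiniteMeasure μ] {a b : ℝ} (ha : 0 < a)
    (hμ : μ (Icc a b)ᶜ = 0) (s : ℂ) : Integrable (fun v : ℝ => ((v : ℂ) ^ (-s))) μ := by
  refine Integrable.of_bound (measurable_cpow_neg s).aestronglyMeasurable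
    (max (a ^ (-s.re)) (b ^ (-s.re))) ?_
  filter_upwards [ae_mem_of_null hμ] with v hv
  rw [norm_ofReal_cpow_neg (lt_of_lt_of_le ha hv.1)]
  exact rpow_neg_le_max ha hv _

/-- Hoeffding's lemma for `u ↦ Re u^{-s}`. -/
theorem hoeffding_cpow {μ : Measure ℝ} [IsProbabilityMeasure μ] {a b : ℝ} (ha : 0 < a)
    (hμ : μ (Icc a b)ᶜ = 0) (s : ℂ) (K : ℝ) :
    ∫⁻ u : ℝ, ENNReal.ofReal (Real.exp (K * (((u : ℂ) ^ (-s)) - ∫ v : ℝ, ((v : ℂ) ^ (-s)) ∂μ).re -
      K ^ 2 * (max (a ^ (-s.re)) (b ^ (-s.re))) ^ 2 / 2)) ∂μ ≤ 1 := by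
  set M := max (a ^ (-s.re)) (b ^ (-s.re)) with hM
  have hM0 : 0 ≤ M := le_max_of_le_left (Real.rpow_nonneg ha.le _)
  have hmeas : Measurable fun u : ℝ => (((u : ℂ) ^ (-s))).re :=
    Complex.measurable_re.comp (measurable_cpow_neg s)
  have hbd : ∀ᵐ (u : ℝ) ∂μ, (((u : ℂ) ^ (-s))).re ∈ Icc (-M) M := by
    filter_upwards [ae_mem_of_null hμ] with v hv
    have h1 := Complex.abs_re_le_norm ((v : ℂ) ^ (-s))
    rw [norm_ofReal_cpow_neg (lt_of_lt_of_le ha hv.1)] at h1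
    have h2 := h1.trans (rpow_neg_le_max ha hv _)
    exact abs_le.1 h2
  have hsub := ProbabilityTheory.hasSubgaussianMGF_of_mem_Icc hmeas.aemeasurable hbd
  have hint : ∫ v : ℝ, (((v : ℂ) ^ (-s))).re ∂μ = (∫ v : ℝ, ((v : ℂ) ^ (-s)) ∂μ).re := by
    have := (integrable_cpow_neg ha hμ s)
    exact integral_re this
  have hmgf := hsub.mgf_le K
  have hexp := hsub.integrable_exp_mul K
  rw [hint] at hmgf hexp
  rw [← ofReal_integral_eq_lintegral_ofReal]
  · have : ∫ u : ℝ, Real.exp (K * (((u : ℂ) ^ (-s)) - ∫ v : ℝ, ((v : ℂ) ^ (-s)) ∂μ).re -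
      K ^ 2 * M ^ 2 / 2) ∂μ = ProbabilityTheory.mgf
        (fun ω : ℝ => (((ω : ℂ) ^ (-s))).re - (∫ v : ℝ, ((v : ℂ) ^ (-s)) ∂μ).re) μ K *
        Real.exp (-(K ^ 2 * M ^ 2 / 2)) := by
      rw [ProbabilityTheory.mgf, ← integral_mul_const]
      congr 1
      ext u
      rw [← Real.exp_add, Complex.sub_re]
      ring_nf
    rw [this]
    rw [ENNReal.ofReal_le_one]
    calc _ ≤ Real.exp (((‖M - -M‖₊ / 2) ^ 2 : ℝ≥0) * K ^ 2 / 2) *
          Real.exp (-(K ^ 2 * M ^ 2 / 2)) := by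
            apply mul_le_mul_of_nonneg_right hmgf (Real.exp_nonneg _)
      _ = 1 := by
            rw [← Real.exp_add]
            have : ((((‖M - -M‖₊ / 2) ^ 2 : ℝ≥0)) : ℝ) = M ^ 2 := by
              push_cast
              rw [Real.norm_eq_abs, div_pow, sq_abs]
              ring
            rw [this]
            simp [mul_comm]
  · have : (fun u : ℝ => Real.exp (K * (((u : ℂ) ^ (-s)) - ∫ v : ℝ, ((v : ℂ) ^ (-s)) ∂μ).re -
      K ^ 2 * M ^ 2 / 2)) = fun u : ℝ =>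
        Real.exp (K * ((((u : ℂ) ^ (-s))).re - (∫ v : ℝ, ((v : ℂ) ^ (-s)) ∂μ).re)) *
        Real.exp (-(K ^ 2 * M ^ 2 / 2)) := by
      ext u
      rw [← Real.exp_add, Complex.sub_re]
      ring_nf
    rw [this]
    exact hexp.mul_const _
  · exact Eventually.of_forall fun u => (Real.exp_pos _).le

/-- Cauchy's formula as a bound on the half disc. -/
theorem norm_le_circle {f : ℂ → ℂ} {z w : ℂ} {r : ℝ} (hr : 0 < r)
    (hf : DiffContOnCl ℂ f (Metric.ball z r)) (hw : ‖w - z‖ ≤ r / 2) :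
    ‖f w‖ ≤ (1 / Real.pi) * ∫ θ in (0 : ℝ)..2 * Real.pi, ‖f (circleMap z r θ)‖ := by
  have hwb : w ∈ Metric.ball z r := by
    rw [Metric.mem_ball, dist_eq_norm]; linarith
  have hC := hf.circleIntegral_sub_inv_smul hwb
  have hpi := Real.pi_pos
  have h2pi : (0 : ℝ) ≤ 2 * Real.pi := by positivity
  have hfc : Continuous fun θ => ‖f (circleMap z r θ)‖ := by
    apply Continuous.norm
    have hco : ContinuousOn f (Metric.closedBall z r) := by
      have := hf.continuousOn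
      rwa [closure_ball z hr.ne'] at this
    exact hco.comp_continuous (continuous_circleMap z r)
      (fun θ => circleMap_mem_closedBall z hr.le θ)
  have hn : ‖(∮ ζ in C(z, r), (ζ - w)⁻¹ • f ζ)‖ ≤ ∫ θ in (0 : ℝ)..2 * Real.pi,
      2 * ‖f (circleMap z r θ)‖ := by
    rw [circleIntegral]
    refine intervalIntegral.norm_integral_le_of_norm_le h2pi ?_
      ((hfc.const_mul 2).intervalIntegrable _ _)
    refine Eventually.of_forall fun θ _ => ?_
    rw [norm_smul, norm_smul, deriv_circleMap, norm_mul, norm_circleMap_zero, Complex.norm_I,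
      mul_one, abs_of_pos hr, norm_inv]
    have h1 : r / 2 ≤ ‖circleMap z r θ - w‖ := by
      have h2 : ‖circleMap z r θ - z‖ = r := by
        rw [circleMap_sub_center, norm_circleMap_zero, abs_of_pos hr]
      have h3 : ‖circleMap z r θ - z‖ ≤ ‖circleMap z r θ - w‖ + ‖w - z‖ := by
        have := norm_add_le (circleMap z r θ - w) (w - z)
        simpa using this
      linarith
    have h4 : 0 < ‖circleMap z r θ - w‖ := by linarith
    rw [← mul_assoc]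
    apply mul_le_mul_of_nonneg_right _ (norm_nonneg _)
    rw [← div_eq_mul_inv, div_le_iff₀ h4]
    linarith
  rw [hC] at hn
  rw [norm_smul] at hn
  have h5 : ‖(2 * Real.pi * Complex.I : ℂ)‖ = 2 * Real.pi := by
    simp [abs_of_pos hpi]
  rw [h5, intervalIntegral.integral_const_mul] at hn
  rw [one_div, inv_mul_eq_div, le_div_iff₀ hpi]
  nlinarith

theorem norm_cpow_neg_sub_le {u v a : ℝ} (ha : 0 < a) (hu : a ≤ u) (huv : u ≤ v) {s : ℂ}
    (hs : -1 ≤ s.re) :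
    ‖((u : ℂ) ^ (-s)) - ((v : ℂ) ^ (-s))‖ ≤ ‖s‖ * (a ^ (-s.re - 1)) * (v - u) := by
  have hder : ∀ x ∈ Icc u v, HasDerivWithinAt (fun x : ℝ => ((x : ℂ) ^ (-s)))
      ((-s) * (x : ℂ) ^ (-s - 1)) (Icc u v) x := by
    intro x hx
    have hx0 : 0 < x := lt_of_lt_of_le ha (hu.trans hx.1)
    have h1 : HasDerivAt (fun z : ℂ => z ^ (-s)) ((-s) * (x : ℂ) ^ (-s - 1)) (x : ℂ) := by
      have := (hasDerivAt_id (x : ℂ)).cpow_const (c := -s) (by
        simp only [id]; exact Or.inl (by simpa using hx0))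
      simpa using this
    have h2 := h1.comp_ofReal
    exact h2.hasDerivWithinAt
  have hb : ∀ x ∈ Ico u v, ‖(-s) * (x : ℂ) ^ (-s - 1)‖ ≤ ‖s‖ * (a ^ (-s.re - 1)) := by
    intro x hx
    have hx0 : 0 < x := lt_of_lt_of_le ha (hu.trans hx.1)
    rw [norm_mul, norm_neg]
    apply mul_le_mul_of_nonneg_left _ (norm_nonneg _)
    rw [Complex.norm_cpow_eq_rpow_re_of_pos hx0]
    simp only [Complex.sub_re, Complex.neg_re, Complex.one_re]
    exact Real.rpow_le_rpow_of_nonpos ha (hu.trans hx.1) (by linarith)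
  have := norm_image_sub_le_of_norm_deriv_le_segment' hder hb v ⟨huv, le_rfl⟩
  rw [norm_sub_rev]
  exact this

theorem norm_cpow_neg_sub_le' {u v a b : ℝ} (ha : 0 < a) (hu : u ∈ Icc a b) (hv : v ∈ Icc a b)
    {s : ℂ} (hs : -1 ≤ s.re) :
    ‖((u : ℂ) ^ (-s)) - ((v : ℂ) ^ (-s))‖ ≤ ‖s‖ * (a ^ (-s.re - 1)) * (b - a) := by
  have hpos : 0 ≤ ‖s‖ * (a ^ (-s.re - 1)) := by positivity
  rcases le_total u v with h | h
  · refine (norm_cpow_neg_sub_le ha hu.1 h hs).trans ?_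
    exact mul_le_mul_of_nonneg_left (by linarith [hu.1, hv.2]) hpos
  · rw [norm_sub_rev]
    refine (norm_cpow_neg_sub_le ha hv.1 h hs).trans ?_
    exact mul_le_mul_of_nonneg_left (by linarith [hv.1, hu.2]) hpos

theorem differentiable_mean {μ : Measure ℝ} [IsFiniteMeasure μ] {a b : ℝ} (ha : 1 ≤ a)
    (hμ : μ (Icc a b)ᶜ = 0) : Differentiable ℂ fun s : ℂ => ∫ v : ℝ, ((v : ℂ) ^ (-s)) ∂μ := by
  intro s₀
  have ha0 : 0 < a := by linarith
  have hae : ∀ᵐ v ∂μ, v ∈ Icc a b := by rw [ae_iff]; exact hμ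
  have key := hasDerivAt_integral_of_dominated_loc_of_deriv_le (μ := μ) (𝕜 := ℂ)
    (F := fun (s : ℂ) (v : ℝ) => ((v : ℂ) ^ (-s)))
    (F' := fun (s : ℂ) (v : ℝ) => -(((v : ℂ) ^ (-s)) * Complex.log v))
    (x₀ := s₀) (s := Metric.ball s₀ 1) (bound := fun _ => b ^ (‖s₀‖ + 1) * Real.log b)
    (Metric.ball_mem_nhds _ one_pos)
    (Eventually.of_forall fun s => (by fun_prop : Measurable fun v : ℝ =>
      ((v : ℂ) ^ (-s))).aestronglyMeasurable)
    ?_ ?_ ?_ (integrable_const _) ?_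
  · exact key.2.differentiableAt
  · refine Integrable.of_bound (by fun_prop : Measurable fun v : ℝ =>
      ((v : ℂ) ^ (-s₀))).aestronglyMeasurable (max (a ^ (-s₀.re)) (b ^ (-s₀.re))) ?_
    filter_upwards [hae] with v hv
    have hv0 : 0 < v := lt_of_lt_of_le ha0 hv.1
    rw [Complex.norm_cpow_eq_rpow_re_of_pos hv0, Complex.neg_re]
    rcases le_total 0 s₀.re with h | h
    · apply le_max_of_le_left
      exact Real.rpow_le_rpow_of_nonpos ha0 hv.1 (by linarith)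
    · apply le_max_of_le_right
      exact Real.rpow_le_rpow hv0.le hv.2 (by linarith)
  · apply Measurable.aestronglyMeasurable
    have h1 : Measurable fun v : ℝ => ((v : ℂ) ^ (-s₀)) := by fun_prop
    have h2 : Measurable fun v : ℝ => Complex.log (v : ℂ) :=
      Complex.measurable_log.comp Complex.measurable_ofReal
    exact (h1.mul h2).neg
  · filter_upwards [hae] with v hv s hs
    have hv0 : 0 < v := lt_of_lt_of_le ha0 hv.1
    have hv1 : 1 ≤ v := ha.trans hv.1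
    rw [norm_neg, norm_mul, Complex.norm_cpow_eq_rpow_re_of_pos hv0]
    rw [← Complex.ofReal_log hv0.le, Complex.norm_real, Real.norm_eq_abs,
      abs_of_nonneg (Real.log_nonneg hv1)]
    apply mul_le_mul
    · have h1 : ‖s‖ ≤ ‖s₀‖ + 1 := by
        have := norm_add_le s₀ (s - s₀)
        rw [Metric.mem_ball, dist_eq_norm] at hs
        simp only [add_sub_cancel] at this
        linarith
      have h2 : (-s).re ≤ ‖s₀‖ + 1 := by
        have := (Complex.abs_re_le_norm s)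
        have h3 := neg_abs_le s.re
        simp only [Complex.neg_re]
        linarith
      calc v ^ (-s).re ≤ v ^ (‖s₀‖ + 1) := Real.rpow_le_rpow_of_exponent_le hv1 h2
        _ ≤ b ^ (‖s₀‖ + 1) := Real.rpow_le_rpow hv0.le hv.2 (by positivity)
    · exact Real.log_le_log hv0 hv.2
    · exact Real.log_nonneg hv1
    · exact Real.rpow_nonneg (hv0.le.trans hv.2) _
  · filter_upwards [hae] with v hv s hs
    have hv0 : 0 < v := lt_of_lt_of_le ha0 hv.1
    have hvne : (v : ℂ) ≠ 0 := by exact_mod_cast hv0.ne'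
    have h2 := (hasDerivAt_neg s).const_cpow (c := (v : ℂ)) (Or.inl hvne)
    exact h2.congr_deriv (by ring)


/-! ### The random error term -/

/-- centred term -/
noncomputable def Xt (μ : Measure ℝ) (u : ℝ) (s : ℂ) : ℂ :=
  ((u : ℂ) ^ (-s)) - ∫ v : ℝ, ((v : ℂ) ^ (-s)) ∂μ

theorem differentiable_Xt {μ : Measure ℝ} [IsFiniteMeasure μ] {a b u : ℝ} (ha : 1 ≤ a)
    (hμ : μ (Icc a b)ᶜ = 0) (hu : 0 < u) : Differentiable ℂ (Xt μ u) := by
  have hune : (u : ℂ) ≠ 0 := by exact_mod_cast hu.ne'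
  have h1 : Differentiable ℂ fun s : ℂ => ((u : ℂ) ^ (-s)) := fun s =>
    (differentiableAt_id.neg).const_cpow (Or.inl hune)
  exact h1.sub (differentiable_mean ha hμ)

theorem norm_Xt_le {μ : Measure ℝ} [IsProbabilityMeasure μ] {a b u : ℝ} (ha : 0 < a)
    (hμ : μ (Icc a b)ᶜ = 0) (hu : u ∈ Icc a b) {s : ℂ} (hs : -1 ≤ s.re) :
    ‖Xt μ u s‖ ≤ ‖s‖ * (a ^ (-s.re - 1)) * (b - a) := by
  have h1 : Xt μ u s = ∫ v : ℝ, (((u : ℂ) ^ (-s)) - ((v : ℂ) ^ (-s))) ∂μ := by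
    rw [integral_sub (integrable_const _) (integrable_cpow_neg ha hμ s)]
    simp [Xt]
  rw [h1]
  have h2 := norm_integral_le_of_norm_le_const (μ := μ)
    (f := fun v : ℝ => (((u : ℂ) ^ (-s)) - ((v : ℂ) ^ (-s))))
    (C := ‖s‖ * (a ^ (-s.re - 1)) * (b - a)) (by
      filter_upwards [ae_mem_of_null hμ] with v hv
      exact norm_cpow_neg_sub_le' ha hu hv hs)
  simpa using h2

section engine

variable {a b : ℕ → ℝ} {μ : ℕ → Measure ℝ} [∀ j, IsProbabilityMeasure (μ j)] {p : ℕ → ℝ}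

theorem summable_Xt (ha : ∀ j, 1 ≤ a j) (hμ : ∀ j, μ j (Icc (a j) (b j))ᶜ = 0)
    (hS : ∀ σ : ℝ, 1 / 2 < σ → Summable fun j => (b j - a j) * a j ^ (-σ - 1))
    (hp : ∀ j, p j ∈ Icc (a j) (b j)) {s : ℂ} (hs : 1 / 2 < s.re) :
    Summable fun j => Xt (μ j) (p j) s := by
  refine Summable.of_norm_bounded (g := fun j => ‖s‖ * ((b j - a j) * a j ^ (-s.re - 1)))
    ((hS _ hs).mul_left _) fun j => ?_
  have := norm_Xt_le (by linarith [ha j]) (hμ j) (hp j) (s := s) (by linarith)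
  calc _ ≤ _ := this
    _ = _ := by ring

theorem differentiableOn_tsum_Xt (ha : ∀ j, 1 ≤ a j)
    (hμ : ∀ j, μ j (Icc (a j) (b j))ᶜ = 0)
    (hS : ∀ σ : ℝ, 1 / 2 < σ → Summable fun j => (b j - a j) * a j ^ (-σ - 1))
    (hp : ∀ j, p j ∈ Icc (a j) (b j)) :
    DifferentiableOn ℂ (fun s => ∑' j, Xt (μ j) (p j) s) {s : ℂ | 1 / 2 < s.re} := by
  intro s₀ hs₀
  simp only [mem_ofPred_eq] at hs₀
  set σ₀ : ℝ := (1 / 2 + s₀.re) / 2 with hσ₀
  have h1 : 1 / 2 < σ₀ := by rw [hσ₀]; linarith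
  have h2 : σ₀ < s₀.re := by rw [hσ₀]; linarith
  set U : Set ℂ := {s : ℂ | σ₀ < s.re} ∩ Metric.ball 0 (‖s₀‖ + 1) with hU
  have hUo : IsOpen U := (isOpen_lt continuous_const Complex.continuous_re).inter
    Metric.isOpen_ball
  have hmem : s₀ ∈ U := ⟨h2, by simp⟩
  have hd : DifferentiableOn ℂ (fun s => ∑' j, Xt (μ j) (p j) s) U := by
    refine Complex.differentiableOn_tsum_of_summable_norm
      (u := fun j => (‖s₀‖ + 1) * ((b j - a j) * a j ^ (-σ₀ - 1)))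
      ((hS _ h1).mul_left _) (fun j => ?_) hUo (fun j s hs => ?_)
    · exact (differentiable_Xt (ha j) (hμ j) (by linarith [ha j, (hp j).1])).differentiableOn
    · have hs1 : σ₀ < s.re := hs.1
      have hs2 : ‖s‖ < ‖s₀‖ + 1 := by simpa using hs.2
      have h3 := norm_Xt_le (by linarith [ha j]) (hμ j) (hp j) (s := s) (by linarith)
      have h4 : a j ^ (-s.re - 1) ≤ a j ^ (-σ₀ - 1) :=
        Real.rpow_le_rpow_of_exponent_le (ha j) (by linarith)
      have h5 : 0 ≤ b j - a j := by linarith [(hp j).1, (hp j).2]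
      have h6 : 0 ≤ a j ^ (-s.re - 1) := Real.rpow_nonneg (by linarith [ha j]) _
      calc _ ≤ _ := h3
        _ ≤ (‖s₀‖ + 1) * (a j ^ (-σ₀ - 1)) * (b j - a j) := by gcongr
        _ = _ := by ring
  exact (hd.differentiableAt (hUo.mem_nhds hmem)).differentiableWithinAt

theorem summable_wt : Summable fun n : ℤ => 1 / (1 + (n : ℝ) ^ 2) := by
  refine Summable.of_norm_bounded_eventually (g := fun n : ℤ => 1 / (n : ℝ) ^ 2)
    (Real.summable_one_div_int_pow.2 one_lt_two) ?_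
  have : ∀ᶠ n : ℤ in cofinite, n ≠ 0 := by
    rw [eventually_cofinite]
    simp
  filter_upwards [this] with n hn
  have h1 : (0 : ℝ) < (n : ℝ) ^ 2 := by positivity
  rw [Real.norm_eq_abs, abs_of_nonneg (by positivity)]
  apply one_div_le_one_div_of_le h1
  linarith

/-- weights -/
noncomputable def wt (i : ℤ × ℤ × ℤ) : ℝ :=
  (1 / (1 + (i.1 : ℝ) ^ 2)) * ((1 / (1 + (i.2.1 : ℝ) ^ 2)) * (1 / (1 + (i.2.2 : ℝ) ^ 2)))

theorem wt_pos (i : ℤ × ℤ × ℤ) : 0 < wt i := by unfold wt; positivity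

theorem summable_wt3 : Summable wt := by
  have hnn : ∀ n : ℤ, 0 ≤ 1 / (1 + (n : ℝ) ^ 2) := fun n => by positivity
  have h2 : Summable fun q : ℤ × ℤ => (1 / (1 + (q.1 : ℝ) ^ 2)) * (1 / (1 + (q.2 : ℝ) ^ 2)) :=
    summable_wt.mul_of_nonneg summable_wt hnn hnn
  exact summable_wt.mul_of_nonneg h2 hnn (fun q => by positivity)

/-- centres -/
noncomputable def cen (i : ℤ × ℤ × ℤ) : ℂ :=
  ⟨(i.2.1 : ℝ) / (4 * |(i.1 : ℝ)|), (i.2.2 : ℝ) / (4 * |(i.1 : ℝ)|)⟩

/-- radii -/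
noncomputable def rad (i : ℤ × ℤ × ℤ) : ℝ := 1 / (2 * |(i.1 : ℝ)|)

/-- the test measure -/
noncomputable def nuM : Measure (ℂ × ℝ) :=
  Measure.sum fun i : ℤ × ℤ × ℤ => ENNReal.ofReal (wt i) •
    Measure.map (fun θ : ℝ => (circleMap (cen i) (rad i) θ, (i.1 : ℝ)))
      (volume.restrict (Ioc 0 (2 * Real.pi)))

theorem measurable_param (i : ℤ × ℤ × ℤ) :
    Measurable fun θ : ℝ => (circleMap (cen i) (rad i) θ, (i.1 : ℝ)) :=
  (continuous_circleMap _ _).measurable.prodMk measurable_const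

theorem nuM_univ : nuM univ < ∞ := by
  rw [nuM, Measure.sum_apply _ MeasurableSet.univ]
  have h1 : ∀ i : ℤ × ℤ × ℤ, (ENNReal.ofReal (wt i) •
    Measure.map (fun θ : ℝ => (circleMap (cen i) (rad i) θ, (i.1 : ℝ)))
      (volume.restrict (Ioc 0 (2 * Real.pi)))) univ = ENNReal.ofReal (wt i) *
      ENNReal.ofReal (2 * Real.pi) := by
    intro i
    rw [Measure.smul_apply, Measure.map_apply (measurable_param i) MeasurableSet.univ]
    simp
  simp_rw [h1]
  rw [ENNReal.tsum_mul_right]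
  exact ENNReal.mul_lt_top summable_wt3.tsum_ofReal_lt_top ENNReal.ofReal_lt_top

instance : IsFiniteMeasure nuM := ⟨nuM_univ⟩

theorem lintegral_nuM_ge (i : ℤ × ℤ × ℤ) (f : ℂ × ℝ → ℝ≥0∞) (hf : Measurable f) :
    ENNReal.ofReal (wt i) * ∫⁻ θ in Ioc 0 (2 * Real.pi),
      f (circleMap (cen i) (rad i) θ, (i.1 : ℝ)) ≤ ∫⁻ ω, f ω ∂nuM := by
  rw [nuM, lintegral_sum_measure]
  refine le_trans ?_ (ENNReal.le_tsum i)
  rw [lintegral_smul_measure, lintegral_map hf (measurable_param i)]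
  rfl

/-- The test functions -/
noncomputable def Yt (μ : Measure ℝ) (a b : ℝ) (u : ℝ) (ω : ℂ × ℝ) : ℝ≥0∞ :=
  ENNReal.ofReal (Real.exp (ω.2 * (Xt μ u ω.1).re -
    ω.2 ^ 2 * (max (a ^ (-ω.1.re)) (b ^ (-ω.1.re))) ^ 2 / 2))

theorem measurable_Xt (μ : Measure ℝ) [SFinite μ] :
    Measurable fun q : ℝ × ℂ => Xt μ q.1 q.2 := by
  unfold Xt
  apply Measurable.sub
  · exact measurable_cpow_neg2
  · have h1 : StronglyMeasurable fun q : ℂ × ℝ => ((q.2 : ℂ) ^ (-q.1)) := by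
      apply Measurable.stronglyMeasurable
      fun_prop
    have h2 := h1.integral_prod_right' (ν := μ)
    exact h2.measurable.comp measurable_snd

theorem measurable_Yt (μ : Measure ℝ) [SFinite μ] (a b : ℝ) :
    Measurable (Function.uncurry (Yt μ a b)) := by
  unfold Yt
  apply Measurable.ennreal_ofReal
  apply Measurable.exp
  have h1 : Measurable fun q : ℝ × (ℂ × ℝ) => Xt μ q.1 q.2.1 :=
    (measurable_Xt μ).comp (measurable_fst.prodMk (measurable_fst.comp measurable_snd))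
  have h2 : Measurable fun q : ℝ × (ℂ × ℝ) => q.2.1.re :=
    Complex.measurable_re.comp (measurable_fst.comp measurable_snd)
  have h3 : Measurable fun q : ℝ × (ℂ × ℝ) => (Xt μ q.1 q.2.1).re :=
    Complex.measurable_re.comp h1
  have h4 : Measurable fun q : ℝ × (ℂ × ℝ) => a ^ (-q.2.1.re) := by fun_prop
  have h5 : Measurable fun q : ℝ × (ℂ × ℝ) => b ^ (-q.2.1.re) := by fun_prop
  have h6 : Measurable fun q : ℝ × (ℂ × ℝ) => q.2.2 := measurable_snd.comp measurable_snd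
  exact (h6.mul h3).sub (((h6.pow_const 2).mul ((h4.max h5).pow_const 2)).div_const 2)

theorem exists_p (ha : ∀ j, 1 ≤ a j) (hμ : ∀ j, μ j (Icc (a j) (b j))ᶜ = 0)
    (A : ℕ → Set ℝ) (hA : ∀ j, μ j (A j)ᶜ = 0) :
    ∃ p : ℕ → ℝ, (∀ j, p j ∈ A j) ∧
      ∀ J, ∫⁻ ω, ∏ j ∈ Finset.range J, Yt (μ j) (a j) (b j) (p j) ω ∂nuM ≤ nuM univ := by
  refine exists_seq_lintegral_le nuM μ A hA
    (fun j => Yt (μ j) (a j) (b j)) (fun j => measurable_Yt (μ j) _ _) ?_
  intro j ω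
  exact hoeffding_cpow (by linarith [ha j]) (hμ j) ω.1 ω.2

theorem max_rpow_eq {a b σ : ℝ} (ha : 1 ≤ a) (hab : a ≤ b) (hσ : 0 ≤ σ) :
    max (a ^ (-σ)) (b ^ (-σ)) = a ^ (-σ) :=
  max_eq_left (Real.rpow_le_rpow_of_nonpos (by linarith) hab (by linarith))

/-- lower bound for the product of the test functions. -/
theorem prod_Yt_ge (ha : ∀ j, 1 ≤ a j) (hp : ∀ j, p j ∈ Icc (a j) (b j))
    (hV : ∀ σ : ℝ, 1 / 2 < σ → Summable fun j => a j ^ (-(2 * σ)))
    {δ : ℝ} (hδ : 0 < δ) {s : ℂ} (hs : 1 / 2 + δ ≤ s.re) (K : ℝ) (J : ℕ) :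
    ENNReal.ofReal (Real.exp (K * (∑ j ∈ Finset.range J, Xt (μ j) (p j) s).re)) ≤
      ENNReal.ofReal (Real.exp (K ^ 2 * (∑' j, a j ^ (-(2 * (1 / 2 + δ)))) / 2)) *
      ∏ j ∈ Finset.range J, Yt (μ j) (a j) (b j) (p j) (s, K) := by
  unfold Yt
  rw [← ENNReal.ofReal_prod_of_nonneg (fun j _ => (Real.exp_pos _).le), ← Real.exp_sum,
    ← ENNReal.ofReal_mul (Real.exp_pos _).le, ← Real.exp_add]
  apply ENNReal.ofReal_le_ofReal
  apply Real.exp_le_exp.2
  simp only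
  rw [Finset.sum_sub_distrib, ← Finset.mul_sum, ← Complex.re_sum]
  have h1 : ∑ j ∈ Finset.range J, K ^ 2 * (max (a j ^ (-s.re)) (b j ^ (-s.re))) ^ 2 / 2 ≤
      K ^ 2 * (∑' j, a j ^ (-(2 * (1 / 2 + δ)))) / 2 := by
    have h2 : ∑ j ∈ Finset.range J, (max (a j ^ (-s.re)) (b j ^ (-s.re))) ^ 2 ≤
        ∑' j, a j ^ (-(2 * (1 / 2 + δ))) := by
      refine le_trans ?_ ((hV (1 / 2 + δ) (by linarith)).sum_le_tsum (Finset.range J)
        (fun j _ => Real.rpow_nonneg (by linarith [ha j]) _))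
      apply Finset.sum_le_sum
      intro j _
      rw [max_rpow_eq (ha j) ((hp j).1.trans (hp j).2) (by linarith),
        ← Real.rpow_natCast, ← Real.rpow_mul (by linarith [ha j])]
      apply Real.rpow_le_rpow_of_exponent_le (ha j)
      push_cast
      linarith
    have h3 : ∑ j ∈ Finset.range J, K ^ 2 * (max (a j ^ (-s.re)) (b j ^ (-s.re))) ^ 2 / 2 =
      K ^ 2 * (∑ j ∈ Finset.range J, (max (a j ^ (-s.re)) (b j ^ (-s.re))) ^ 2) / 2 := by
      rw [Finset.mul_sum, Finset.sum_div]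
    rw [h3]
    have : 0 ≤ K ^ 2 := sq_nonneg K
    have := mul_le_mul_of_nonneg_left h2 this
    linarith
  linarith

end engine

end Pool.Agent.H521
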