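import Pool.Agent.H521.Engine1

open MeasureTheory Set Filter Topology
open scoped ENNReal NNReal

namespace Pool.Agent.H521

variable {a b : ℕ → ℝ} {μ : ℕ → Measure ℝ} [∀ j, IsProbabilityMeasure (μ j)] {p : ℕ → ℝ}

/-- Fatou on a circle. -/
theorem circle_lintegral_le (ha : ∀ j, 1 ≤ a j) (hμ : ∀ j, μ j (Icc (a j) (b j))ᶜ = 0)
    (hV : ∀ σ : ℝ, 1 / 2 < σ → Summable fun j => a j ^ (-(2 * σ)))
    (hS : ∀ σ : ℝ, 1 / 2 < σ → Summable fun j => (b j - a j) * a j ^ (-σ - 1))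
    (hp : ∀ j, p j ∈ Icc (a j) (b j))
    (hint : ∀ J, ∫⁻ ω, ∏ j ∈ Finset.range J, Yt (μ j) (a j) (b j) (p j) ω ∂nuM ≤ nuM univ)
    {δ : ℝ} (hδ : 0 < δ) (i : ℤ × ℤ × ℤ)
    (hi : ∀ θ : ℝ, 1 / 2 + δ ≤ (circleMap (cen i) (rad i) θ).re) :
    ENNReal.ofReal (wt i) * ∫⁻ θ in Ioc 0 (2 * Real.pi), ENNReal.ofReal (Real.exp ((i.1 : ℝ) *
      (∑' j, Xt (μ j) (p j) (circleMap (cen i) (rad i) θ)).re)) ≤
      ENNReal.ofReal (Real.exp ((i.1 : ℝ) ^ 2 * (∑' j, a j ^ (-(2 * (1 / 2 + δ)))) / 2)) *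
        nuM univ := by
  set C := ENNReal.ofReal (Real.exp ((i.1 : ℝ) ^ 2 * (∑' j, a j ^ (-(2 * (1 / 2 + δ)))) / 2))
    with hC
  have hJ : ∀ J : ℕ, ENNReal.ofReal (wt i) * ∫⁻ θ in Ioc 0 (2 * Real.pi),
      ENNReal.ofReal (Real.exp ((i.1 : ℝ) *
        (∑ j ∈ Finset.range J, Xt (μ j) (p j) (circleMap (cen i) (rad i) θ)).re)) ≤
      C * nuM univ := by
    intro J
    have hm : Measurable fun ω : ℂ × ℝ =>
        ∏ j ∈ Finset.range J, Yt (μ j) (a j) (b j) (p j) ω := by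
      apply Finset.measurable_fun_prod
      intro j _
      exact (measurable_Yt (μ j) (a j) (b j)).comp (measurable_const.prodMk measurable_id)
    have h1 := lintegral_nuM_ge i _ hm
    have h2 : ∫⁻ θ in Ioc 0 (2 * Real.pi), ENNReal.ofReal (Real.exp ((i.1 : ℝ) *
        (∑ j ∈ Finset.range J, Xt (μ j) (p j) (circleMap (cen i) (rad i) θ)).re)) ≤
        C * ∫⁻ θ in Ioc 0 (2 * Real.pi), ∏ j ∈ Finset.range J,
          Yt (μ j) (a j) (b j) (p j) (circleMap (cen i) (rad i) θ, (i.1 : ℝ)) := by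
      have h3 : Measurable fun θ : ℝ => ∏ j ∈ Finset.range J,
          Yt (μ j) (a j) (b j) (p j) (circleMap (cen i) (rad i) θ, (i.1 : ℝ)) :=
        hm.comp (measurable_param i)
      rw [← lintegral_const_mul _ h3]
      apply lintegral_mono
      intro θ
      exact prod_Yt_ge ha hp hV hδ (hi θ) _ J
    calc _ ≤ ENNReal.ofReal (wt i) * (C * ∫⁻ θ in Ioc 0 (2 * Real.pi), ∏ j ∈ Finset.range J,
          Yt (μ j) (a j) (b j) (p j) (circleMap (cen i) (rad i) θ, (i.1 : ℝ))) :=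
          mul_le_mul_right h2 _
      _ = C * (ENNReal.ofReal (wt i) * ∫⁻ θ in Ioc 0 (2 * Real.pi), ∏ j ∈ Finset.range J,
          Yt (μ j) (a j) (b j) (p j) (circleMap (cen i) (rad i) θ, (i.1 : ℝ))) := by ring
      _ ≤ C * nuM univ := mul_le_mul_right (h1.trans (hint J)) _
  have hfat : ∫⁻ θ in Ioc 0 (2 * Real.pi), ENNReal.ofReal (Real.exp ((i.1 : ℝ) *
      (∑' j, Xt (μ j) (p j) (circleMap (cen i) (rad i) θ)).re)) ≤
      liminf (fun J : ℕ => ∫⁻ θ in Ioc 0 (2 * Real.pi), ENNReal.ofReal (Real.exp ((i.1 : ℝ) *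
        (∑ j ∈ Finset.range J, Xt (μ j) (p j) (circleMap (cen i) (rad i) θ)).re))) atTop := by
    have hlim : ∀ θ : ℝ, ENNReal.ofReal (Real.exp ((i.1 : ℝ) *
      (∑' j, Xt (μ j) (p j) (circleMap (cen i) (rad i) θ)).re)) =
      liminf (fun J : ℕ => ENNReal.ofReal (Real.exp ((i.1 : ℝ) *
        (∑ j ∈ Finset.range J, Xt (μ j) (p j) (circleMap (cen i) (rad i) θ)).re))) atTop := by
      intro θ
      symm
      apply Tendsto.liminf_eq
      apply ENNReal.tendsto_ofReal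
      apply (Real.continuous_exp.tendsto _).comp
      apply Tendsto.const_mul
      apply (Complex.continuous_re.tendsto _).comp
      exact (summable_Xt ha hμ hS hp (by linarith [hi θ])).hasSum.tendsto_sum_nat
    simp_rw [hlim]
    apply lintegral_liminf_le
    intro J
    apply Measurable.ennreal_ofReal
    apply Measurable.exp
    apply Measurable.const_mul
    apply Complex.measurable_re.comp
    apply Finset.measurable_fun_sum
    intro j _
    exact ((differentiable_Xt (ha j) (hμ j) (by linarith [ha j, (hp j).1])).continuous.comp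
      (continuous_circleMap _ _)).measurable
  rcases eq_or_ne (ENNReal.ofReal (wt i)) 0 with h0 | h0
  · rw [h0]; simp
  calc _ ≤ ENNReal.ofReal (wt i) * liminf (fun J : ℕ => ∫⁻ θ in Ioc 0 (2 * Real.pi),
      ENNReal.ofReal (Real.exp ((i.1 : ℝ) *
        (∑ j ∈ Finset.range J, Xt (μ j) (p j) (circleMap (cen i) (rad i) θ)).re))) atTop :=
        mul_le_mul_right hfat _
    _ ≤ ENNReal.ofReal (wt i) * (C * nuM univ / ENNReal.ofReal (wt i)) := by
        apply mul_le_mul_right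
        apply liminf_le_of_le (by isBoundedDefault)
        intro y hy
        obtain ⟨J, hJ'⟩ := hy.exists
        refine hJ'.trans ?_
        rw [ENNReal.le_div_iff_mul_le (Or.inl h0) (Or.inl ENNReal.ofReal_ne_top), mul_comm]
        exact hJ J
    _ ≤ C * nuM univ := ENNReal.mul_div_le

theorem round_div_bound (x : ℝ) {k : ℝ} (hk : 0 < k) :
    |x - (round (4 * k * x) : ℝ) / (4 * k)| ≤ 1 / (8 * k) := by
  have h1 := abs_sub_round (4 * k * x)
  have h2 : x - (round (4 * k * x) : ℝ) / (4 * k) = (4 * k * x - round (4 * k * x)) / (4 * k) := by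
    field_simp
  rw [h2, abs_div, abs_of_pos (by positivity : (0 : ℝ) < 4 * k), div_le_div_iff₀ (by positivity)
    (by positivity)]
  nlinarith

theorem one_add_round_sq_le {x R k : ℝ} (hk : 1 ≤ k) (hx : |x| ≤ R) :
    1 + (round (4 * k * x) : ℝ) ^ 2 ≤ (4 * k) ^ 2 * (2 + R) ^ 2 := by
  have h1 := abs_sub_round (4 * k * x)
  have hR : 0 ≤ R := (abs_nonneg x).trans hx
  have h2 : |(round (4 * k * x) : ℝ)| ≤ 4 * k * R + 1 / 2 := by
    have h3 : |(round (4 * k * x) : ℝ)| ≤ |4 * k * x| + |4 * k * x - round (4 * k * x)| := by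
      have := abs_sub_abs_le_abs_sub (round (4 * k * x) : ℝ) (4 * k * x)
      rw [abs_sub_comm] at this
      linarith
    rw [abs_mul, abs_of_pos (by positivity : (0 : ℝ) < 4 * k)] at h3
    have h4 : 4 * k * |x| ≤ 4 * k * R := mul_le_mul_of_nonneg_left hx (by positivity)
    linarith
  have h5 : (round (4 * k * x) : ℝ) ^ 2 ≤ (4 * k * R + 1 / 2) ^ 2 := by
    rw [← sq_abs]
    exact pow_le_pow_left₀ (abs_nonneg _) h2 2
  have h6 : 0 ≤ k * R := by positivity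
  nlinarith

theorem exp_bound (ha : ∀ j, 1 ≤ a j) (hμ : ∀ j, μ j (Icc (a j) (b j))ᶜ = 0)
    (hV : ∀ σ : ℝ, 1 / 2 < σ → Summable fun j => a j ^ (-(2 * σ)))
    (hS : ∀ σ : ℝ, 1 / 2 < σ → Summable fun j => (b j - a j) * a j ^ (-σ - 1))
    (hp : ∀ j, p j ∈ Icc (a j) (b j))
    (hint : ∀ J, ∫⁻ ω, ∏ j ∈ Finset.range J, Yt (μ j) (a j) (b j) (p j) ω ∂nuM ≤ nuM univ)
    {ε : ℝ} (hε : 0 < ε) (k : ℤ) (hk : k ≠ 0) (hk' : 1 / |(k : ℝ)| ≤ ε) :
    ∃ C : ℝ, ∀ s : ℂ, 1 / 2 + ε ≤ s.re →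
      (k : ℝ) * (∑' j, Xt (μ j) (p j) s).re ≤ C + 4 * Real.log (2 + ‖s‖) := by
  set E : ℂ → ℂ := fun s => ∑' j, Xt (μ j) (p j) s with hE
  have hEd : DifferentiableOn ℂ E {s : ℂ | 1 / 2 < s.re} := differentiableOn_tsum_Xt ha hμ hS hp
  have hk1 : 1 ≤ |(k : ℝ)| := by
    have : 1 ≤ |k| := Int.one_le_abs hk
    exact_mod_cast this
  have hk0 : 0 < |(k : ℝ)| := by linarith
  have hopen : IsOpen {s : ℂ | 1 / 2 < s.re} := isOpen_lt continuous_const Complex.continuous_re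
  set B : ℝ≥0∞ := ENNReal.ofReal (Real.exp ((k : ℝ) ^ 2 *
    (∑' j, a j ^ (-(2 * (1 / 2 + ε / 4)))) / 2)) * nuM univ with hB
  have hBtop : B < ∞ := ENNReal.mul_lt_top ENNReal.ofReal_lt_top nuM_univ
  set B' : ℝ := B.toReal with hB'
  have hB'0 : 0 ≤ B' := ENNReal.toReal_nonneg
  set D : ℝ := (B' + 1) * ((1 + (k : ℝ) ^ 2) * ((4 * |(k : ℝ)|) ^ 2 * (4 * |(k : ℝ)|) ^ 2)) with hD
  have hD0 : 0 < D := by positivity
  refine ⟨Real.log D, fun s hs => ?_⟩
  set m : ℤ := round (4 * |(k : ℝ)| * s.re) with hm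
  set n : ℤ := round (4 * |(k : ℝ)| * s.im) with hn
  set i : ℤ × ℤ × ℤ := (k, m, n) with hi
  have hre : |s.re - (cen i).re| ≤ 1 / (8 * |(k : ℝ)|) := round_div_bound s.re hk0
  have him : |s.im - (cen i).im| ≤ 1 / (8 * |(k : ℝ)|) := round_div_bound s.im hk0
  have hrad : rad i = 1 / (2 * |(k : ℝ)|) := rfl
  have hrad0 : 0 < rad i := by rw [hrad]; positivity
  have hdist : ‖s - cen i‖ ≤ rad i / 2 := by
    have h1 := Complex.norm_le_abs_re_add_abs_im (s - cen i)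
    simp only [Complex.sub_re, Complex.sub_im] at h1
    have h2 : rad i / 2 = 1 / (8 * |(k : ℝ)|) + 1 / (8 * |(k : ℝ)|) := by
      rw [hrad]; field_simp; norm_num
    linarith
  have hball : ∀ z ∈ Metric.closedBall (cen i) (rad i), 1 / 2 + ε / 4 ≤ z.re := by
    intro z hz
    rw [Metric.mem_closedBall, dist_eq_norm] at hz
    have h1 := (Complex.abs_re_le_norm (z - cen i)).trans hz
    rw [Complex.sub_re] at h1
    have h2 := (abs_le.1 h1).1
    have h3 := (abs_le.1 hre).2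
    have h4 : 1 / (8 * |(k : ℝ)|) ≤ ε / 8 := by
      have : 1 / (8 * |(k : ℝ)|) = (1 / |(k : ℝ)|) / 8 := by field_simp
      rw [this]; linarith
    have h5 : rad i ≤ ε / 2 := by
      have : rad i = (1 / |(k : ℝ)|) / 2 := by rw [hrad]; field_simp
      rw [this]; linarith
    linarith
  have hcirc : ∀ θ : ℝ, 1 / 2 + ε / 4 ≤ (circleMap (cen i) (rad i) θ).re := fun θ =>
    hball _ (circleMap_mem_closedBall _ hrad0.le θ)
  have hsub : Metric.closedBall (cen i) (rad i) ⊆ {s : ℂ | 1 / 2 < s.re} := by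
    intro z hz
    have := hball z hz
    simp only [mem_ofPred_eq]
    linarith
  have hcl := circle_lintegral_le ha hμ hV hS hp hint (by positivity : 0 < ε / 4) i hcirc
  have hwt := wt_pos i
  -- the function
  set f : ℂ → ℂ := fun z => Complex.exp ((k : ℂ) * E z) with hf
  have hfd : DiffContOnCl ℂ f (Metric.ball (cen i) (rad i)) := by
    apply DifferentiableOn.diffContOnCl
    rw [closure_ball _ hrad0.ne']
    exact ((hEd.mono hsub).const_mul _).cexp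
  have hnf : ∀ z, ‖f z‖ = Real.exp ((k : ℝ) * (E z).re) := by
    intro z
    rw [hf]
    simp only
    rw [Complex.norm_exp]
    congr 1
    rw [show (k : ℂ) = ((k : ℝ) : ℂ) by simp, Complex.re_ofReal_mul]
  have hfc : Continuous fun θ => ‖f (circleMap (cen i) (rad i) θ)‖ := by
    apply Continuous.norm
    have hco : ContinuousOn f (Metric.closedBall (cen i) (rad i)) := by
      have := hfd.continuousOn
      rwa [closure_ball _ hrad0.ne'] at this
    exact hco.comp_continuous (continuous_circleMap _ _)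
      (fun θ => circleMap_mem_closedBall _ hrad0.le θ)
  have hint2 : ∫ θ in (0 : ℝ)..2 * Real.pi, ‖f (circleMap (cen i) (rad i) θ)‖ ≤ B' / wt i := by
    have h2pi : (0 : ℝ) ≤ 2 * Real.pi := by positivity
    rw [intervalIntegral.integral_of_le h2pi]
    have h1 : ENNReal.ofReal (∫ θ in Ioc 0 (2 * Real.pi), ‖f (circleMap (cen i) (rad i) θ)‖) =
        ∫⁻ θ in Ioc 0 (2 * Real.pi), ENNReal.ofReal ‖f (circleMap (cen i) (rad i) θ)‖ := by
      apply ofReal_integral_eq_lintegral_ofReal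
      · exact (hfc.integrableOn_Icc (a := 0) (b := 2 * Real.pi)).mono_set Ioc_subset_Icc_self
      · exact Eventually.of_forall fun θ => norm_nonneg _
    simp_rw [hnf] at h1
    have h2 : ENNReal.ofReal (wt i * ∫ θ in Ioc 0 (2 * Real.pi),
        Real.exp ((k : ℝ) * (E (circleMap (cen i) (rad i) θ)).re)) ≤ B := by
      rw [ENNReal.ofReal_mul hwt.le, h1]
      exact hcl
    have h3 : wt i * ∫ θ in Ioc 0 (2 * Real.pi),
        Real.exp ((k : ℝ) * (E (circleMap (cen i) (rad i) θ)).re) ≤ B' :=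
      (ENNReal.ofReal_le_iff_le_toReal hBtop.ne).1 h2
    simp_rw [hnf]
    rw [le_div_iff₀ hwt, mul_comm]
    exact h3
  have hmain := norm_le_circle hrad0 hfd (w := s) hdist
  rw [hnf] at hmain
  have h6 : (1 / Real.pi) * ∫ θ in (0 : ℝ)..2 * Real.pi, ‖f (circleMap (cen i) (rad i) θ)‖ ≤
      (B' + 1) / wt i := by
    have hpi1 : 1 / Real.pi ≤ 1 := by
      rw [div_le_one Real.pi_pos]; linarith [Real.pi_gt_three]
    have h7 : 0 ≤ ∫ θ in (0 : ℝ)..2 * Real.pi, ‖f (circleMap (cen i) (rad i) θ)‖ :=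
      intervalIntegral.integral_nonneg (by positivity) (fun θ _ => norm_nonneg _)
    calc _ ≤ 1 * ∫ θ in (0 : ℝ)..2 * Real.pi, ‖f (circleMap (cen i) (rad i) θ)‖ :=
          mul_le_mul_of_nonneg_right hpi1 h7
      _ ≤ B' / wt i := by rw [one_mul]; exact hint2
      _ ≤ (B' + 1) / wt i := by
          apply div_le_div_of_nonneg_right _ hwt.le
          linarith
  have hwt' : (B' + 1) / wt i = (B' + 1) * ((1 + (k : ℝ) ^ 2) *
      ((1 + (m : ℝ) ^ 2) * (1 + (n : ℝ) ^ 2))) := by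
    rw [wt, hi]
    field_simp
  have hm2 : 1 + (m : ℝ) ^ 2 ≤ (4 * |(k : ℝ)|) ^ 2 * (2 + ‖s‖) ^ 2 :=
    one_add_round_sq_le hk1 (Complex.abs_re_le_norm s)
  have hn2 : 1 + (n : ℝ) ^ 2 ≤ (4 * |(k : ℝ)|) ^ 2 * (2 + ‖s‖) ^ 2 :=
    one_add_round_sq_le hk1 (Complex.abs_im_le_norm s)
  have hmn : (1 + (m : ℝ) ^ 2) * (1 + (n : ℝ) ^ 2) ≤
      ((4 * |(k : ℝ)|) ^ 2 * (2 + ‖s‖) ^ 2) * ((4 * |(k : ℝ)|) ^ 2 * (2 + ‖s‖) ^ 2) :=
    mul_le_mul hm2 hn2 (by positivity) (by positivity)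
  have h8 : Real.exp ((k : ℝ) * (E s).re) ≤ D * (2 + ‖s‖) ^ 4 := by
    calc _ ≤ (B' + 1) / wt i := hmain.trans h6
      _ = _ := hwt'
      _ ≤ (B' + 1) * ((1 + (k : ℝ) ^ 2) * (((4 * |(k : ℝ)|) ^ 2 * (2 + ‖s‖) ^ 2) *
          ((4 * |(k : ℝ)|) ^ 2 * (2 + ‖s‖) ^ 2))) := by
          apply mul_le_mul_of_nonneg_left _ (by positivity)
          apply mul_le_mul_of_nonneg_left hmn (by positivity)
      _ = _ := by rw [hD]; ring
  have h9 : (k : ℝ) * (E s).re ≤ Real.log (D * (2 + ‖s‖) ^ 4) := by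
    rw [← Real.log_exp ((k : ℝ) * (E s).re)]
    exact Real.log_le_log (Real.exp_pos _) h8
  rw [Real.log_mul hD0.ne' (by positivity), Real.log_pow] at h9
  simpa using h9

/-- **The engine.** -/
theorem engine (ha : ∀ j, 1 ≤ a j) (hμ : ∀ j, μ j (Icc (a j) (b j))ᶜ = 0)
    (hV : ∀ σ : ℝ, 1 / 2 < σ → Summable fun j => a j ^ (-(2 * σ)))
    (hS : ∀ σ : ℝ, 1 / 2 < σ → Summable fun j => (b j - a j) * a j ^ (-σ - 1))
    (A : ℕ → Set ℝ) (hA : ∀ j, μ j (A j)ᶜ = 0) (hAI : ∀ j, A j ⊆ Icc (a j) (b j)) :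
    ∃ p : ℕ → ℝ, (∀ j, p j ∈ A j) ∧
      (∀ s : ℂ, 1 / 2 < s.re → Summable fun j => Xt (μ j) (p j) s) ∧
      DifferentiableOn ℂ (fun s => ∑' j, Xt (μ j) (p j) s) {s : ℂ | 1 / 2 < s.re} ∧
      ∀ ε : ℝ, 0 < ε → ∃ C : ℝ, ∀ s : ℂ, 1 / 2 + ε ≤ s.re →
        |(∑' j, Xt (μ j) (p j) s).re| ≤ C + ε * Real.log (2 + ‖s‖) := by
  obtain ⟨p, hpA, hint⟩ := exists_p ha hμ A hA
  have hp : ∀ j, p j ∈ Icc (a j) (b j) := fun j => hAI j (hpA j)
  refine ⟨p, hpA, fun s hs => summable_Xt ha hμ hS hp hs, differentiableOn_tsum_Xt ha hμ hS hp, ?_⟩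
  intro ε hε
  obtain ⟨k, hk⟩ := exists_nat_gt (4 / ε)
  have hk0 : (0 : ℝ) < k := lt_trans (by positivity) hk
  have hkne : (k : ℤ) ≠ 0 := by
    have : (k : ℝ) ≠ 0 := hk0.ne'
    exact_mod_cast this
  have hkε : 4 / (k : ℝ) ≤ ε := by
    rw [div_le_iff₀ hk0]
    rw [div_lt_iff₀ hε] at hk
    linarith
  have hkε' : 1 / (k : ℝ) ≤ ε := by
    refine le_trans ?_ hkε
    apply div_le_div_of_nonneg_right _ hk0.le
    norm_num
  obtain ⟨C1, h1⟩ := exp_bound ha hμ hV hS hp hint hε (k : ℤ) hkne (by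
    simpa [abs_of_pos hk0] using hkε')
  obtain ⟨C2, h2⟩ := exp_bound ha hμ hV hS hp hint hε (-(k : ℤ)) (by simpa using hkne) (by
    simpa [abs_of_pos hk0] using hkε')
  refine ⟨(|C1| + |C2|) / k, fun s hs => ?_⟩
  have h3 := h1 s hs
  have h4 := h2 s hs
  push_cast at h3 h4
  have hlog : 0 ≤ Real.log (2 + ‖s‖) := Real.log_nonneg (by linarith [norm_nonneg s])
  have hb1 : |(k : ℝ) * (∑' j, Xt (μ j) (p j) s).re| ≤ |C1| + |C2| + 4 * Real.log (2 + ‖s‖) := by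
    rw [abs_le]
    constructor
    · have := le_abs_self C2
      have := abs_nonneg C1
      linarith
    · have := le_abs_self C1
      have := abs_nonneg C2
      linarith
  rw [abs_mul, abs_of_pos hk0] at hb1
  have hb2 : |(∑' j, Xt (μ j) (p j) s).re| ≤ (|C1| + |C2| + 4 * Real.log (2 + ‖s‖)) / k := by
    rw [le_div_iff₀ hk0]
    linarith
  refine hb2.trans ?_
  have : (|C1| + |C2| + 4 * Real.log (2 + ‖s‖)) / k =
      (|C1| + |C2|) / k + (4 / k) * Real.log (2 + ‖s‖) := by ring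
  rw [this]
  have := mul_le_mul_of_nonneg_right hkε hlog
  linarith

end Pool.Agent.H521
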