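import Pool.Agent.H521.Windows1

open MeasureTheory Set Filter Topology
open scoped ENNReal NNReal

namespace Pool.Agent.H521

theorem eventually_one_le_of_log {G : ℝ → ℝ}
    (hGlog : Tendsto (fun x => G x / Real.log x) atTop atTop) : ∀ᶠ x in atTop, 1 ≤ G x := by
  filter_upwards [hGlog.eventually_ge_atTop 1, eventually_ge_atTop (Real.exp 1)] with x h1 h2
  have hx0 : 0 < x := lt_of_lt_of_le (Real.exp_pos 1) h2
  have h3 : 1 ≤ Real.log x := by rwa [Real.le_log_iff_exp_le hx0]
  rw [le_div_iff₀ (by linarith)] at h1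
  linarith

theorem windows_exist {f : ℝ → ℝ} {x₀ : ℝ} (hD : Dens f x₀)
    (hlow : ∀ u, x₀ ≤ u → 1 / 2 ≤ f u * Real.log u) (hlog : ∀ u, x₀ ≤ u → 2 ≤ Real.log u)
    (h4 : ∀ u, x₀ ≤ u → 4 * Real.log u ≤ u) {G : ℝ → ℝ} (hmono : Monotone G)
    (hG1 : ∀ᶠ x in atTop, 1 ≤ G x)
    (hfreq : ∀ ε : ℝ, 0 < ε → ∃ᶠ x in atTop, G x ≤ x ^ (1 / 2 + ε)) :
    ∃ a b : ℕ → ℝ, Cells f x₀ a b ∧
      (∀ j, a (j + 1) = b j ∨
        (a (j + 1) = b j + G (a j) ∧ 0 ≤ G (a j) ∧ G (a j) ≤ a j ^ (3 / 2 : ℝ))) ∧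
      ∀ δ : ℝ, 0 < δ → ∃ᶠ j in atTop, a (j + 1) = b j + G (a j) ∧ 0 ≤ G (a j) ∧
        G (b j) ≤ (1 + δ) * G (a j) := by
  classical
  choose! nb hnb1 hnb2 hnb3 using fun (a : ℝ) (ha : x₀ ≤ a) => next_exists hD hlow hlog h4 ha
  let C : ℕ → ℝ → Prop := fun k a => (2 : ℝ) ^ k ≤ a ∧ 0 ≤ G a ∧
    G (nb a) ≤ (1 + 1 / ((k : ℝ) + 1)) * G a ∧ G a ≤ a ^ (1 / 2 + 1 / ((k : ℝ) + 1))
  let st : ℕ → ℝ × ℕ := fun n => Nat.rec (x₀, 0)
    (fun _ s => if C s.2 s.1 then (nb s.1 + G s.1, s.2 + 1) else (nb s.1, s.2)) n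
  have hst0 : st 0 = (x₀, 0) := rfl
  have hst : ∀ n, st (n + 1) = if C (st n).2 (st n).1 then (nb (st n).1 + G (st n).1, (st n).2 + 1)
    else (nb (st n).1, (st n).2) := fun n => rfl
  set a : ℕ → ℝ := fun n => (st n).1 with ha
  set K : ℕ → ℕ := fun n => (st n).2 with hK
  set b : ℕ → ℝ := fun n => nb (a n) with hb
  have hyes : ∀ n, C (K n) (a n) → a (n + 1) = b n + G (a n) ∧ K (n + 1) = K n + 1 := by
    intro n hn
    have h := hst n
    rw [if_pos hn] at h
    exact ⟨congrArg Prod.fst h, congrArg Prod.snd h⟩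
  have hno : ∀ n, ¬C (K n) (a n) → a (n + 1) = b n ∧ K (n + 1) = K n := by
    intro n hn
    have h := hst n
    rw [if_neg hn] at h
    have h2 : (st (n + 1)).2 = (nb (st n).1, (st n).2).2 := congrArg Prod.snd h
    exact ⟨congrArg Prod.fst h, h2⟩
  have hax : ∀ n, x₀ ≤ a n := by
    intro n
    induction n with
    | zero => exact le_rfl
    | succ n ih =>
      have h1 := hnb1 _ ih
      by_cases hc : C (K n) (a n)
      · rw [(hyes n hc).1]
        have := hc.2.1
        simp only [hb]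
        linarith
      · rw [(hno n hc).1]
        simp only [hb]
        linarith
  have hb1 : ∀ n, a n + 1 ≤ b n := fun n => hnb1 _ (hax n)
  have hb2 : ∀ n, b n ≤ a n + 4 * Real.log (a n) := fun n => hnb2 _ (hax n)
  have hba : ∀ n, b n ≤ a (n + 1) := by
    intro n
    by_cases hc : C (K n) (a n)
    · rw [(hyes n hc).1]
      have := hc.2.1
      linarith
    · rw [(hno n hc).1]
  have ha3 : ∀ n, 3 ≤ a n := fun n => hD.hx₀.trans (hax n)
  have hKmono : Monotone K := by
    apply monotone_nat_of_le_succ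
    intro n
    by_cases hc : C (K n) (a n)
    · rw [(hyes n hc).2]; omega
    · rw [(hno n hc).2]
  have hagrow : ∀ n i : ℕ, a n + i ≤ a (n + i) := by
    intro n i
    induction i with
    | zero => simp
    | succ i ih =>
      have := hb1 (n + i)
      have := hba (n + i)
      push_cast
      rw [← add_assoc n i 1]
      linarith
  have hatop : Tendsto a atTop atTop := by
    have h1 : ∀ n : ℕ, (n : ℝ) ≤ a n := by
      intro n
      have := hagrow 0 n
      rw [zero_add] at this
      linarith [ha3 0]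
    exact tendsto_atTop_mono h1 tendsto_natCast_atTop_atTop
  -- infinitely many windows
  have hKun : ∀ n, ∃ j, n ≤ K j := by
    intro n
    induction n with
    | zero => exact ⟨0, Nat.zero_le _⟩
    | succ n ih =>
      obtain ⟨j₀, hj₀⟩ := ih
      by_contra hcon
      push Not at hcon
      have hKn : ∀ j, j₀ ≤ j → K j = n := by
        intro j hj
        have h1 := hcon j
        have h2 := hKmono hj
        omega
      have hnoC : ∀ j, j₀ ≤ j → ¬C (K j) (a j) := by
        intro j hj hc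
        have h1 := (hyes j hc).2
        rw [hKn j hj, hKn (j + 1) (by omega)] at h1
        omega
      have hfr := slow_steps (a := a) (j₀ := j₀) hmono hG1 hfreq
        (fun j hj => by rw [(hno j (hnoC j hj)).1]; exact hb1 j)
        (fun j hj => by rw [(hno j (hnoC j hj)).1]; exact hb2 j)
        (fun j _ => ha3 j) (δ := 1 / ((n : ℝ) + 1)) (ε := 1 / ((n : ℝ) + 1))
        (by positivity) (by positivity)
      have hev : ∀ᶠ j in atTop, j₀ ≤ j ∧ (2 : ℝ) ^ n ≤ a j ∧ 1 ≤ G (a j) :=
        (eventually_ge_atTop j₀).and ((hatop.eventually_ge_atTop _).and (hatop.eventually hG1))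
      obtain ⟨j, ⟨g1, g2⟩, g3, g4, g5⟩ := (hfr.and_eventually hev).exists
      apply hnoC j g3
      rw [hKn j g3]
      refine ⟨g4, by linarith, ?_, g2⟩
      rw [(hno j (hnoC j g3)).1] at g1
      exact g1
  -- summability of the windows
  have hwin : ∀ σ : ℝ, 1 / 2 < σ → Summable fun j => (a (j + 1) - b j) * b j ^ (-σ) := by
    intro σ hσ
    set η : ℝ := (σ - 1 / 2) / 2 with hη
    have hη0 : 0 < η := by rw [hη]; linarith
    obtain ⟨k₀, hk₀⟩ := exists_nat_gt (1 / η)
    obtain ⟨j₀, hj₀⟩ := hKun k₀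
    set q : ℝ := (2 : ℝ) ^ (-η) with hq
    have hq0 : 0 < q := by positivity
    have hq1 : q < 1 := Real.rpow_lt_one_of_one_lt_of_neg one_lt_two (by linarith)
    have hT0 : ∀ j, 0 ≤ (a (j + 1) - b j) * b j ^ (-σ) := fun j =>
      mul_nonneg (by linarith [hba j]) (Real.rpow_nonneg (by linarith [hb1 j, ha3 j]) _)
    have hTle : ∀ j, j₀ ≤ j → C (K j) (a j) → (a (j + 1) - b j) * b j ^ (-σ) ≤ q ^ (K j) := by
      intro j hj hc
      have hKj : k₀ ≤ K j := hj₀.trans (hKmono hj)
      have ha0 : 0 < a j := by linarith [ha3 j]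
      rw [(hyes j hc).1, add_sub_cancel_left]
      have h1 : 1 / ((K j : ℝ) + 1) ≤ η := by
        have h2 : (k₀ : ℝ) ≤ K j := by exact_mod_cast hKj
        rw [div_le_iff₀ (by positivity)]
        rw [div_lt_iff₀ hη0] at hk₀
        nlinarith
      have h2 : b j ^ (-σ) ≤ a j ^ (-σ) :=
        Real.rpow_le_rpow_of_nonpos ha0 (by linarith [hb1 j]) (by linarith)
      calc G (a j) * b j ^ (-σ) ≤ a j ^ (1 / 2 + 1 / ((K j : ℝ) + 1)) * a j ^ (-σ) :=
            mul_le_mul hc.2.2.2 h2 (Real.rpow_nonneg (by linarith [hb1 j]) _) (by positivity)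
        _ = a j ^ (1 / 2 + 1 / ((K j : ℝ) + 1) + -σ) := (Real.rpow_add ha0 _ _).symm
        _ ≤ a j ^ (-η) := by
            apply Real.rpow_le_rpow_of_exponent_le (by linarith [ha3 j])
            rw [hη] at h1 ⊢
            linarith
        _ ≤ ((2 : ℝ) ^ (K j)) ^ (-η) :=
            Real.rpow_le_rpow_of_nonpos (by positivity) hc.1 (by linarith)
        _ = q ^ (K j) := by
            rw [hq, ← Real.rpow_natCast, ← Real.rpow_mul (by norm_num), ← Real.rpow_natCast,
              ← Real.rpow_mul (by norm_num), mul_comm]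
    have hpart : ∀ n, ∑ i ∈ Finset.range n, (a (i + j₀ + 1) - b (i + j₀)) * b (i + j₀) ^ (-σ) ≤
        ∑ k ∈ Finset.range (K (n + j₀)), q ^ k := by
      intro n
      induction n with
      | zero =>
        simp only [Finset.range_zero, Finset.sum_empty]
        exact Finset.sum_nonneg fun k _ => pow_nonneg hq0.le k
      | succ n ih =>
        rw [Finset.sum_range_succ, add_right_comm n 1 j₀]
        by_cases hc : C (K (n + j₀)) (a (n + j₀))
        · rw [(hyes _ hc).2, Finset.sum_range_succ]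
          have := hTle (n + j₀) (by omega) hc
          linarith
        · rw [(hno _ hc).2, (hno _ hc).1]
          simpa using ih
    have hsum : Summable fun i => (a (i + j₀ + 1) - b (i + j₀)) * b (i + j₀) ^ (-σ) := by
      refine summable_of_sum_range_le (c := (1 - q)⁻¹) (fun i => hT0 _) fun n => ?_
      refine (hpart n).trans ?_
      rw [← tsum_geometric_of_lt_one hq0.le hq1]
      exact (summable_geometric_of_lt_one hq0.le hq1).sum_le_tsum _
        fun k _ => pow_nonneg hq0.le k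
    exact (summable_nat_add_iff (f := fun j => (a (j + 1) - b j) * b j ^ (-σ)) j₀).1 hsum
  refine ⟨a, b, ⟨rfl, hb1, hb2, fun j => hnb3 _ (hax j), hba, hwin⟩, ?_, ?_⟩
  · intro j
    by_cases hc : C (K j) (a j)
    · right
      refine ⟨(hyes j hc).1, hc.2.1, hc.2.2.2.trans ?_⟩
      apply Real.rpow_le_rpow_of_exponent_le (by linarith [ha3 j])
      have : 1 / ((K j : ℝ) + 1) ≤ 1 := by
        rw [div_le_one (by positivity)]
        have : (0 : ℝ) ≤ K j := Nat.cast_nonneg _
        linarith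
      linarith
    · left
      exact (hno j hc).1
  · intro δ hδ
    rw [frequently_atTop]
    intro N
    obtain ⟨m, hm⟩ := exists_nat_gt (1 / δ)
    set n := max m (K N + 1) with hn
    have hex := hKun (n + 1)
    set j := Nat.find hex with hj
    have hj1 : n + 1 ≤ K j := Nat.find_spec hex
    have hj0 : j ≠ 0 := by
      intro h0
      rw [h0] at hj1
      have : K 0 = 0 := rfl
      omega
    obtain ⟨i, hi⟩ : ∃ i, j = i + 1 := ⟨j - 1, by omega⟩
    have hi1 : ¬(n + 1 ≤ K i) := Nat.find_min hex (by omega)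
    rw [hi] at hj1
    have hCi : C (K i) (a i) := by
      by_contra hc
      rw [(hno i hc).2] at hj1
      exact hi1 hj1
    have hKi : K i = n := by
      have := (hyes i hCi).2
      omega
    refine ⟨i, ?_, (hyes i hCi).1, hCi.2.1, hCi.2.2.1.trans ?_⟩
    · by_contra hc
      push Not at hc
      have h1 := hKmono hc.le
      have h2 : K N + 1 ≤ n := le_max_right _ _
      omega
    · apply mul_le_mul_of_nonneg_right _ hCi.2.1
      rw [hKi]
      have h1 : (m : ℝ) ≤ n := by exact_mod_cast le_max_left m (K N + 1)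
      have h2 : 1 / ((n : ℝ) + 1) ≤ δ := by
        rw [div_le_iff₀ (by positivity)]
        rw [div_lt_iff₀ hδ] at hm
        nlinarith
      linarith

end Pool.Agent.H521
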