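import Pool.Agent.H521.GapBound
import Pool.Agent.H521.Count3
import Pool.Agent.H521.Windows2

open MeasureTheory Set Filter Topology
open scoped ENNReal NNReal ComplexConjugate

namespace Pool.Agent.H521

/-- The residue is a positive real number. -/
theorem kappa_pos {p : ℕ → ℝ} (hp : ∀ j, 2 ≤ p j) {H : ℂ → ℂ}
    (hH : DifferentiableOn ℂ H {s : ℂ | 1 / 2 < s.re})
    (hz : ∀ s : ℂ, 1 < s.re → (s - 1) * zetaB p s = H s) (hne : H 1 ≠ 0) :
    ∃ κ : ℝ, 0 < κ ∧ H 1 = κ := by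
  have hg : ∀ e, 0 < gint p e := gint_pos fun j => one_le_two.trans (hp j)
  have hreal : ∀ σ : ℝ, 1 < σ → H (σ : ℂ) =
      (((σ - 1) * ∑' e : ℕ →₀ ℕ, gint p e ^ (-σ) : ℝ) : ℂ) := by
    intro σ hσ
    rw [← hz (σ : ℂ) (by simpa using hσ)]
    unfold zetaB
    have : ∀ e : ℕ →₀ ℕ, ((gint p e : ℝ) : ℂ) ^ (-(σ : ℂ)) = ((gint p e ^ (-σ) : ℝ) : ℂ) := by
      intro e
      rw [Complex.ofReal_cpow (hg e).le]
      simp
    simp_rw [this]
    rw [← Complex.ofReal_tsum]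
    push_cast
    ring
  have hcont : Tendsto (fun σ : ℝ => H (σ : ℂ)) (𝓝[>] 1) (𝓝 (H 1)) := by
    have h1 : ContinuousAt H 1 := by
      apply (hH.differentiableAt _).continuousAt
      apply (isOpen_lt continuous_const Complex.continuous_re).mem_nhds
      simp; norm_num
    have h2 : Tendsto (fun σ : ℝ => (σ : ℂ)) (𝓝[>] 1) (𝓝 (1 : ℂ)) := by
      have h3 : Tendsto (fun σ : ℝ => (σ : ℂ)) (𝓝 1) (𝓝 ((1 : ℝ) : ℂ)) :=
        Complex.continuous_ofReal.tendsto 1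
      rw [Complex.ofReal_one] at h3
      exact h3.mono_left nhdsWithin_le_nhds
    exact h1.tendsto.comp h2
  have him : (H 1).im = 0 := by
    have h1 : Tendsto (fun σ : ℝ => (H (σ : ℂ)).im) (𝓝[>] 1) (𝓝 (H 1).im) :=
      (Complex.continuous_im.tendsto _).comp hcont
    have h2 : Tendsto (fun σ : ℝ => (H (σ : ℂ)).im) (𝓝[>] 1) (𝓝 0) := by
      apply tendsto_const_nhds.congr'
      filter_upwards [self_mem_nhdsWithin] with σ hσ
      rw [hreal σ hσ, Complex.ofReal_im]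
    exact tendsto_nhds_unique h1 h2
  have hre : 0 ≤ (H 1).re := by
    have h1 : Tendsto (fun σ : ℝ => (H (σ : ℂ)).re) (𝓝[>] 1) (𝓝 (H 1).re) :=
      (Complex.continuous_re.tendsto _).comp hcont
    apply ge_of_tendsto h1
    filter_upwards [self_mem_nhdsWithin] with σ hσ
    rw [hreal σ hσ, Complex.ofReal_re]
    have hσ' : (1 : ℝ) < σ := hσ
    apply mul_nonneg (by linarith)
    exact tsum_nonneg fun e => Real.rpow_nonneg (hg e).le _
  refine ⟨(H 1).re, ?_, ?_⟩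
  · rcases eq_or_lt_of_le hre with h | h
    · exfalso
      apply hne
      apply Complex.ext
      · simpa using h.symm
      · simpa using him
    · exact h
  · apply Complex.ext
    · simp
    · simpa using him

theorem prod_sub_ne_zero {Z : Multiset ℂ} {s : ℂ} (h : ∀ ρ ∈ Z, ρ ≠ s) :
    (Z.map fun ρ => s - ρ).prod ≠ 0 := by
  intro h0
  rw [Multiset.prod_eq_zero_iff, Multiset.mem_map] at h0
  obtain ⟨ρ, hρ, h1⟩ := h0
  exact h ρ hρ (sub_eq_zero.1 h1).symm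

/-- Everything about the constructed system. -/
theorem full_system {Z : Multiset ℂ} (hZ : ∀ ρ ∈ Z, ρ.re < 1) (hZc : Z.map conj = Z)
    {x₀ : ℝ} (hD : Dens (fZ Z) x₀) {a b : ℕ → ℝ} (h : Cells (fZ Z) x₀ a b) :
    ∃ p : ℕ → ℝ, (∀ j, p j ∈ Ico (a j) (b j)) ∧
      (∃ g : ℂ → ℂ, DifferentiableOn ℂ g {s : ℂ | 1 / 2 < s.re} ∧
        (∀ s : ℂ, 1 < s.re → (s - 1) * zetaB p s = (Z.map fun ρ => s - ρ).prod *
          Complex.exp (g s)) ∧
        ∀ ε : ℝ, 0 < ε → ∃ C : ℝ, ∀ s : ℂ, 1 / 2 + ε ≤ s.re →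
          ‖(Z.map fun ρ => s - ρ).prod * Complex.exp (g s)‖ ≤ C * (1 + ‖s‖) ^ (1 + ε)) ∧
      (∃ κ : ℝ, 0 < κ ∧ ∀ ε : ℝ, 0 < ε → ∃ C : ℝ, ∀ x : ℝ, 1 ≤ x →
        |(countInt p x : ℝ) - κ * x| ≤ C * x ^ (1 / 2 + ε)) ∧
      (∀ ε : ℝ, 0 < ε → ∃ C : ℝ, ∀ x : ℝ, 2 ≤ x →
        |(countPr p x : ℝ) - mainTerm Z x| ≤ C * x ^ (1 / 2 + ε)) ∧
      (∀ s : ℂ, 1 < s.re → Summable fun e : ℕ →₀ ℕ => ((gint p e : ℝ) : ℂ) ^ (-s)) := by
  obtain ⟨p, hp, g, hgd, hgz, hgb⟩ := zeta_system hZ hZc hD h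
  have ha3 := h.a_ge3 hD
  have hp2 : ∀ j, 2 ≤ p j := fun j => by linarith [(hp j).1, ha3 j]
  have hV : ∀ τ : ℝ, 1 < τ → Summable fun j => p j ^ (-τ) := by
    intro τ hτ
    refine Summable.of_nonneg_of_le (fun j => Real.rpow_nonneg (by linarith [hp2 j]) _)
      (fun j => ?_) (h.summable_pow hD hτ)
    exact Real.rpow_le_rpow_of_nonpos (by linarith [ha3 j]) (hp j).1 (by linarith)
  set H : ℂ → ℂ := fun s => (Z.map fun ρ => s - ρ).prod * Complex.exp (g s) with hH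
  have hHd : DifferentiableOn ℂ H {s : ℂ | 1 / 2 < s.re} := by
    apply DifferentiableOn.mul _ hgd.cexp
    have : ∀ Y : Multiset ℂ, Differentiable ℂ fun s : ℂ => (Y.map fun ρ => s - ρ).prod := by
      intro Y
      induction Y using Multiset.induction_on with
      | empty => simp
      | cons ρ Y ih =>
        simp only [Multiset.map_cons, Multiset.prod_cons]
        exact (differentiable_id.sub_const ρ).mul ih
    exact (this Z).differentiableOn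
  have hne : H 1 ≠ 0 := by
    apply mul_ne_zero _ (Complex.exp_ne_zero _)
    apply prod_sub_ne_zero
    intro ρ hρ h1
    have := hZ ρ hρ
    rw [h1] at this
    simp at this
  obtain ⟨κ, hκ0, hκ⟩ := kappa_pos hp2 hHd hgz hne
  refine ⟨p, hp, ⟨g, hgd, hgz, ?_⟩, ⟨κ, hκ0, fun ε hε => ?_⟩, fun ε hε => pi_asymp hZ hD h hp hε,
    fun s hs => ?_⟩
  · intro ε hε
    obtain ⟨C, hC⟩ := hgb ε hε
    refine ⟨|C| * 2 ^ ε, fun s hs => (hC s hs).trans ?_⟩
    have h0 : 0 ≤ ‖s‖ := norm_nonneg s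
    have h1 : (2 + ‖s‖) ^ ε ≤ 2 ^ ε * (1 + ‖s‖) ^ ε := by
      rw [← Real.mul_rpow (by norm_num) (by positivity)]
      exact Real.rpow_le_rpow (by positivity) (by linarith) hε.le
    calc C * ‖s‖ * (2 + ‖s‖) ^ ε ≤ |C| * (1 + ‖s‖) * (2 ^ ε * (1 + ‖s‖) ^ ε) := by
          apply mul_le_mul _ h1 (by positivity) (by positivity)
          apply mul_le_mul (le_abs_self C) (by linarith) h0 (abs_nonneg C)
      _ = |C| * 2 ^ ε * (1 + ‖s‖) ^ (1 + ε) := by
          rw [Real.rpow_add (by positivity), Real.rpow_one]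
          ring
  · exact count_asymp hp2 hV hHd hκ hgz (fun ε hε => hgb ε hε) hε
  · exact (summable_gint p hp2 s hs.le (hV _ hs)).of_norm

end Pool.Agent.H521
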