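import Pool.Agent.H521.PrimeCount

open MeasureTheory Set Filter Topology
open scoped ENNReal NNReal ComplexConjugate

namespace Pool.Agent.H521

theorem countPr_eq {p : ℕ → ℝ} (hp : StrictMono p) {n : ℕ} {x : ℝ} (h1 : p n ≤ x)
    (h2 : x < p (n + 1)) : countPr p x = n + 1 := by
  unfold countPr
  have : {j : ℕ | p j ≤ x} = (↑(Finset.range (n + 1)) : Set ℕ) := by
    ext j
    simp only [mem_ofPred_eq, Finset.coe_range, mem_Iio]
    constructor
    · intro hj
      by_contra hc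
      have := hp.monotone (by omega : n + 1 ≤ j)
      linarith
    · intro hj
      have := hp.monotone (by omega : j ≤ n)
      linarith
  rw [this, Set.ncard_coe_finset, Finset.card_range]

theorem main_lower {Z : Multiset ℂ} (hZ : ∀ ρ ∈ Z, ρ.re < 1) :
    ∃ x₁ : ℝ, 3 ≤ x₁ ∧ ∀ a b : ℝ, x₁ ≤ a → a ≤ b →
      (b - a) / (2 * Real.log b) ≤ mainTerm Z b - mainTerm Z a := by
  have h1 : ∀ᶠ u : ℝ in atTop, osc Z u ≤ 1 / 2 :=
    (tendsto_osc hZ).eventually_le_const (by norm_num)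
  obtain ⟨x₁, hx₁⟩ := eventually_atTop.1 (h1.and (eventually_ge_atTop 3))
  refine ⟨x₁, (hx₁ x₁ le_rfl).2, fun a b ha hab => ?_⟩
  have ha3 : 3 ≤ a := (hx₁ x₁ le_rfl).2.trans ha
  have hd : mainTerm Z b - mainTerm Z a = ∫ u in a..b, (1 - osc Z u) / Real.log u := by
    unfold mainTerm
    rw [sub_eq_iff_eq_add, add_comm]
    exact (intervalIntegral.integral_add_adjacent_intervals
        (main_ii Z (by norm_num) (by linarith)) (main_ii Z (by linarith) hab)).symm
  rw [hd]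
  have hlb : 0 < Real.log b := Real.log_pos (by linarith)
  have hmono := intervalIntegral.integral_mono_on hab
      (intervalIntegrable_const (c := 1 / (2 * Real.log b))) (main_ii Z (by linarith) hab)
      (fun u hu => by
        have h2 := (hx₁ u (ha.trans hu.1)).1
        have h3 : 0 < Real.log u := Real.log_pos (by linarith [hu.1])
        have h4 : Real.log u ≤ Real.log b := Real.log_le_log (by linarith [hu.1]) hu.2
        rw [div_le_div_iff₀ (by positivity) h3]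
        nlinarith)
  rw [intervalIntegral.integral_const, smul_eq_mul] at hmono
  calc (b - a) / (2 * Real.log b) = (b - a) * (1 / (2 * Real.log b)) := by ring
    _ ≤ _ := hmono

/-- The gap bound forced by the prime number theorem with square-root error. -/
theorem gap_bound {Z : Multiset ℂ} (hZ : ∀ ρ ∈ Z, ρ.re < 1) {p : ℕ → ℝ} (hp : StrictMono p)
    (hpt : Tendsto p atTop atTop)
    (hpi : ∀ ε : ℝ, 0 < ε → ∃ C : ℝ, ∀ x : ℝ, 2 ≤ x →
      |(countPr p x : ℝ) - mainTerm Z x| ≤ C * x ^ (1 / 2 + ε)) {ε : ℝ} (hε : 0 < ε) :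
    ∀ᶠ n in atTop, p (n + 1) - p n ≤ p n ^ (1 / 2 + ε) := by
  set ε₁ : ℝ := min ε (1 / 4) with hε₁
  have hε₁0 : 0 < ε₁ := by rw [hε₁]; positivity
  have hε₁4 : ε₁ ≤ 1 / 4 := min_le_right _ _
  have hε₁ε : ε₁ ≤ ε := min_le_left _ _
  obtain ⟨C, hC⟩ := hpi (ε₁ / 2) (by positivity)
  obtain ⟨x₁, hx₁3, hx₁⟩ := main_lower hZ
  -- eventual inequality
  have hev : ∀ᶠ x : ℝ in atTop, 2 * (2 * Real.log x) * (2 * (|C| + 1) * (2 * x) ^ (1 / 2 + ε₁ / 2)) <
      x ^ (1 / 2 + ε₁) := by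
    have hl := (isLittleO_log_rpow_atTop (by positivity : (0 : ℝ) < ε₁ / 4))
    have b1 := hl.bound (c := 1) one_pos
    have b2 : ∀ᶠ x : ℝ in atTop, 8 * (|C| + 1) * 2 ^ (1 / 2 + ε₁ / 2) < x ^ (ε₁ / 4) :=
      (tendsto_rpow_atTop (by positivity)).eventually_gt_atTop _
    filter_upwards [b1, b2, eventually_ge_atTop 3] with x hx1 hx2 hx3
    have hx0 : 0 < x := by linarith
    have hlx : 0 < Real.log x := Real.log_pos (by linarith)
    rw [Real.norm_eq_abs, abs_of_nonneg hlx.le, Real.norm_eq_abs,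
      abs_of_nonneg (Real.rpow_nonneg hx0.le _), one_mul] at hx1
    have e1 : x ^ (1 / 2 + ε₁) = x ^ (1 / 2 + ε₁ / 2) * (x ^ (ε₁ / 4) * x ^ (ε₁ / 4)) := by
      rw [← Real.rpow_add hx0, ← Real.rpow_add hx0]
      congr 1
      ring
    rw [e1, Real.mul_rpow (by norm_num) hx0.le]
    have e2 : 2 * (2 * Real.log x) * (2 * (|C| + 1) * (2 ^ (1 / 2 + ε₁ / 2) *
        x ^ (1 / 2 + ε₁ / 2))) = x ^ (1 / 2 + ε₁ / 2) *
        ((8 * (|C| + 1) * 2 ^ (1 / 2 + ε₁ / 2)) * Real.log x) := by ring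
    rw [e2]
    apply mul_lt_mul_of_pos_left _ (Real.rpow_pos_of_pos hx0 _)
    calc 8 * (|C| + 1) * 2 ^ (1 / 2 + ε₁ / 2) * Real.log x <
          x ^ (ε₁ / 4) * Real.log x := mul_lt_mul_of_pos_right hx2 hlx
      _ ≤ _ := mul_le_mul_of_nonneg_left hx1 (Real.rpow_nonneg hx0.le _)
  filter_upwards [hpt.eventually hev, hpt.eventually_ge_atTop x₁] with n h1 h2
  have hp3 : 3 ≤ p n := hx₁3.trans h2
  have hp0 : 0 < p n := by linarith
  by_contra hcon
  push Not at hcon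
  set y : ℝ := p n ^ (1 / 2 + ε₁) with hy
  have hy0 : 0 < y := Real.rpow_pos_of_pos hp0 _
  have hyle : y ≤ p n ^ (1 / 2 + ε) := Real.rpow_le_rpow_of_exponent_le (by linarith) (by linarith)
  have hyp : y ≤ p n := by
    calc y ≤ p n ^ (1 : ℝ) := Real.rpow_le_rpow_of_exponent_le (by linarith) (by linarith)
      _ = p n := Real.rpow_one _
  set x : ℝ := p n + y with hx
  have hx2p : x ≤ 2 * p n := by linarith
  have hxq : x < p (n + 1) := by linarith
  have hc1 := countPr_eq hp (n := n) (x := x) (by linarith) hxq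
  have hc2 := countPr_eq hp (n := n) (x := p n) le_rfl (by linarith)
  have hm := hx₁ (p n) x h2 (by linarith)
  have d1 := hC x (by linarith)
  have d2 := hC (p n) (by linarith)
  rw [hc1] at d1
  rw [hc2] at d2
  have d3 : mainTerm Z x - mainTerm Z (p n) ≤ C * x ^ (1 / 2 + ε₁ / 2) +
      C * (p n) ^ (1 / 2 + ε₁ / 2) := by
    have := (abs_le.1 d1).1
    have := (abs_le.1 d2).2
    linarith
  have d4 : C * x ^ (1 / 2 + ε₁ / 2) + C * (p n) ^ (1 / 2 + ε₁ / 2) ≤
      2 * (|C| + 1) * (2 * p n) ^ (1 / 2 + ε₁ / 2) := by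
    have g1 : x ^ (1 / 2 + ε₁ / 2) ≤ (2 * p n) ^ (1 / 2 + ε₁ / 2) :=
      Real.rpow_le_rpow (by linarith) hx2p (by linarith)
    have g2 : (p n) ^ (1 / 2 + ε₁ / 2) ≤ (2 * p n) ^ (1 / 2 + ε₁ / 2) :=
      Real.rpow_le_rpow (by linarith) (by linarith) (by linarith)
    have g3 : C ≤ |C| + 1 := by linarith [le_abs_self C]
    have g4 : 0 ≤ x ^ (1 / 2 + ε₁ / 2) := Real.rpow_nonneg (by linarith) _
    have g5 : 0 ≤ (p n) ^ (1 / 2 + ε₁ / 2) := Real.rpow_nonneg (by linarith) _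
    have g6 : 0 ≤ |C| + 1 := by positivity
    calc _ ≤ (|C| + 1) * x ^ (1 / 2 + ε₁ / 2) + (|C| + 1) * (p n) ^ (1 / 2 + ε₁ / 2) := by
          gcongr
      _ ≤ (|C| + 1) * (2 * p n) ^ (1 / 2 + ε₁ / 2) +
          (|C| + 1) * (2 * p n) ^ (1 / 2 + ε₁ / 2) := by gcongr
      _ = _ := by ring
  have hxmp : x - p n = y := by rw [hx]; ring
  have hlogx : Real.log x ≤ 2 * Real.log (p n) := by
    calc Real.log x ≤ Real.log (p n * p n) := by
          apply Real.log_le_log (by linarith)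
          nlinarith
      _ = _ := by rw [Real.log_mul hp0.ne' hp0.ne']; ring
  have hlx0 : 0 < Real.log x := Real.log_pos (by linarith)
  rw [hxmp, div_le_iff₀ (by positivity)] at hm
  have hlp0 : 0 < Real.log (p n) := Real.log_pos (by linarith)
  have hB : 0 ≤ 2 * (|C| + 1) * (2 * p n) ^ (1 / 2 + ε₁ / 2) := by positivity
  have hfin : y ≤ 2 * (2 * Real.log (p n)) * (2 * (|C| + 1) * (2 * p n) ^ (1 / 2 + ε₁ / 2)) := by
    calc y ≤ (mainTerm Z x - mainTerm Z (p n)) * (2 * Real.log x) := hm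
      _ ≤ (2 * (|C| + 1) * (2 * p n) ^ (1 / 2 + ε₁ / 2)) * (2 * Real.log x) := by
          apply mul_le_mul_of_nonneg_right (d3.trans d4) (by positivity)
      _ ≤ (2 * (|C| + 1) * (2 * p n) ^ (1 / 2 + ε₁ / 2)) * (2 * (2 * Real.log (p n))) := by
          apply mul_le_mul_of_nonneg_left _ hB
          linarith
      _ = _ := by ring
  linarith

end Pool.Agent.H521
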