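import Mathlib

open MeasureTheory Set Filter Topology
open scoped ENNReal NNReal

namespace Pool.Agent.H521

theorem integrable_of_le_japanese {F : ℝ → ℂ} (hF : AEStronglyMeasurable F volume) {C r : ℝ}
    (hr : 1 < r) (h : ∀ y, ‖F y‖ ≤ C * (1 + |y|) ^ (-r)) : Integrable F := by
  have h1 : Integrable (fun y : ℝ => (1 + ‖y‖) ^ (-r)) volume :=
    integrable_one_add_norm (by simpa using hr)
  refine Integrable.mono' (h1.const_mul C) hF (Eventually.of_forall fun y => ?_)
  simpa using h y

theorem norm_ge_one_add {c : ℝ} (hc : 1 / 2 ≤ c) (y : ℝ) : (1 + |y|) / 4 ≤ ‖(c : ℂ) + y * Complex.I‖ := by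
  have h1 : |((c : ℂ) + y * Complex.I).re| ≤ ‖(c : ℂ) + y * Complex.I‖ := Complex.abs_re_le_norm _
  have h2 : |((c : ℂ) + y * Complex.I).im| ≤ ‖(c : ℂ) + y * Complex.I‖ := Complex.abs_im_le_norm _
  simp only [Complex.add_re, Complex.ofReal_re, Complex.mul_re, Complex.I_re, mul_zero,
    Complex.ofReal_im, Complex.I_im, mul_one, sub_self, add_zero, Complex.add_im, Complex.mul_im,
    zero_add] at h1 h2
  rw [abs_of_nonneg (by linarith)] at h1
  linarith

/-- the indicator of `(0,1]` -/
noncomputable def ind0 : ℝ → ℂ := indicator (Ioc 0 1) (fun _ => 1)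

/-- Perron kernel, first form. -/
theorem perron1 {c : ℝ} (hc : 1 / 2 ≤ c) {u : ℝ} (hu : 0 < u) :
    ((1 / (2 * Real.pi) : ℝ) : ℂ) * ∫ y : ℝ, (u : ℂ) ^ (-((c : ℂ) + y * Complex.I)) *
      (1 / (((c : ℂ) + y * Complex.I) * ((c : ℂ) + y * Complex.I + 1))) =
      ((max 0 (1 - u) : ℝ) : ℂ) := by
  set f1 : ℝ → ℂ := fun t => indicator (Ioc (0 : ℝ) 1) (fun _ => (1 : ℂ)) t -
    indicator (Ioc (0 : ℝ) 1) (fun t : ℝ => (t : ℂ) ^ (1 : ℂ)) t with hf1
  have hM : ∀ y : ℝ, HasMellin f1 ((c : ℂ) + y * Complex.I)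
      (1 / ((c : ℂ) + y * Complex.I) - 1 / ((c : ℂ) + y * Complex.I + 1)) := by
    intro y
    have h1 := hasMellin_one_Ioc (s := (c : ℂ) + y * Complex.I) (by simp; linarith)
    have h2 := hasMellin_cpow_Ioc 1 (s := (c : ℂ) + y * Complex.I) (by simp; linarith)
    have h3 := hasMellin_sub h1.1 h2.1
    rw [h1.2, h2.2] at h3
    exact h3
  have hne : ∀ y : ℝ, ((c : ℂ) + y * Complex.I) ≠ 0 := by
    intro y h
    have := congrArg Complex.re h
    simp at this
    linarith
  have hne1 : ∀ y : ℝ, ((c : ℂ) + y * Complex.I + 1) ≠ 0 := by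
    intro y h
    have := congrArg Complex.re h
    simp at this
    linarith
  have heq : ∀ y : ℝ, mellin f1 ((c : ℂ) + y * Complex.I) =
      1 / (((c : ℂ) + y * Complex.I) * ((c : ℂ) + y * Complex.I + 1)) := by
    intro y
    rw [(hM y).2]
    have := hne y
    have := hne1 y
    field_simp
    ring
  have hint : Integrable (fun y : ℝ =>
      1 / (((c : ℂ) + y * Complex.I) * ((c : ℂ) + y * Complex.I + 1))) := by
    apply integrable_of_le_japanese (C := 16) (r := 2) _ one_lt_two
    · intro y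
      have hy : 0 < 1 + |y| := by positivity
      have h1 := norm_ge_one_add hc y
      have h2 := norm_ge_one_add (c := c + 1) (by linarith) y
      rw [norm_div, norm_one, norm_mul]
      have h3 : (((c + 1 : ℝ) : ℂ) + y * Complex.I) = (c : ℂ) + y * Complex.I + 1 := by
        push_cast; ring
      rw [h3] at h2
      rw [Real.rpow_neg hy.le,
        div_le_iff₀ (mul_pos (norm_pos_iff.2 (hne y)) (norm_pos_iff.2 (hne1 y)))]
      have h4 : ((1 + |y|) / 4) * ((1 + |y|) / 4) ≤
          ‖(c : ℂ) + y * Complex.I‖ * ‖(c : ℂ) + y * Complex.I + 1‖ :=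
        mul_le_mul h1 h2 (by positivity) (norm_nonneg _)
      have h5 : (1 + |y|) ^ (2 : ℝ) = (1 + |y|) * (1 + |y|) := by
        rw [show (2 : ℝ) = ((2 : ℕ) : ℝ) by norm_num, Real.rpow_natCast]; ring
      rw [h5]
      have h6 : 0 < ((1 + |y|) * (1 + |y|))⁻¹ := by positivity
      calc (1 : ℝ) = 16 * ((1 + |y|) * (1 + |y|))⁻¹ * (((1 + |y|) / 4) * ((1 + |y|) / 4)) := by
            field_simp; norm_num
        _ ≤ _ := mul_le_mul_of_nonneg_left h4 (by positivity)
    · apply Continuous.aestronglyMeasurable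
      apply Continuous.div continuous_const (by fun_prop)
      intro y
      exact mul_ne_zero (hne y) (hne1 y)
  have hcont : ContinuousAt f1 u := by
    have h1 : (fun t : ℝ => ((max 0 (1 - t) : ℝ) : ℂ)) =ᶠ[𝓝 u] f1 := by
      filter_upwards [lt_mem_nhds hu] with t ht
      rw [hf1]
      simp only
      by_cases h : t ≤ 1
      · have : t ∈ Ioc (0 : ℝ) 1 := ⟨ht, h⟩
        rw [indicator_of_mem this, indicator_of_mem this, max_eq_right (by linarith)]
        simp
      · have : t ∉ Ioc (0 : ℝ) 1 := fun h' => h h'.2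
        rw [indicator_of_notMem this, indicator_of_notMem this, max_eq_left (by linarith)]
        simp
    apply ContinuousAt.congr _ h1
    apply Continuous.continuousAt
    exact Complex.continuous_ofReal.comp (continuous_const.max (continuous_const.sub continuous_id))
  have hval : f1 u = ((max 0 (1 - u) : ℝ) : ℂ) := by
    rw [hf1]
    simp only
    by_cases h : u ≤ 1
    · have : u ∈ Ioc (0 : ℝ) 1 := ⟨hu, h⟩
      rw [indicator_of_mem this, indicator_of_mem this, max_eq_right (by linarith)]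
      simp
    · have : u ∉ Ioc (0 : ℝ) 1 := fun h' => h h'.2
      rw [indicator_of_notMem this, indicator_of_notMem this, max_eq_left (by linarith)]
      simp
  have hinv := mellinInv_mellin_eq c f1 hu (by simpa using (hM 0).1) (by
    unfold Complex.VerticalIntegrable
    simp_rw [heq]
    exact hint) hcont
  rw [← hval, ← hinv]
  unfold mellinInv
  simp_rw [heq, smul_eq_mul]
  rw [Complex.real_smul]

/-- Perron kernel, second form. -/
theorem perron2 {c : ℝ} (hc : 3 / 2 ≤ c) {x : ℝ} (hx : 1 ≤ x) :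
    ((1 / (2 * Real.pi) : ℝ) : ℂ) * ∫ y : ℝ, (x : ℂ) ^ ((c : ℂ) + y * Complex.I) *
      (1 / (((c : ℂ) + y * Complex.I - 1) * ((c : ℂ) + y * Complex.I + 1))) =
      (((x - 1 / x) / 2 : ℝ) : ℂ) := by
  have hx0 : 0 < x := by linarith
  set f1 : ℝ → ℂ := fun t => (1 / 2 : ℂ) • (indicator (Ioc (0 : ℝ) 1) (fun t : ℝ => (t : ℂ) ^ (-1 : ℂ)) t -
    indicator (Ioc (0 : ℝ) 1) (fun t : ℝ => (t : ℂ) ^ (1 : ℂ)) t) with hf1
  have hM : ∀ y : ℝ, HasMellin f1 ((c : ℂ) + y * Complex.I)
      ((1 / 2 : ℂ) • (1 / ((c : ℂ) + y * Complex.I + -1) - 1 / ((c : ℂ) + y * Complex.I + 1))) := by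
    intro y
    have h1 := hasMellin_cpow_Ioc (-1) (s := (c : ℂ) + y * Complex.I) (by simp; linarith)
    have h2 := hasMellin_cpow_Ioc 1 (s := (c : ℂ) + y * Complex.I) (by simp; linarith)
    have h3 := hasMellin_sub h1.1 h2.1
    rw [h1.2, h2.2] at h3
    have h4 := hasMellin_const_smul h3.1 (1 / 2 : ℂ)
    rw [h3.2] at h4
    exact h4
  have hne : ∀ y : ℝ, ((c : ℂ) + y * Complex.I - 1) ≠ 0 := by
    intro y h
    have := congrArg Complex.re h
    simp at this
    linarith
  have hne1 : ∀ y : ℝ, ((c : ℂ) + y * Complex.I + 1) ≠ 0 := by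
    intro y h
    have := congrArg Complex.re h
    simp at this
    linarith
  have heq : ∀ y : ℝ, mellin f1 ((c : ℂ) + y * Complex.I) =
      1 / (((c : ℂ) + y * Complex.I - 1) * ((c : ℂ) + y * Complex.I + 1)) := by
    intro y
    have key : ∀ z : ℂ, z - 1 ≠ 0 → z + 1 ≠ 0 →
        (1 / 2 : ℂ) • (1 / (z - 1) - 1 / (z + 1)) = 1 / ((z - 1) * (z + 1)) := by
      intro z h1 h2
      rw [smul_eq_mul]
      field_simp
      ring
    rw [(hM y).2, ← sub_eq_add_neg]
    exact key _ (hne y) (hne1 y)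
  have hint : Integrable (fun y : ℝ =>
      1 / (((c : ℂ) + y * Complex.I - 1) * ((c : ℂ) + y * Complex.I + 1))) := by
    apply integrable_of_le_japanese (C := 16) (r := 2) _ one_lt_two
    · intro y
      have hy : 0 < 1 + |y| := by positivity
      have h1 := norm_ge_one_add (c := c - 1) (by linarith) y
      have h2 := norm_ge_one_add (c := c + 1) (by linarith) y
      rw [norm_div, norm_one, norm_mul]
      have h3 : (((c + 1 : ℝ) : ℂ) + y * Complex.I) = (c : ℂ) + y * Complex.I + 1 := by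
        push_cast; ring
      have h3' : (((c - 1 : ℝ) : ℂ) + y * Complex.I) = (c : ℂ) + y * Complex.I - 1 := by
        push_cast; ring
      rw [h3] at h2
      rw [h3'] at h1
      rw [Real.rpow_neg hy.le,
        div_le_iff₀ (mul_pos (norm_pos_iff.2 (hne y)) (norm_pos_iff.2 (hne1 y)))]
      have h4 : ((1 + |y|) / 4) * ((1 + |y|) / 4) ≤
          ‖(c : ℂ) + y * Complex.I - 1‖ * ‖(c : ℂ) + y * Complex.I + 1‖ :=
        mul_le_mul h1 h2 (by positivity) (norm_nonneg _)
      have h5 : (1 + |y|) ^ (2 : ℝ) = (1 + |y|) * (1 + |y|) := by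
        rw [show (2 : ℝ) = ((2 : ℕ) : ℝ) by norm_num, Real.rpow_natCast]; ring
      rw [h5]
      calc (1 : ℝ) = 16 * ((1 + |y|) * (1 + |y|))⁻¹ * (((1 + |y|) / 4) * ((1 + |y|) / 4)) := by
            field_simp; norm_num
        _ ≤ _ := mul_le_mul_of_nonneg_left h4 (by positivity)
    · apply Continuous.aestronglyMeasurable
      apply Continuous.div continuous_const (by fun_prop)
      intro y
      exact mul_ne_zero (hne y) (hne1 y)
  have hu : (0 : ℝ) < 1 / x := by positivity
  have hu1 : 1 / x ≤ 1 := by rw [div_le_one hx0]; exact hx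
  -- an everywhere continuous model
  have hmodel : ∀ t : ℝ, 0 < t → f1 t = ((max 0 ((1 / t - t) / 2) : ℝ) : ℂ) := by
    intro t ht
    have htne : (t : ℂ) ≠ 0 := by exact_mod_cast ht.ne'
    rw [hf1]
    simp only
    by_cases h : t ≤ 1
    · have hm : t ∈ Ioc (0 : ℝ) 1 := ⟨ht, h⟩
      have h1 : t ≤ 1 / t := by
        rw [le_div_iff₀ ht]; nlinarith
      rw [indicator_of_mem hm, indicator_of_mem hm, max_eq_right (by linarith)]
      rw [Complex.cpow_neg_one, Complex.cpow_one, smul_eq_mul]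
      push_cast
      field_simp
    · have hm : t ∉ Ioc (0 : ℝ) 1 := fun h' => h h'.2
      push Not at h
      have h1 : 1 / t ≤ t := by
        rw [div_le_iff₀ ht]; nlinarith
      rw [indicator_of_notMem hm, indicator_of_notMem hm, max_eq_left (by linarith)]
      simp
  have hcont : ContinuousAt f1 (1 / x) := by
    have h1 : (fun t : ℝ => ((max 0 ((1 / t - t) / 2) : ℝ) : ℂ)) =ᶠ[𝓝 (1 / x)] f1 := by
      filter_upwards [lt_mem_nhds hu] with t ht
      exact (hmodel t ht).symm
    apply ContinuousAt.congr _ h1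
    apply Complex.continuous_ofReal.continuousAt.comp
    apply Filter.Tendsto.max tendsto_const_nhds
    apply Filter.Tendsto.div_const
    exact (continuousAt_const.div continuousAt_id hu.ne').sub continuousAt_id
  have hval : f1 (1 / x) = (((x - 1 / x) / 2 : ℝ) : ℂ) := by
    rw [hmodel _ hu, one_div_one_div, max_eq_right]
    have : 1 / x ≤ x := hu1.trans hx
    linarith
  have hinv := mellinInv_mellin_eq c f1 hu (by simpa using (hM 0).1) (by
    unfold Complex.VerticalIntegrable
    simp_rw [heq]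
    exact hint) hcont
  rw [← hval, ← hinv]
  unfold mellinInv
  simp_rw [heq, smul_eq_mul]
  rw [Complex.real_smul]
  congr 1
  apply integral_congr_ae
  filter_upwards with y
  congr 1
  rw [Complex.cpow_neg, one_div, Complex.ofReal_inv, Complex.inv_cpow, inv_inv]
  rw [Complex.arg_ofReal_of_nonneg hx0.le]
  exact Real.pi_ne_zero.symm

end Pool.Agent.H521
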