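import Pool.Agent.H521.ZetaSystem

open MeasureTheory Set Filter Topology
open scoped ENNReal NNReal ComplexConjugate

namespace Pool.Agent.H521

/-- The counting function of the generalised primes. -/
noncomputable def countPr (p : ℕ → ℝ) (x : ℝ) : ℕ := Set.ncard {j : ℕ | p j ≤ x}

theorem Dens.ii {f : ℝ → ℝ} {x₀ a b : ℝ} (hD : Dens f x₀) (ha : x₀ ≤ a) (hab : a ≤ b) :
    IntervalIntegrable f volume a b := by
  apply ContinuousOn.intervalIntegrable
  rw [uIcc_of_le hab]
  exact hD.cont.mono (fun u hu => ha.trans hu.1)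

theorem Dens.int_nonneg {f : ℝ → ℝ} {x₀ a b : ℝ} (hD : Dens f x₀) (ha : x₀ ≤ a) (hab : a ≤ b) :
    0 ≤ ∫ u in a..b, f u :=
  intervalIntegral.integral_nonneg hab fun u hu => hD.nonneg u (ha.trans hu.1)

theorem Dens.int_le {f : ℝ → ℝ} {x₀ a b : ℝ} (hD : Dens f x₀) (ha : x₀ ≤ a) (hab : a ≤ b) :
    ∫ u in a..b, f u ≤ b - a := by
  have h := intervalIntegral.integral_mono_on hab (hD.ii ha hab)
    (intervalIntegrable_const (c := (1 : ℝ))) (fun u hu => hD.le_one u (ha.trans hu.1))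
  simpa using h

theorem Dens.int_mono {f : ℝ → ℝ} {x₀ a b : ℝ} (hD : Dens f x₀) (ha : x₀ ≤ a) (hab : a ≤ b) :
    ∫ u in x₀..a, f u ≤ ∫ u in x₀..b, f u := by
  rw [← intervalIntegral.integral_add_adjacent_intervals (hD.ii le_rfl ha) (hD.ii ha hab)]
  have := hD.int_nonneg ha hab
  linarith

theorem Cells.F_a {f : ℝ → ℝ} {x₀ : ℝ} {a b : ℕ → ℝ} (hD : Dens f x₀) (h : Cells f x₀ a b)
    (n : ℕ) : ∫ u in x₀..a n, f u = n + ∑ j ∈ Finset.range n, ∫ u in b j..a (j + 1), f u := by
  induction n with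
  | zero => simp [h.a0]
  | succ n ih =>
    have hax := h.a_ge_x hD n
    have hab := h.a_le_b n
    rw [Finset.sum_range_succ,
      ← intervalIntegral.integral_add_adjacent_intervals (hD.ii le_rfl hax)
        (hD.ii hax (hab.trans (h.ba n))),
      ← intervalIntegral.integral_add_adjacent_intervals (hD.ii hax hab)
        (hD.ii (hax.trans hab) (h.ba n)), ih, h.int1 n]
    push_cast
    ring

theorem Cells.F_b {f : ℝ → ℝ} {x₀ : ℝ} {a b : ℕ → ℝ} (hD : Dens f x₀) (h : Cells f x₀ a b)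
    (n : ℕ) : ∫ u in x₀..b n, f u = n + 1 + ∑ j ∈ Finset.range n, ∫ u in b j..a (j + 1), f u := by
  have hax := h.a_ge_x hD n
  have hab := h.a_le_b n
  rw [← intervalIntegral.integral_add_adjacent_intervals (hD.ii le_rfl hax) (hD.ii hax hab),
    h.F_a hD n, h.int1 n]
  ring

theorem Cells.mono_a {f : ℝ → ℝ} {x₀ : ℝ} {a b : ℕ → ℝ} (h : Cells f x₀ a b) : Monotone a :=
  monotone_nat_of_le_succ fun n => (h.a_le_b n).trans (h.ba n)

theorem Cells.b_le_a {f : ℝ → ℝ} {x₀ : ℝ} {a b : ℕ → ℝ} (h : Cells f x₀ a b) {i j : ℕ}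
    (hij : i < j) : b i ≤ a j := (h.ba i).trans (h.mono_a hij)

theorem Cells.strictMono_p {f : ℝ → ℝ} {x₀ : ℝ} {a b : ℕ → ℝ} (h : Cells f x₀ a b) {p : ℕ → ℝ}
    (hp : ∀ j, p j ∈ Ico (a j) (b j)) : StrictMono p :=
  strictMono_nat_of_lt_succ fun n =>
    lt_of_lt_of_le (hp n).2 ((h.ba n).trans (hp (n + 1)).1)

theorem Cells.tendsto_b {f : ℝ → ℝ} {x₀ : ℝ} {a b : ℕ → ℝ} (hD : Dens f x₀)
    (h : Cells f x₀ a b) : Tendsto b atTop atTop :=
  tendsto_atTop_mono h.a_le_b (h.tendsto_a hD)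

/-- prime counting against the template -/
theorem Cells.count_bound {f : ℝ → ℝ} {x₀ : ℝ} {a b : ℕ → ℝ} (hD : Dens f x₀)
    (h : Cells f x₀ a b) {p : ℕ → ℝ} (hp : ∀ j, p j ∈ Ico (a j) (b j)) {σ : ℝ} (hσ : 1 / 2 < σ)
    {x : ℝ} (hx : x₀ ≤ x) :
    |(countPr p x : ℝ) - ∫ u in x₀..x, f u| ≤
      1 + x ^ σ * ∑' j, (a (j + 1) - b j) * b j ^ (-σ) := by
  have hx0 : 0 < x := by linarith [hD.hx₀]
  have hex : ∃ n, x < b n := by
    obtain ⟨n, hn⟩ := ((h.tendsto_b hD).eventually_gt_atTop x).exists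
    exact ⟨n, hn⟩
  classical
  set n := Nat.find hex with hn
  have hn1 : x < b n := Nat.find_spec hex
  have hn2 : ∀ j < n, b j ≤ x := fun j hj => not_lt.1 (Nat.find_min hex hj)
  have hbx : ∀ j, x₀ ≤ b j := fun j => (h.a_ge_x hD j).trans (h.a_le_b j)
  have hcount1 : (n : ℝ) ≤ countPr p x := by
    have hfin : {j : ℕ | p j ≤ x}.Finite := by
      apply (Set.finite_Iic n).subset
      intro j hj
      by_contra hc
      simp only [mem_Iic, not_le] at hc
      have h1 := h.b_le_a hc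
      have h2 := (hp j).1
      simp only [mem_ofPred_eq] at hj
      linarith
    have hsub : (↑(Finset.range n) : Set ℕ) ⊆ {j : ℕ | p j ≤ x} := by
      intro j hj
      simp only [Finset.coe_range, mem_Iio] at hj
      exact (hp j).2.le.trans (hn2 j hj)
    have := Set.ncard_le_ncard hsub hfin
    rw [Set.ncard_coe_finset, Finset.card_range] at this
    exact_mod_cast this
  have hcount2 : (countPr p x : ℝ) ≤ n + 1 := by
    have hsub : {j : ℕ | p j ≤ x} ⊆ (↑(Finset.range (n + 1)) : Set ℕ) := by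
      intro j hj
      simp only [Finset.coe_range, mem_Iio]
      by_contra hc
      have h1 := h.b_le_a (by omega : n < j)
      have h2 := (hp j).1
      simp only [mem_ofPred_eq] at hj
      linarith
    have := Set.ncard_le_ncard hsub (Finset.finite_toSet _)
    rw [Set.ncard_coe_finset, Finset.card_range] at this
    exact_mod_cast this
  have hF1 : (n : ℝ) ≤ ∫ u in x₀..x, f u := by
    rcases Nat.eq_zero_or_pos n with h0 | h0
    · rw [h0]; simpa using hD.int_nonneg le_rfl hx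
    · obtain ⟨m, hm⟩ : ∃ m, n = m + 1 := ⟨n - 1, by omega⟩
      have h1 := hD.int_mono (hbx m) (hn2 m (by omega))
      rw [h.F_b hD m] at h1
      have h2 : 0 ≤ ∑ j ∈ Finset.range m, ∫ u in b j..a (j + 1), f u :=
        Finset.sum_nonneg fun j _ => hD.int_nonneg (hbx j) (h.ba j)
      rw [hm]
      push_cast
      linarith
  have hF2 : ∫ u in x₀..x, f u ≤ n + 1 + x ^ σ * ∑' j, (a (j + 1) - b j) * b j ^ (-σ) := by
    have h1 := hD.int_mono hx hn1.le
    rw [h.F_b hD n] at h1
    have h2 : ∑ j ∈ Finset.range n, ∫ u in b j..a (j + 1), f u ≤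
        ∑ j ∈ Finset.range n, x ^ σ * ((a (j + 1) - b j) * b j ^ (-σ)) := by
      apply Finset.sum_le_sum
      intro j hj
      rw [Finset.mem_range] at hj
      have hb0 : 0 < b j := by linarith [hbx j, hD.hx₀]
      refine (hD.int_le (hbx j) (h.ba j)).trans ?_
      have h3 : 1 ≤ x ^ σ * b j ^ (-σ) := by
        rw [Real.rpow_neg hb0.le, ← div_eq_mul_inv, ← Real.div_rpow hx0.le hb0.le]
        apply Real.one_le_rpow _ (by linarith)
        rw [one_le_div hb0]
        exact hn2 j hj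
      have h4 : 0 ≤ a (j + 1) - b j := by linarith [h.ba j]
      calc a (j + 1) - b j = (a (j + 1) - b j) * 1 := (mul_one _).symm
        _ ≤ (a (j + 1) - b j) * (x ^ σ * b j ^ (-σ)) := mul_le_mul_of_nonneg_left h3 h4
        _ = _ := by ring
    rw [← Finset.mul_sum] at h2
    have h5 : ∑ j ∈ Finset.range n, (a (j + 1) - b j) * b j ^ (-σ) ≤
        ∑' j, (a (j + 1) - b j) * b j ^ (-σ) :=
      (h.win σ hσ).sum_le_tsum _ fun j _ => mul_nonneg (by linarith [h.ba j])
        (Real.rpow_nonneg (by linarith [hbx j, hD.hx₀]) _)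
    have h6 := mul_le_mul_of_nonneg_left h5 (Real.rpow_nonneg hx0.le σ)
    linarith
  have hW : 0 ≤ x ^ σ * ∑' j, (a (j + 1) - b j) * b j ^ (-σ) := by
    apply mul_nonneg (Real.rpow_nonneg hx0.le σ)
    exact tsum_nonneg fun j => mul_nonneg (by linarith [h.ba j])
        (Real.rpow_nonneg (by linarith [hbx j, hD.hx₀]) _)
  rw [abs_le]
  constructor <;> linarith

/-- The expected main term for the generalised primes, `li(x) - ∑_ρ li(x^ρ)`. -/
noncomputable def mainTerm (Z : Multiset ℂ) (x : ℝ) : ℝ :=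
  ∫ u in (2 : ℝ)..x, (1 - osc Z u) / Real.log u

theorem continuousOn_main (Z : Multiset ℂ) :
    ContinuousOn (fun u => (1 - osc Z u) / Real.log u) (Ioi 1) := by
  intro u hu
  have hu1 : (1 : ℝ) < u := hu
  have h1 : ContinuousWithinAt (fun u => 1 - osc Z u) (Ioi 1) u :=
    (continuousOn_const.sub ((continuousOn_osc Z).mono (Ioi_subset_Ioi zero_le_one))) u hu
  exact h1.div (Real.continuousAt_log (by linarith)).continuousWithinAt (Real.log_pos hu1).ne'

theorem main_ii (Z : Multiset ℂ) {a b : ℝ} (ha : 1 < a) (hab : a ≤ b) :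
    IntervalIntegrable (fun u => (1 - osc Z u) / Real.log u) volume a b := by
  apply ContinuousOn.intervalIntegrable
  rw [uIcc_of_le hab]
  exact (continuousOn_main Z).mono fun u hu => lt_of_lt_of_le ha hu.1

theorem abs_main_diff_le {Z : Multiset ℂ} (hZ : ∀ ρ ∈ Z, ρ.re < 1) {x₀ x : ℝ} (hx3 : 3 ≤ x₀)
    (hx : x₀ ≤ x) :
    |(∫ u in x₀..x, (1 - osc Z u) / Real.log u) - ∫ u in x₀..x, fZ Z u| ≤
      (1 + Multiset.card Z) * Real.log x := by
  have hii1 := main_ii Z (by linarith : 1 < x₀) hx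
  have hii2 : IntervalIntegrable (fZ Z) volume x₀ x := by
    apply ContinuousOn.intervalIntegrable
    rw [uIcc_of_le hx]
    exact (continuousOn_fZ Z).mono fun u hu => (by linarith [hu.1] : (1 : ℝ) < u)
  rw [← intervalIntegral.integral_sub hii1 hii2]
  have hx0 : 0 < x₀ := by linarith
  have hii3 : IntervalIntegrable (fun u : ℝ => (1 + (Multiset.card Z : ℝ)) * u⁻¹) volume x₀ x := by
    apply ContinuousOn.intervalIntegrable
    rw [uIcc_of_le hx]
    apply continuousOn_const.mul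
    exact continuousOn_inv₀.mono fun u hu => (by
      have := hu.1
      simp only [mem_compl_iff, mem_singleton_iff]
      linarith)
  have h1 := intervalIntegral.norm_integral_le_of_norm_le hx
    (f := fun u => (1 - osc Z u) / Real.log u - fZ Z u)
    (g := fun u : ℝ => (1 + (Multiset.card Z : ℝ)) * u⁻¹) (μ := volume) (by
      filter_upwards with u hu
      have hu0 : 0 < u := lt_trans hx0 hu.1
      have hu1 : 3 ≤ u := hx3.trans hu.1.le
      have hlog : 1 ≤ Real.log u := by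
        rw [Real.le_log_iff_exp_le hu0]
        linarith [Real.exp_one_lt_d9]
      have e1 : (1 - osc Z u) / Real.log u - fZ Z u = (1 - osc Z u) * (u⁻¹ * (Real.log u)⁻¹) := by
        unfold fZ Wf
        have : Real.log u ≠ 0 := by linarith
        field_simp
        ring
      rw [e1, Real.norm_eq_abs, abs_mul]
      have h2 : |1 - osc Z u| ≤ 1 + Multiset.card Z := by
        have := abs_sub (1 : ℝ) (osc Z u)
        have h3 := abs_osc_le hZ (by linarith : 1 ≤ u)
        rw [abs_one] at this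
        linarith
      have h3 : |u⁻¹ * (Real.log u)⁻¹| ≤ u⁻¹ := by
        rw [abs_of_nonneg (by positivity)]
        have : (Real.log u)⁻¹ ≤ 1 := inv_le_one_of_one_le₀ hlog
        calc u⁻¹ * (Real.log u)⁻¹ ≤ u⁻¹ * 1 := mul_le_mul_of_nonneg_left this (by positivity)
          _ = _ := mul_one _
      exact mul_le_mul h2 h3 (abs_nonneg _) (by positivity)) hii3
  rw [Real.norm_eq_abs] at h1
  refine h1.trans ?_
  rw [intervalIntegral.integral_const_mul]
  apply mul_le_mul_of_nonneg_left _ (by positivity)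
  rw [integral_inv_of_pos hx0 (by linarith)]
  have hxpos : 0 < x := by linarith
  apply Real.log_le_log (div_pos hxpos hx0)
  rw [div_le_iff₀ hx0]
  nlinarith

/-- The prime number theorem with zeros for the constructed system. -/
theorem pi_asymp {Z : Multiset ℂ} (hZ : ∀ ρ ∈ Z, ρ.re < 1) {x₀ : ℝ} (hD : Dens (fZ Z) x₀)
    {a b : ℕ → ℝ} (h : Cells (fZ Z) x₀ a b) {p : ℕ → ℝ} (hp : ∀ j, p j ∈ Ico (a j) (b j))
    {ε : ℝ} (hε : 0 < ε) :
    ∃ C : ℝ, ∀ x : ℝ, 2 ≤ x → |(countPr p x : ℝ) - mainTerm Z x| ≤ C * x ^ (1 / 2 + ε) := by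
  have hx3 := hD.hx₀
  set W : ℝ := ∑' j, (a (j + 1) - b j) * b j ^ (-(1 / 2 + ε)) with hW
  have hW0 : 0 ≤ W := tsum_nonneg fun j => mul_nonneg (by linarith [h.ba j])
        (Real.rpow_nonneg (by linarith [h.a_ge3 hD j, h.ab1 j]) _)
  -- bound for the main term on [2,x₀]
  obtain ⟨M, hM⟩ := (isCompact_Icc (a := (2 : ℝ)) (b := x₀)).exists_bound_of_continuousOn
    ((continuousOn_main Z).mono fun u hu => (by linarith [hu.1] : (1 : ℝ) < u))
  have hM0 : 0 ≤ M := (norm_nonneg _).trans (hM 2 ⟨le_rfl, by linarith⟩)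
  have hMint : ∀ y, 2 ≤ y → y ≤ x₀ → |mainTerm Z y| ≤ M * x₀ := by
    intro y hy1 hy2
    unfold mainTerm
    have := intervalIntegral.norm_integral_le_of_norm_le_const (a := 2) (b := y)
      (f := fun u => (1 - osc Z u) / Real.log u) (C := M) (by
        intro u hu
        rw [uIoc_of_le hy1] at hu
        exact hM u ⟨hu.1.le, hu.2.trans hy2⟩)
    rw [Real.norm_eq_abs, abs_of_nonneg (by linarith : 0 ≤ y - 2)] at this
    refine this.trans ?_
    apply mul_le_mul_of_nonneg_left _ hM0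
    linarith
  set K : ℝ := (1 + (Multiset.card Z : ℝ)) with hK
  have hK0 : 0 ≤ K := by positivity
  refine ⟨2 + W + 2 * K + M * x₀, fun x hx => ?_⟩
  have hxp : 1 ≤ x ^ (1 / 2 + ε) := Real.one_le_rpow (by linarith) (by positivity)
  have hMx0 : 0 ≤ M * x₀ := by positivity
  rcases le_or_gt x₀ x with hc | hc
  · have h1 := h.count_bound hD hp (by linarith : 1 / 2 < 1 / 2 + ε) hc
    have h2 := abs_main_diff_le hZ hx3 hc
    have h3 : mainTerm Z x = mainTerm Z x₀ + ∫ u in x₀..x, (1 - osc Z u) / Real.log u := by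
      unfold mainTerm
      exact (intervalIntegral.integral_add_adjacent_intervals
        (main_ii Z (by norm_num) (by linarith)) (main_ii Z (by linarith) hc)).symm
    have h4 := hMint x₀ (by linarith) le_rfl
    have h5 : Real.log x ≤ 2 * x ^ (1 / 2 + ε) := by
      have h6 := Real.log_le_rpow_div (by linarith : 0 ≤ x) (by norm_num : (0 : ℝ) < 1 / 2)
      have h7 : x ^ (1 / 2 : ℝ) ≤ x ^ (1 / 2 + ε) :=
        Real.rpow_le_rpow_of_exponent_le (by linarith) (by linarith)
      linarith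
    have h8 : K * Real.log x ≤ K * (2 * x ^ (1 / 2 + ε)) := mul_le_mul_of_nonneg_left h5 hK0
    have h9 : |(countPr p x : ℝ) - mainTerm Z x| ≤ (1 + x ^ (1 / 2 + ε) * W) + K * Real.log x +
        M * x₀ := by
      rw [h3]
      have e1 : (countPr p x : ℝ) - (mainTerm Z x₀ + ∫ u in x₀..x, (1 - osc Z u) / Real.log u) =
        ((countPr p x : ℝ) - ∫ u in x₀..x, fZ Z u) -
        ((∫ u in x₀..x, (1 - osc Z u) / Real.log u) - ∫ u in x₀..x, fZ Z u) -
        mainTerm Z x₀ := by ring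
      rw [e1]
      have h10 := abs_sub ((((countPr p x : ℝ) - ∫ u in x₀..x, fZ Z u)) -
        ((∫ u in x₀..x, (1 - osc Z u) / Real.log u) - ∫ u in x₀..x, fZ Z u)) (mainTerm Z x₀)
      have h11 := abs_sub (((countPr p x : ℝ) - ∫ u in x₀..x, fZ Z u))
        ((∫ u in x₀..x, (1 - osc Z u) / Real.log u) - ∫ u in x₀..x, fZ Z u)
      linarith
    have h12 : M * x₀ * 1 ≤ M * x₀ * x ^ (1 / 2 + ε) := mul_le_mul_of_nonneg_left hxp hMx0
    nlinarith
  · have h1 : countPr p x = 0 := by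
      unfold countPr
      have : {j : ℕ | p j ≤ x} = ∅ := by
        ext j
        simp only [mem_ofPred_eq, mem_empty_iff_false, iff_false, not_le]
        have := (hp j).1
        have := h.a_ge_x hD j
        linarith
      rw [this]; simp
    rw [h1]
    have h2 := hMint x hx hc.le
    have h12 : M * x₀ * 1 ≤ M * x₀ * x ^ (1 / 2 + ε) := mul_le_mul_of_nonneg_left hxp hMx0
    simp only [Nat.cast_zero, zero_sub, abs_neg]
    have : 0 ≤ (2 + W + 2 * K) * x ^ (1 / 2 + ε) := by positivity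
    nlinarith

end Pool.Agent.H521
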