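import Mathlib

open MeasureTheory Set Filter Topology
open scoped ENNReal NNReal

namespace Pool.Agent.H521

/-- The generalised integer with exponent vector `e` over the generalised primes `p`. -/
noncomputable def gint (p : ℕ → ℝ) (e : ℕ →₀ ℕ) : ℝ := e.prod fun j k => p j ^ k

theorem gint_zero (p : ℕ → ℝ) : gint p 0 = 1 := by simp [gint]

theorem gint_add (p : ℕ → ℝ) (e e' : ℕ →₀ ℕ) : gint p (e + e') = gint p e * gint p e' := by
  unfold gint
  exact Finsupp.prod_add_index' (by simp) (fun a m n => pow_add _ _ _)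

theorem gint_single (p : ℕ → ℝ) (j : ℕ) : gint p (Finsupp.single j 1) = p j := by
  simp [gint]

theorem one_le_gint {p : ℕ → ℝ} (hp : ∀ j, 1 ≤ p j) (e : ℕ →₀ ℕ) : 1 ≤ gint p e := by
  unfold gint Finsupp.prod
  calc (1 : ℝ) = ∏ _j ∈ e.support, (1 : ℝ) := by simp
    _ ≤ _ := Finset.prod_le_prod (fun _ _ => zero_le_one) (fun j _ => one_le_pow₀ (hp j))

theorem gint_pos {p : ℕ → ℝ} (hp : ∀ j, 1 ≤ p j) (e : ℕ →₀ ℕ) : 0 < gint p e :=
  lt_of_lt_of_le one_pos (one_le_gint hp e)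

/-- an enumeration of the primes -/
noncomputable def eqvP : Nat.Primes ≃ ℕ :=
  Classical.choice (nonempty_equiv_of_countable (α := Nat.Primes) (β := ℕ))

/-- exponent vectors of positive integers -/
noncomputable def toFE : PrimeMultiset ≃ (ℕ →₀ ℕ) :=
  ((Multiset.toFinsupp (α := Nat.Primes)).toEquiv.trans
    (Finsupp.domCongr eqvP).toEquiv : Multiset Nat.Primes ≃ (ℕ →₀ ℕ))

theorem toFE_add (v w : PrimeMultiset) : toFE (v + w) = toFE v + toFE w :=
  ((Multiset.toFinsupp (α := Nat.Primes)).trans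
    (Finsupp.domCongr eqvP : (Nat.Primes →₀ ℕ) ≃+ (ℕ →₀ ℕ))).map_add v w

theorem toFE_zero : toFE 0 = 0 := by
  have h := toFE_add 0 0
  simpa using h

theorem toFE_ofPrime (q : Nat.Primes) :
    toFE (PrimeMultiset.ofPrime q) = Finsupp.single (eqvP q) 1 := by
  change (Finsupp.domCongr eqvP)
    (Multiset.toFinsupp (α := Nat.Primes) ({q} : Multiset Nat.Primes)) = _
  rw [Multiset.toFinsupp_singleton]
  simp [Finsupp.domCongr, Finsupp.equivMapDomain_single]

/-- the bijection between positive integers and exponent vectors -/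
noncomputable def psi : ℕ+ ≃ (ℕ →₀ ℕ) := PNat.factorMultisetEquiv.trans toFE

theorem psi_mul (m n : ℕ+) : psi (m * n) = psi m + psi n := by
  change toFE (PNat.factorMultiset (m * n)) =
    toFE (PNat.factorMultiset m) + toFE (PNat.factorMultiset n)
  rw [PNat.factorMultiset_mul, toFE_add]

theorem psi_one : psi 1 = 0 := by
  change toFE (PNat.factorMultiset 1) = 0
  rw [PNat.factorMultiset_one, toFE_zero]

theorem psi_prime (q : Nat.Primes) :
    psi (q : ℕ+) = Finsupp.single (eqvP q) 1 := by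
  change toFE (PNat.factorMultiset (q : ℕ+)) = _
  rw [PNat.factorMultiset_ofPrime, toFE_ofPrime]

/-- constructor -/
def pn (n : ℕ) (h : 0 < n) : ℕ+ := ⟨n, h⟩

theorem pn_mul {m n : ℕ} (hm : 0 < m) (hn : 0 < n) (h : 0 < m * n) :
    pn (m * n) h = pn m hm * pn n hn := rfl

theorem pn_one (h : 0 < 1) : pn 1 h = 1 := rfl

theorem pn_coe (n : ℕ+) (h : 0 < (n : ℕ)) : pn n h = n := rfl

theorem coe_pn {n : ℕ} (h : 0 < n) : ((pn n h : ℕ+) : ℕ) = n := rfl

/-- the completely multiplicative function `n ↦ ξ(n)^{-s}` -/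
noncomputable def fmul (p : ℕ → ℝ) (hp : ∀ j, 1 ≤ p j) (s : ℂ) : ℕ →*₀ ℂ where
  toFun n := if h : 0 < n then ((gint p (psi (pn n h)) : ℝ) : ℂ) ^ (-s) else 0
  map_zero' := by simp
  map_one' := by
    rw [dif_pos one_pos, pn_one, psi_one, gint_zero]
    simp
  map_mul' m n := by
    rcases Nat.eq_zero_or_pos m with hm | hm
    · simp [hm]
    rcases Nat.eq_zero_or_pos n with hn | hn
    · simp [hn]
    have hmn : 0 < m * n := Nat.mul_pos hm hn
    simp only [hm, hn, hmn, dif_pos]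
    rw [pn_mul hm hn, psi_mul, gint_add, Complex.ofReal_mul,
      Complex.mul_cpow_ofReal_nonneg (gint_pos hp _).le (gint_pos hp _).le]

theorem fmul_zero (p : ℕ → ℝ) (hp : ∀ j, 1 ≤ p j) (s : ℂ) : fmul p hp s 0 = 0 := map_zero _

theorem fmul_pnat (p : ℕ → ℝ) (hp : ∀ j, 1 ≤ p j) (s : ℂ) (n : ℕ+) :
    fmul p hp s n = ((gint p (psi n) : ℝ) : ℂ) ^ (-s) := by
  change (if h : 0 < (n : ℕ) then ((gint p (psi (pn n h)) : ℝ) : ℂ) ^ (-s) else 0) = _
  rw [dif_pos n.pos, pn_coe]

theorem fmul_prime (p : ℕ → ℝ) (hp : ∀ j, 1 ≤ p j) (s : ℂ) (q : Nat.Primes) :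
    fmul p hp s (q : ℕ) = ((p (eqvP q) : ℝ) : ℂ) ^ (-s) := by
  have h := fmul_pnat p hp s (q : ℕ+)
  rw [psi_prime, gint_single] at h
  exact h

theorem one_sub_inv_le_exp {x : ℝ} (h0 : 0 ≤ x) (h : x ≤ 1 / 2) : (1 - x)⁻¹ ≤ Real.exp (2 * x) := by
  have h1 : (1 - x)⁻¹ ≤ 1 + 2 * x := by
    rw [inv_le_comm₀ (by linarith) (by linarith), inv_le_iff_one_le_mul₀ (by linarith)]
    nlinarith
  refine h1.trans ?_
  have := Real.add_one_le_exp (2 * x)
  linarith

theorem norm_fmul (p : ℕ → ℝ) (hp : ∀ j, 1 ≤ p j) (s : ℂ) (n : ℕ) :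
    ‖fmul p hp s n‖ = ‖fmul p hp (s.re : ℂ) n‖ := by
  rcases Nat.eq_zero_or_pos n with hn | hn
  · simp [hn]
  · rw [← coe_pn hn, fmul_pnat, fmul_pnat,
      Complex.norm_cpow_eq_rpow_re_of_pos (gint_pos hp _),
      Complex.norm_cpow_eq_rpow_re_of_pos (gint_pos hp _)]
    simp

theorem summable_fmul (p : ℕ → ℝ) (hp : ∀ j, 2 ≤ p j) (s : ℂ) (hs : 1 ≤ s.re)
    (hsum : Summable fun j => p j ^ (-s.re)) :
    Summable fun n => ‖fmul p (fun j => one_le_two.trans (hp j)) s n‖ := by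
  set hp1 : ∀ j, 1 ≤ p j := fun j => one_le_two.trans (hp j) with hp1'
  have hnp : ∀ q : Nat.Primes, ‖fmul p hp1 s (q : ℕ)‖ =
      p (eqvP q) ^ (-s.re) := by
    intro q
    rw [fmul_prime, Complex.norm_cpow_eq_rpow_re_of_pos (by linarith [hp1 (eqvP q)])]
    simp
  have hhalf : ∀ j, p j ^ (-s.re) ≤ 1 / 2 := by
    intro j
    calc p j ^ (-s.re) ≤ p j ^ (-1 : ℝ) :=
          Real.rpow_le_rpow_of_exponent_le (hp1 j) (by linarith)
      _ = (p j)⁻¹ := Real.rpow_neg_one _
      _ ≤ 1 / 2 := by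
          rw [one_div]
          exact inv_anti₀ two_pos (hp j)
  -- a nonneg real version
  set F : ℕ → ℝ := fun n => ‖fmul p hp1 s n‖ with hF
  have hlt : ∀ {q : ℕ}, q.Prime → ‖(fmul p hp1 s : ℕ →* ℂ) q‖ < 1 := by
    intro q hq
    have := hnp ⟨q, hq⟩
    have h2 := hhalf (eqvP ⟨q, hq⟩)
    change ‖fmul p hp1 s q‖ < 1
    have h3 : ‖fmul p hp1 s q‖ = p (eqvP ⟨q, hq⟩) ^ (-s.re) := this
    rw [h3]; linarith
  -- use the completely multiplicative real function
  let G : ℕ →* ℝ := (normHom : ℂ →*₀ ℝ).toMonoidHom.comp (fmul p hp1 s : ℕ →* ℂ)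
  have hG : ∀ n, G n = F n := fun n => rfl
  have hGlt : ∀ {q : ℕ}, q.Prime → ‖G q‖ < 1 := by
    intro q hq
    rw [hG, hF]
    simp only [norm_norm]
    exact hlt hq
  have hsumC : Summable fun q : Nat.Primes => F q := by
    have h4 : (fun q : Nat.Primes => F q) =
        (fun j => p j ^ (-s.re)) ∘ eqvP := by
      ext q; exact hnp q
    rw [h4]
    exact hsum.comp_injective eqvP.injective
  set S : ℝ := ∑' q : Nat.Primes, F q with hS
  refine summable_of_sum_range_le (c := Real.exp (2 * S)) (fun n => norm_nonneg _) fun N => ?_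
  have hN := EulerProduct.summable_and_hasSum_smoothNumbers_prod_primesBelow_geometric hGlt N
  have h5 : ∑ n ∈ Finset.range N, F n ≤ ∑' m : N.smoothNumbers, G m := by
    have h6 : ∑ n ∈ Finset.range N, F n = ∑ n ∈ (Finset.range N).erase 0, F n := by
      symm
      apply Finset.sum_erase
      simp [hF]
    rw [h6]
    have hsmall : ∀ n ∈ (Finset.range N).erase 0, n ∈ N.smoothNumbers := by
      intro n hn
      rw [Finset.mem_erase, Finset.mem_range] at hn
      exact Nat.mem_smoothNumbers_of_lt (Nat.pos_of_ne_zero hn.1) hn.2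
    rw [← Finset.sum_attach]
    let g : {x // x ∈ (Finset.range N).erase 0} → N.smoothNumbers :=
      fun x => ⟨x.1, hsmall x.1 x.2⟩
    have hg : Function.Injective g := by
      intro x y hxy
      apply Subtype.ext
      have := congrArg Subtype.val hxy
      exact this
    have h7 : ∑ x ∈ ((Finset.range N).erase 0).attach, F x.1 =
        ∑ y ∈ (((Finset.range N).erase 0).attach).map ⟨g, hg⟩, G y := by
      rw [Finset.sum_map]
      rfl
    rw [h7]
    exact hN.1.of_norm.sum_le_tsum _ (fun y _ => by rw [hG]; exact norm_nonneg _)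
  refine h5.trans ?_
  rw [hN.2.tsum_eq]
  calc ∏ q ∈ N.primesBelow, (1 - G q)⁻¹ ≤ ∏ q ∈ N.primesBelow, Real.exp (2 * F q) := by
        apply Finset.prod_le_prod
        · intro q hq
          have := hGlt (Nat.prime_of_mem_primesBelow hq)
          rw [Real.norm_eq_abs] at this
          have := (abs_lt.1 this).2
          exact inv_nonneg.2 (by linarith)
        · intro q hq
          have hq' := Nat.prime_of_mem_primesBelow hq
          have h8 : F q = p (eqvP ⟨q, hq'⟩) ^ (-s.re) := hnp ⟨q, hq'⟩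
          rw [hG]
          apply one_sub_inv_le_exp (norm_nonneg _)
          change F q ≤ 1 / 2
          rw [h8]
          exact hhalf _
    _ = Real.exp (2 * ∑ q ∈ N.primesBelow, F q) := by
        rw [← Real.exp_sum, Finset.mul_sum]
    _ ≤ Real.exp (2 * S) := by
        apply Real.exp_le_exp.2
        apply mul_le_mul_of_nonneg_left _ (by norm_num)
        rw [← Finset.sum_attach]
        let g : {x // x ∈ N.primesBelow} → Nat.Primes :=
          fun x => ⟨x.1, Nat.prime_of_mem_primesBelow x.2⟩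
        have hg : Function.Injective g := by
          intro x y hxy
          apply Subtype.ext
          have := congrArg Subtype.val hxy
          exact this
        have h7 : ∑ x ∈ (N.primesBelow).attach, F x.1 =
            ∑ y ∈ (N.primesBelow).attach.map ⟨g, hg⟩, F (y : ℕ) := by
          rw [Finset.sum_map]
          rfl
        rw [h7]
        exact hsumC.sum_le_tsum _ (fun y _ => norm_nonneg _)

/-- The Beurling zeta function. -/
noncomputable def zetaB (p : ℕ → ℝ) (s : ℂ) : ℂ := ∑' e : ℕ →₀ ℕ, ((gint p e : ℝ) : ℂ) ^ (-s)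

theorem summable_gint (p : ℕ → ℝ) (hp : ∀ j, 2 ≤ p j) (s : ℂ) (hs : 1 ≤ s.re)
    (hsum : Summable fun j => p j ^ (-s.re)) :
    Summable fun e : ℕ →₀ ℕ => ‖((gint p e : ℝ) : ℂ) ^ (-s)‖ := by
  have h1 := summable_fmul p hp s hs hsum
  have h2 : Summable fun n : ℕ+ => ‖fmul p (fun j => one_le_two.trans (hp j)) s n‖ :=
    h1.comp_injective PNat.coe_injective
  simp_rw [fmul_pnat] at h2
  exact (Equiv.summable_iff psi (f := fun e : ℕ →₀ ℕ => ‖((gint p e : ℝ) : ℂ) ^ (-s)‖)).1 h2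

theorem zetaB_eq_exp (p : ℕ → ℝ) (hp : ∀ j, 2 ≤ p j) (s : ℂ) (hs : 1 ≤ s.re)
    (hsum : Summable fun j => p j ^ (-s.re)) :
    zetaB p s = Complex.exp (∑' j, -Complex.log (1 - (p j : ℂ) ^ (-s))) := by
  set hp1 : ∀ j, 1 ≤ p j := fun j => one_le_two.trans (hp j) with hp1'
  have h1 := summable_fmul p hp s hs hsum
  have h2 := EulerProduct.exp_tsum_primes_log_eq_tsum h1
  have h3 : ∑' q : Nat.Primes, -Complex.log (1 - fmul p hp1 s (q : ℕ)) =
      ∑' j, -Complex.log (1 - (p j : ℂ) ^ (-s)) := by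
    rw [← Equiv.tsum_eq eqvP]
    apply tsum_congr
    intro q
    rw [fmul_prime]
  rw [h3] at h2
  rw [h2, zetaB, ← Equiv.tsum_eq psi]
  have h4 : ∀ n : ℕ+, ((gint p (psi n) : ℝ) : ℂ) ^ (-s) = fmul p hp1 s n := fun n =>
    (fmul_pnat p hp1 s n).symm
  simp_rw [h4]
  exact PNat.coe_injective.tsum_eq (f := fun n : ℕ => fmul p hp1 s n) (by
    intro n hn
    rw [Function.mem_support] at hn
    have : n ≠ 0 := by
      rintro rfl
      exact hn (map_zero _)
    exact ⟨⟨n, Nat.pos_of_ne_zero this⟩, rfl⟩)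

end Pool.Agent.H521
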