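import Pool.Agent.H521.Perron
import Pool.Agent.H521.Zeta

open MeasureTheory Set Filter Topology
open scoped ENNReal NNReal

namespace Pool.Agent.H521

theorem continuous_vertical {G : ℂ → ℂ} (hG : DifferentiableOn ℂ G {s : ℂ | 1 / 2 < s.re})
    {σ : ℝ} (hσ : 1 / 2 < σ) : Continuous fun y : ℝ => G ((σ : ℂ) + y * Complex.I) := by
  apply hG.continuousOn.comp_continuous (by fun_prop)
  intro y
  simp only [mem_ofPred_eq]
  simpa using hσ

theorem contour_shift {G : ℂ → ℂ} {σ₀ c C r : ℝ} (hσ : 1 / 2 < σ₀) (hσc : σ₀ ≤ c) (hr : 1 < r)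
    (hG : DifferentiableOn ℂ G {s : ℂ | 1 / 2 < s.re})
    (hb : ∀ s : ℂ, σ₀ ≤ s.re → s.re ≤ c → ‖G s‖ ≤ C * (1 + |s.im|) ^ (-r)) :
    ∫ y : ℝ, G ((σ₀ : ℂ) + y * Complex.I) = ∫ y : ℝ, G ((c : ℂ) + y * Complex.I) := by
  have hint : ∀ σ : ℝ, σ₀ ≤ σ → σ ≤ c → Integrable fun y : ℝ => G ((σ : ℂ) + y * Complex.I) := by
    intro σ h1 h2
    apply integrable_of_le_japanese (C := C) (r := r)
      (continuous_vertical hG (by linarith)).aestronglyMeasurable hr
    intro y
    have := hb ((σ : ℂ) + y * Complex.I) (by simpa using h1) (by simpa using h2)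
    simpa using this
  have hrect : ∀ T : ℝ, 0 ≤ T →
      (∫ x : ℝ in σ₀..c, G (x + (-T : ℝ) * Complex.I)) -
      (∫ x : ℝ in σ₀..c, G (x + (T : ℝ) * Complex.I)) +
      Complex.I • (∫ y : ℝ in (-T)..T, G ((c : ℂ) + y * Complex.I)) -
      Complex.I • (∫ y : ℝ in (-T)..T, G ((σ₀ : ℂ) + y * Complex.I)) = 0 := by
    intro T hT
    have := Complex.integral_boundary_rect_eq_zero_of_differentiableOn G
      ⟨σ₀, -T⟩ ⟨c, T⟩ (hG.mono (by
        intro s hs
        rw [Complex.mem_reProdIm] at hs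
        have h1 := hs.1
        rw [uIcc_of_le hσc] at h1
        simp only [mem_ofPred_eq]
        linarith [h1.1]))
    simpa using this
  have hhor : ∀ ε : ℝ, (ε = 1 ∨ ε = -1) →
      Tendsto (fun T : ℝ => ∫ x : ℝ in σ₀..c, G (x + ((ε * T : ℝ) : ℂ) * Complex.I)) atTop
        (𝓝 0) := by
    intro ε hε
    have h0 : Tendsto (fun T : ℝ => C * (1 + T) ^ (-r) * |c - σ₀|) atTop (𝓝 0) := by
      have h1 : Tendsto (fun T : ℝ => (1 + T) ^ (-r)) atTop (𝓝 0) :=
        (tendsto_rpow_neg_atTop (by linarith)).comp (tendsto_atTop_add_const_left _ _ tendsto_id)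
      have := (h1.const_mul C).mul_const |c - σ₀|
      simpa using this
    refine squeeze_zero_norm' ?_ h0
    filter_upwards [eventually_ge_atTop 0] with T hT
    apply intervalIntegral.norm_integral_le_of_norm_le_const
    intro x hx
    rw [uIoc_of_le hσc] at hx
    have := hb (x + ((ε * T : ℝ) : ℂ) * Complex.I) (by simpa using hx.1.le) (by simpa using hx.2)
    have him : |((x : ℂ) + ((ε * T : ℝ) : ℂ) * Complex.I).im| = T := by
      simp only [Complex.add_im, Complex.ofReal_im, Complex.mul_im, Complex.ofReal_re,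
        Complex.I_im, mul_one, Complex.I_re, mul_zero, add_zero, zero_add]
      rcases hε with h | h <;> rw [h] <;> simp [abs_of_nonneg hT]
    rw [him] at this
    exact this
  have hv : ∀ σ : ℝ, σ₀ ≤ σ → σ ≤ c → Tendsto
      (fun T : ℝ => ∫ y : ℝ in (-T)..T, G ((σ : ℂ) + y * Complex.I)) atTop
      (𝓝 (∫ y : ℝ, G ((σ : ℂ) + y * Complex.I))) := fun σ h1 h2 =>
    intervalIntegral_tendsto_integral (hint σ h1 h2) tendsto_neg_atTop_atBot tendsto_id
  have hlim := (((hhor (-1) (Or.inr rfl)).sub (hhor 1 (Or.inl rfl))).add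
    ((hv c hσc le_rfl).const_smul Complex.I)).sub ((hv σ₀ le_rfl hσc).const_smul Complex.I)
  have hzero : Tendsto (fun T : ℝ =>
      (∫ x : ℝ in σ₀..c, G (x + (((-1) * T : ℝ) : ℂ) * Complex.I)) -
      (∫ x : ℝ in σ₀..c, G (x + ((1 * T : ℝ) : ℂ) * Complex.I)) +
      Complex.I • (∫ y : ℝ in (-T)..T, G ((c : ℂ) + y * Complex.I)) -
      Complex.I • (∫ y : ℝ in (-T)..T, G ((σ₀ : ℂ) + y * Complex.I))) atTop (𝓝 0) := by
    apply tendsto_const_nhds.congr'
    filter_upwards [eventually_ge_atTop 0] with T hT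
    have := hrect T hT
    rw [neg_one_mul, one_mul]
    exact this.symm
  have huniq := tendsto_nhds_unique hlim hzero
  rw [sub_zero, zero_add, sub_eq_zero] at huniq
  simp only [smul_eq_mul] at huniq
  exact (mul_left_cancel₀ Complex.I_ne_zero huniq).symm

end Pool.Agent.H521
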