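import Mathlib

open MeasureTheory Set Filter Topology
open scoped ENNReal NNReal

namespace Pool.Agent.H521

/-- The weight `(1 - 1/u)/log u = ∫_0^1 u^{-v} dv`. -/
noncomputable def Wf (u : ℝ) : ℝ := (1 - 1 / u) / Real.log u

theorem Wf_nonneg {u : ℝ} (hu : 1 < u) : 0 ≤ Wf u := by
  unfold Wf
  apply div_nonneg _ (Real.log_nonneg hu.le)
  rw [sub_nonneg, div_le_one (by linarith)]
  exact hu.le

theorem Wf_le_one {u : ℝ} (hu : 1 < u) : Wf u ≤ 1 := by
  unfold Wf
  rw [div_le_one (Real.log_pos hu)]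
  have := Real.one_sub_inv_le_log_of_pos (by linarith : 0 < u)
  simpa using this

theorem abs_Wf_le_one {u : ℝ} (hu : 1 ≤ u) : |Wf u| ≤ 1 := by
  rcases eq_or_lt_of_le hu with h | h
  · rw [← h]; simp [Wf]
  · rw [abs_of_nonneg (Wf_nonneg h)]; exact Wf_le_one h

theorem measurable_Wf : Measurable Wf := by
  unfold Wf
  exact (measurable_const.sub (measurable_const.div measurable_id)).div Real.measurable_log

theorem continuousOn_Wf : ContinuousOn Wf (Ioi 1) := by
  unfold Wf
  intro u hu
  have hu' : (1 : ℝ) < u := hu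
  apply ContinuousAt.continuousWithinAt
  apply ContinuousAt.div
  · exact continuousAt_const.sub (continuousAt_const.div continuousAt_id (by linarith : u ≠ 0))
  · exact Real.continuousAt_log (by linarith)
  · exact (Real.log_pos hu').ne'

theorem Wf_eq_integral {u : ℝ} (hu : 1 < u) :
    ((Wf u : ℝ) : ℂ) = ∫ v in (0 : ℝ)..1, (u : ℂ) ^ (-(v : ℂ)) := by
  have hu0 : 0 < u := by linarith
  have hlog : Real.log u ≠ 0 := (Real.log_pos hu).ne'
  have hune : (u : ℂ) ≠ 0 := by exact_mod_cast hu0.ne'
  have hclog : Complex.log (u : ℂ) ≠ 0 := by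
    rw [← Complex.ofReal_log hu0.le]; exact_mod_cast hlog
  have hder : ∀ v ∈ uIcc (0 : ℝ) 1, HasDerivAt
      (fun v : ℝ => -(u : ℂ) ^ (-(v : ℂ)) / Complex.log u) ((u : ℂ) ^ (-(v : ℂ))) v := by
    intro v _
    have h1 : HasDerivAt (fun z : ℂ => (u : ℂ) ^ (-z)) ((u : ℂ) ^ (-(v : ℂ)) * Complex.log u * -1)
        (v : ℂ) := (hasDerivAt_neg (v : ℂ)).const_cpow (Or.inl hune)
    have h2 := (h1.comp_ofReal.neg).div_const (Complex.log u)
    refine h2.congr_deriv ?_
    field_simp
  rw [intervalIntegral.integral_eq_sub_of_hasDerivAt hder]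
  · unfold Wf
    rw [← Complex.ofReal_log hu0.le]
    push_cast
    simp only [neg_zero, Complex.cpow_zero, Complex.cpow_neg_one]
    field_simp
    ring
  · apply Continuous.intervalIntegrable
    have : Continuous fun v : ℝ => (u : ℂ) ^ (-(v : ℂ)) := by
      apply Continuous.const_cpow (by fun_prop) (Or.inl hune)
    exact this

theorem integrableOn_Wf_cpow {w : ℂ} (hw : 0 < w.re) :
    IntegrableOn (fun u : ℝ => (Wf u : ℂ) * (u : ℂ) ^ (-1 - w)) (Ioi 1) := by
  have h1 : IntegrableOn (fun u : ℝ => (u : ℂ) ^ (-1 - w)) (Ioi 1) :=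
    integrableOn_Ioi_cpow_of_lt (by simp; linarith) one_pos
  refine Integrable.mono h1 ?_ ?_
  · exact (Complex.measurable_ofReal.comp measurable_Wf).aestronglyMeasurable.mul
      h1.aestronglyMeasurable
  · filter_upwards [ae_restrict_mem measurableSet_Ioi] with u hu
    rw [norm_mul]
    have : ‖(Wf u : ℂ)‖ ≤ 1 := by
      rw [Complex.norm_real, Real.norm_eq_abs]
      exact abs_Wf_le_one (le_of_lt hu)
    calc _ ≤ 1 * ‖(u : ℂ) ^ (-1 - w)‖ := mul_le_mul_of_nonneg_right this (norm_nonneg _)
      _ = _ := one_mul _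

theorem integral_Wf_cpow {w : ℂ} (hw : 0 < w.re) :
    ∫ u in Ioi (1 : ℝ), (Wf u : ℂ) * (u : ℂ) ^ (-1 - w) = Complex.log (w + 1) - Complex.log w := by
  have h1 : ∫ u in Ioi (1 : ℝ), (Wf u : ℂ) * (u : ℂ) ^ (-1 - w) =
      ∫ u in Ioi (1 : ℝ), ∫ v in Ioc (0 : ℝ) 1, (u : ℂ) ^ (-1 - w - (v : ℂ)) := by
    apply setIntegral_congr_fun measurableSet_Ioi
    intro u hu
    have hu1 : (1 : ℝ) < u := hu
    have hune : (u : ℂ) ≠ 0 := by exact_mod_cast (by linarith : u ≠ 0)
    simp only
    rw [Wf_eq_integral hu1, intervalIntegral.integral_of_le zero_le_one, ← integral_mul_const]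
    apply integral_congr_ae
    filter_upwards with v
    rw [← Complex.cpow_add _ _ hune]
    ring_nf
  rw [h1, integral_integral_swap]
  · have h2 : ∫ v in Ioc (0 : ℝ) 1, ∫ u in Ioi (1 : ℝ), (u : ℂ) ^ (-1 - w - (v : ℂ)) =
        ∫ v in Ioc (0 : ℝ) 1, (w + v)⁻¹ := by
      apply setIntegral_congr_fun measurableSet_Ioc
      intro v hv
      simp only
      rw [integral_Ioi_cpow_of_lt (by simp; linarith [hv.1]) one_pos]
      have h3 : -1 - w - (v : ℂ) + 1 = -(w + v) := by ring
      rw [h3]
      simp only [Complex.ofReal_one, Complex.one_cpow]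
      rw [neg_div_neg_eq, one_div]
    rw [h2, ← intervalIntegral.integral_of_le zero_le_one]
    have hder : ∀ v ∈ uIcc (0 : ℝ) 1, HasDerivAt
        (fun v : ℝ => Complex.log (w + (v : ℂ))) ((w + v)⁻¹) v := by
      intro v hv
      rw [uIcc_of_le zero_le_one] at hv
      have hsl : w + (v : ℂ) ∈ Complex.slitPlane := by
        apply Or.inl
        simp
        linarith [hv.1]
      have h4 : HasDerivAt (fun z : ℂ => Complex.log (w + z)) ((w + v)⁻¹) (v : ℂ) := by
        have := (((hasDerivAt_id (v : ℂ)).const_add w).clog hsl)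
        simpa using this
      exact h4.comp_ofReal
    rw [intervalIntegral.integral_eq_sub_of_hasDerivAt hder]
    · simp
    · apply ContinuousOn.intervalIntegrable
      intro v hv
      rw [uIcc_of_le zero_le_one] at hv
      apply ContinuousAt.continuousWithinAt
      apply ContinuousAt.inv₀
      · fun_prop
      · intro h
        have := congrArg Complex.re h
        simp at this
        linarith [hv.1]
  · have hprod : ((volume.restrict (Ioi (1 : ℝ))).prod (volume.restrict (Ioc (0 : ℝ) 1))) =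
        (volume.prod volume).restrict (Ioi (1 : ℝ) ×ˢ Ioc (0 : ℝ) 1) := Measure.prod_restrict _ _
    have hg : Integrable (fun z : ℝ × ℝ => z.1 ^ (-1 - w.re) * (1 : ℝ))
        ((volume.restrict (Ioi (1 : ℝ))).prod (volume.restrict (Ioc (0 : ℝ) 1))) := by
      apply Integrable.mul_prod (f := fun u : ℝ => u ^ (-1 - w.re)) (g := fun _ : ℝ => (1 : ℝ))
      · exact integrableOn_Ioi_rpow_of_lt (by linarith) one_pos
      · exact integrable_const _
    refine Integrable.mono hg ?_ ?_
    · apply Measurable.aestronglyMeasurable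
      unfold Function.uncurry
      fun_prop
    · rw [hprod]
      filter_upwards [ae_restrict_mem (measurableSet_Ioi.prod measurableSet_Ioc)] with z hz
      have hz1 : (1 : ℝ) < z.1 := hz.1
      have hz2 : 0 < z.2 := hz.2.1
      simp only [Function.uncurry]
      rw [Complex.norm_cpow_eq_rpow_re_of_pos (by linarith), mul_one, Real.norm_eq_abs,
        abs_of_nonneg (Real.rpow_nonneg (by linarith) _)]
      apply Real.rpow_le_rpow_of_exponent_le hz1.le
      simp
      exact hz2.le

end Pool.Agent.H521
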