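import Pool.Agent.H521.Assemble

open MeasureTheory Set Filter Topology
open scoped ENNReal NNReal

namespace Pool.Agent.H521

theorem next_exists {f : ℝ → ℝ} {x₀ : ℝ} (hD : Dens f x₀)
    (hlow : ∀ u, x₀ ≤ u → 1 / 2 ≤ f u * Real.log u) (hlog : ∀ u, x₀ ≤ u → 2 ≤ Real.log u)
    (h4 : ∀ u, x₀ ≤ u → 4 * Real.log u ≤ u) {a : ℝ} (ha : x₀ ≤ a) :
    ∃ b, a + 1 ≤ b ∧ b ≤ a + 4 * Real.log a ∧ ∫ u in a..b, f u = 1 := by
  have ha3 : 3 ≤ a := hD.hx₀.trans ha
  have hla := hlog a ha
  have hl4 := h4 a ha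
  set c : ℝ := a + 4 * Real.log a with hc
  have hac : a ≤ c := by rw [hc]; linarith
  have hii : IntervalIntegrable f volume a c := by
    apply ContinuousOn.intervalIntegrable
    rw [uIcc_of_le hac]
    exact hD.cont.mono (fun u hu => ha.trans hu.1)
  have hcont : ContinuousOn (fun t => ∫ u in a..t, f u) (Icc a c) := by
    have := intervalIntegral.continuousOn_primitive_interval (μ := volume) (f := f) (a := a)
      (b := c) ((intervalIntegrable_iff' (by simp)).1 hii)
    rwa [uIcc_of_le hac] at this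
  have hge : 1 ≤ ∫ u in a..c, f u := by
    have hlogc : ∀ u ∈ Icc a c, Real.log u ≤ 2 * Real.log a := by
      intro u hu
      have hu2 : u ≤ 2 * a := by linarith [hu.2]
      have hu0 : 0 < u := by linarith [hu.1]
      calc Real.log u ≤ Real.log (2 * a) := Real.log_le_log hu0 hu2
        _ = Real.log 2 + Real.log a := Real.log_mul (by norm_num) (by linarith)
        _ ≤ 2 * Real.log a := by
            have : Real.log 2 ≤ 1 := by linarith [Real.log_two_lt_d9]
            linarith
    have hmono := intervalIntegral.integral_mono_on hac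
      (intervalIntegrable_const (c := 1 / (4 * Real.log a))) hii (fun u hu => by
        have h1 := hlow u (ha.trans hu.1)
        have h2 := hlogc u hu
        have h3 := hlog u (ha.trans hu.1)
        have hf0 := hD.nonneg u (ha.trans hu.1)
        rw [div_le_iff₀ (by linarith)]
        nlinarith)
    rw [intervalIntegral.integral_const, smul_eq_mul] at hmono
    have : (c - a) * (1 / (4 * Real.log a)) = 1 := by
      rw [hc]
      have : Real.log a ≠ 0 := by linarith
      field_simp
      ring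
    linarith
  have h0 : (∫ u in a..a, f u) = 0 := intervalIntegral.integral_same
  have hmem : (1 : ℝ) ∈ Icc (∫ u in a..a, f u) (∫ u in a..c, f u) := by
    rw [h0]; exact ⟨zero_le_one, hge⟩
  obtain ⟨b, hb, hb1⟩ := intermediate_value_Icc hac hcont hmem
  refine ⟨b, ?_, hb.2, hb1⟩
  have hii2 : IntervalIntegrable f volume a b := by
    apply ContinuousOn.intervalIntegrable
    rw [uIcc_of_le hb.1]
    exact hD.cont.mono (fun u hu => ha.trans hu.1)
  have hle := intervalIntegral.integral_mono_on hb.1 hii2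
    (intervalIntegrable_const (c := (1 : ℝ))) (fun u hu => hD.le_one u (ha.trans hu.1))
  simp only at hb1
  rw [hb1] at hle
  simp at hle
  linarith

theorem slow_steps {G : ℝ → ℝ} (hmono : Monotone G) (hG1 : ∀ᶠ x in atTop, 1 ≤ G x)
    (hfreq : ∀ ε : ℝ, 0 < ε → ∃ᶠ x in atTop, G x ≤ x ^ (1 / 2 + ε)) {a : ℕ → ℝ} {j₀ : ℕ}
    (h1 : ∀ j, j₀ ≤ j → a j + 1 ≤ a (j + 1))
    (h2 : ∀ j, j₀ ≤ j → a (j + 1) ≤ a j + 4 * Real.log (a j)) (h3 : ∀ j, j₀ ≤ j → 3 ≤ a j)
    {δ ε : ℝ} (hδ : 0 < δ) (hε : 0 < ε) :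
    ∃ᶠ j in atTop, G (a (j + 1)) ≤ (1 + δ) * G (a j) ∧ G (a j) ≤ a j ^ (1 / 2 + ε) := by
  rw [Filter.Frequently]
  intro hcon
  obtain ⟨j₂, hj₂⟩ := eventually_atTop.1 hcon
  set j₁ := max j₀ j₂ with hj₁
  have hj₀₁ : j₀ ≤ j₁ := le_max_left _ _
  have hbad : ∀ j, j₁ ≤ j → ¬(G (a (j + 1)) ≤ (1 + δ) * G (a j) ∧ G (a j) ≤ a j ^ (1 / 2 + ε)) :=
    fun j hj => hj₂ j ((le_max_right _ _).trans hj)
  have hlogδ : 0 < Real.log (1 + δ) := Real.log_pos (by linarith)
  set c : ℝ := (1 / 2 + ε / 2) / Real.log (1 + δ) with hc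
  have hc0 : 0 < c := by positivity
  -- the eventual conditions
  have E1 : ∀ᶠ x : ℝ in atTop, a j₁ < x / 2 := by
    filter_upwards [eventually_gt_atTop (2 * a j₁)] with x hx
    linarith
  have E2 : ∀ᶠ x : ℝ in atTop, ∀ y, x / 2 ≤ y → 1 ≤ G y := by
    obtain ⟨y₀, hy₀⟩ := eventually_atTop.1 hG1
    filter_upwards [eventually_ge_atTop (2 * y₀)] with x hx y hy
    exact hy₀ y (by linarith)
  have E3 : ∀ᶠ x : ℝ in atTop, (c * Real.log x + 4) * (4 * Real.log x) ≤ x / 2 := by
    have hl := (isLittleO_log_rpow_atTop (by norm_num : (0 : ℝ) < 1 / 4))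
    have b1 := hl.bound (c := 1) one_pos
    have b2 : ∀ᶠ x : ℝ in atTop, 32 * (c + 4) ≤ x ^ (1 / 4 : ℝ) :=
      (tendsto_rpow_atTop (by norm_num)).eventually_ge_atTop _
    filter_upwards [b1, b2, eventually_ge_atTop 3] with x hx1 hx2 hx3
    have hx0 : 0 < x := by linarith
    have hlx : 1 ≤ Real.log x := by
      rw [Real.le_log_iff_exp_le hx0]
      linarith [Real.exp_one_lt_d9]
    rw [Real.norm_eq_abs, abs_of_nonneg (by linarith), Real.norm_eq_abs,
      abs_of_nonneg (Real.rpow_nonneg hx0.le _), one_mul] at hx1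
    set q : ℝ := x ^ (1 / 4 : ℝ) with hq
    have hq4 : q * q * q * q = x := by
      rw [hq, ← Real.rpow_add hx0, ← Real.rpow_add hx0, ← Real.rpow_add hx0]
      norm_num
    have hq1 : 1 ≤ q := by linarith
    have e1 : (c * Real.log x + 4) * (4 * Real.log x) ≤ (c + 4) * q * (4 * q) := by
      apply mul_le_mul _ (by linarith) (by positivity) (by positivity)
      nlinarith
    have e2 : (c + 4) * q * (4 * q) ≤ x / 2 := by
      have e3 : (c + 4) * q * (4 * q) = (32 * (c + 4)) * (q * q) / 8 := by ring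
      have e4 : (32 * (c + 4)) * (q * q) ≤ q * (q * q) :=
        mul_le_mul_of_nonneg_right hx2 (by positivity)
      have e5 : q * (q * q) ≤ x := by
        rw [← hq4]
        have : 0 ≤ q * q * q := by positivity
        nlinarith
      rw [e3]
      linarith
    exact e1.trans e2
  have E4 : ∀ᶠ x : ℝ in atTop, x ^ (1 / 2 + ε / 2) ≤ (x / 2) ^ (1 / 2 + ε) := by
    have b : ∀ᶠ x : ℝ in atTop, 2 ^ (1 / 2 + ε) ≤ x ^ (ε / 2) :=
      (tendsto_rpow_atTop (by positivity)).eventually_ge_atTop _
    filter_upwards [b, eventually_ge_atTop 3] with x hx1 hx3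
    have hx0 : 0 < x := by linarith
    rw [Real.div_rpow hx0.le (by norm_num), le_div_iff₀ (by positivity)]
    calc x ^ (1 / 2 + ε / 2) * 2 ^ (1 / 2 + ε) ≤ x ^ (1 / 2 + ε / 2) * x ^ (ε / 2) :=
          mul_le_mul_of_nonneg_left hx1 (by positivity)
      _ = _ := by
          rw [← Real.rpow_add hx0]
          congr 1
          ring
  obtain ⟨x, hxG, hx1, hx2, hx3, hx4, hx6⟩ :=
    ((hfreq (ε / 2) (by positivity)).and_eventually
      (E1.and (E2.and (E3.and (E4.and (eventually_ge_atTop 6)))))).exists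
  have hx0 : 0 < x := by linarith
  have hlx : 0 < Real.log x := Real.log_pos (by linarith)
  -- first index above x/2
  have hgrow : ∀ k : ℕ, a j₁ + k ≤ a (j₁ + k) := by
    intro k
    induction k with
    | zero => simp
    | succ k ih =>
      have := h1 (j₁ + k) (by omega)
      push_cast
      rw [← add_assoc j₁ k 1]
      linarith
  have hex : ∃ k : ℕ, x / 2 ≤ a (j₁ + k) := by
    obtain ⟨k, hk⟩ := exists_nat_ge (x / 2 - a j₁)
    exact ⟨k, by linarith [hgrow k]⟩
  classical
  set k := Nat.find hex with hk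
  have hk1 : x / 2 ≤ a (j₁ + k) := Nat.find_spec hex
  have hk0 : k ≠ 0 := by
    intro h0
    rw [h0] at hk1
    simp only [add_zero] at hk1
    linarith
  obtain ⟨l, hl⟩ : ∃ l, k = l + 1 := ⟨k - 1, by omega⟩
  have hk2 : a (j₁ + l) < x / 2 := not_le.1 (Nat.find_min hex (by omega))
  set J := j₁ + k with hJ
  have hJl : J = j₁ + l + 1 := by omega
  have hJup : a J ≤ x / 2 + 4 * Real.log x := by
    rw [hJl]
    have := h2 (j₁ + l) (by omega)
    have h5 : Real.log (a (j₁ + l)) ≤ Real.log x :=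
      Real.log_le_log (by linarith [h3 (j₁ + l) (by omega)]) (by linarith)
    linarith
  set m : ℕ := ⌈c * Real.log x⌉₊ + 1 with hm
  have hm1 : (m : ℝ) ≤ c * Real.log x + 2 := by
    have := (Nat.ceil_lt_add_one (by positivity : 0 ≤ c * Real.log x)).le
    rw [hm]
    push_cast
    linarith
  have hm2 : c * Real.log x < m := by
    have := Nat.le_ceil (c * Real.log x)
    rw [hm]
    push_cast
    linarith
  have key : ∀ i : ℕ, i ≤ m → x / 2 ≤ a (J + i) ∧
      a (J + i) ≤ x / 2 + (i + 1) * (4 * Real.log x) ∧ (1 + δ) ^ i ≤ G (a (J + i)) := by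
    intro i
    induction i with
    | zero =>
      intro _
      simp only [add_zero, Nat.cast_zero, zero_add, one_mul, pow_zero]
      exact ⟨hk1, hJup, hx2 _ hk1⟩
    | succ i ih =>
      intro hi
      obtain ⟨g1, g2, g3⟩ := ih (by omega)
      have hi' : ((i : ℝ) + 1) + 1 ≤ m + 1 := by
        have : ((i + 1 : ℕ) : ℝ) ≤ m := by exact_mod_cast hi
        push_cast at this
        linarith
      have hax : a (J + i) ≤ x := by
        have h6 : (i + 1) * (4 * Real.log x) ≤ (c * Real.log x + 4) * (4 * Real.log x) := by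
          apply mul_le_mul_of_nonneg_right _ (by positivity)
          linarith
        linarith
      have hstep1 := h1 (J + i) (by omega)
      have hstep2 := h2 (J + i) (by omega)
      have hla : Real.log (a (J + i)) ≤ Real.log x :=
        Real.log_le_log (by linarith [h3 (J + i) (by omega)]) hax
      refine ⟨?_, ?_, ?_⟩
      · rw [← add_assoc]; linarith
      · rw [← add_assoc]
        push_cast
        linarith
      · have hsmall : G (a (J + i)) ≤ a (J + i) ^ (1 / 2 + ε) := by
          calc G (a (J + i)) ≤ G x := hmono hax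
            _ ≤ x ^ (1 / 2 + ε / 2) := hxG
            _ ≤ (x / 2) ^ (1 / 2 + ε) := hx4
            _ ≤ a (J + i) ^ (1 / 2 + ε) := Real.rpow_le_rpow (by linarith) g1 (by linarith)
        have hb := hbad (J + i) (by omega)
        have hfast : (1 + δ) * G (a (J + i)) < G (a (J + i + 1)) := by
          by_contra hc'
          exact hb ⟨not_lt.1 hc', hsmall⟩
        rw [← add_assoc, pow_succ]
        have : (1 + δ) ^ i * (1 + δ) ≤ G (a (J + i)) * (1 + δ) :=
          mul_le_mul_of_nonneg_right g3 (by linarith)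
        linarith
  obtain ⟨g1, g2, g3⟩ := key m le_rfl
  have hax : a (J + m) ≤ x := by
    have h6 : ((m : ℝ) + 1) * (4 * Real.log x) ≤ (c * Real.log x + 4) * (4 * Real.log x) := by
      apply mul_le_mul_of_nonneg_right _ (by positivity)
      linarith
    linarith
  have hfin : (1 + δ) ^ m ≤ x ^ (1 / 2 + ε / 2) := g3.trans ((hmono hax).trans hxG)
  have hlogs : (m : ℝ) * Real.log (1 + δ) ≤ (1 / 2 + ε / 2) * Real.log x := by
    have := Real.log_le_log (by positivity) hfin
    rwa [Real.log_pow, Real.log_rpow hx0] at this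
  have : (1 / 2 + ε / 2) * Real.log x < m * Real.log (1 + δ) := by
    have h7 : c * Real.log x * Real.log (1 + δ) = (1 / 2 + ε / 2) * Real.log x := by
      rw [hc]; field_simp
    rw [← h7]
    exact mul_lt_mul_of_pos_right hm2 hlogδ
  linarith

end Pool.Agent.H521
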