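import Pool.Agent.H521.DensZ
import Pool.Agent.H521.Assemble
import Pool.Agent.H521.Zeta

open MeasureTheory Set Filter Topology
open scoped ENNReal NNReal ComplexConjugate

namespace Pool.Agent.H521

theorem dens_fZ {Z : Multiset ℂ} {x₀ : ℝ} (h3 : 3 ≤ x₀)
    (h1 : ∀ u, x₀ ≤ u → 1 / 2 ≤ fZ Z u * Real.log u)
    (h2 : ∀ u, x₀ ≤ u → fZ Z u * Real.log u ≤ 2) (hl : ∀ u, x₀ ≤ u → 2 ≤ Real.log u) :
    Dens (fZ Z) x₀ where
  hx₀ := h3
  meas := measurable_fZ Z
  cont := (continuousOn_fZ Z).mono (fun u hu => by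
    have : x₀ ≤ u := hu
    exact (by linarith : (1 : ℝ) < u))
  nonneg u hu := by
    have ha := h1 u hu
    have hb := hl u hu
    by_contra hc
    push Not at hc
    nlinarith
  le_one u hu := by
    have ha := h2 u hu
    have hb := hl u hu
    by_contra hc
    push Not at hc
    nlinarith

/-- The logarithm of the zero free factor without the random part. -/
noncomputable def g0 (Z : Multiset ℂ) (s : ℂ) : ℂ :=
  Complex.log s - (Z.map fun ρ => Complex.log (s - ρ + 1)).sum

theorem diff_msum {Z : Multiset ℂ} {F : ℂ → ℂ → ℂ} {U : Set ℂ}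
    (h : ∀ ρ ∈ Z, DifferentiableOn ℂ (F ρ) U) :
    DifferentiableOn ℂ (fun s => (Z.map fun ρ => F ρ s).sum) U := by
  induction Z using Multiset.induction_on with
  | empty => simp
  | cons ρ Z ih =>
    simp only [Multiset.map_cons, Multiset.sum_cons]
    exact (h ρ (Multiset.mem_cons_self ρ Z)).add
      (ih fun ρ' h' => h ρ' (Multiset.mem_cons_of_mem h'))

theorem diff_g0 {Z : Multiset ℂ} (hZ : ∀ ρ ∈ Z, ρ.re < 1) :
    DifferentiableOn ℂ (g0 Z) {s : ℂ | 1 / 2 < s.re} := by
  unfold g0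
  apply DifferentiableOn.sub
  · intro s hs
    simp only [mem_ofPred_eq] at hs
    exact (differentiableAt_id.clog (Or.inl (by simp only [id]; linarith))).differentiableWithinAt
  · apply diff_msum (F := fun ρ s => Complex.log (s - ρ + 1))
    intro ρ hρ s hs
    simp only [mem_ofPred_eq] at hs
    apply DifferentiableAt.differentiableWithinAt
    apply DifferentiableAt.clog (by fun_prop)
    apply Or.inl
    simp
    linarith [hZ ρ hρ]

theorem norm_prod_le {Z : Multiset ℂ} (hZ : ∀ ρ ∈ Z, ρ.re < 1) {s : ℂ} (hs : 1 / 2 < s.re) :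
    ‖(Z.map fun ρ => s - ρ).prod * Complex.exp (-(Z.map fun ρ => Complex.log (s - ρ + 1)).sum)‖ ≤
      3 ^ (Multiset.card Z) := by
  induction Z using Multiset.induction_on with
  | empty => simp
  | cons ρ Z ih =>
    have hρ := hZ ρ (Multiset.mem_cons_self ρ Z)
    have h1 := ih fun ρ' h' => hZ ρ' (Multiset.mem_cons_of_mem h')
    simp only [Multiset.map_cons, Multiset.sum_cons, Multiset.prod_cons, Multiset.card_cons,
      neg_add, Complex.exp_add]
    have h2 : (s - ρ) * (Z.map fun ρ => s - ρ).prod *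
        (Complex.exp (-Complex.log (s - ρ + 1)) *
          Complex.exp (-(Z.map fun ρ => Complex.log (s - ρ + 1)).sum)) =
        ((s - ρ) * Complex.exp (-Complex.log (s - ρ + 1))) *
        ((Z.map fun ρ => s - ρ).prod *
          Complex.exp (-(Z.map fun ρ => Complex.log (s - ρ + 1)).sum)) := by ring
    rw [h2, norm_mul, pow_succ, mul_comm ((3 : ℝ) ^ _)]
    apply mul_le_mul _ h1 (norm_nonneg _) (by norm_num)
    have hre : 1 / 2 < (s - ρ + 1).re := by simp; linarith
    have hne : s - ρ + 1 ≠ 0 := by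
      intro h
      rw [h] at hre
      simp at hre
      linarith
    rw [Complex.exp_neg, Complex.exp_log hne]
    have h3 : (s - ρ) * (s - ρ + 1)⁻¹ = 1 - (s - ρ + 1)⁻¹ := by
      field_simp
      ring
    rw [h3]
    refine (norm_sub_le _ _).trans ?_
    rw [norm_inv, norm_one]
    have h4 : 1 / 2 ≤ ‖s - ρ + 1‖ :=
      hre.le.trans ((le_abs_self _).trans (Complex.abs_re_le_norm _))
    have h5 : ‖s - ρ + 1‖⁻¹ ≤ 2 := by
      rw [inv_le_comm₀ (by linarith) (by norm_num)]
      linarith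
    linarith

theorem exp_Alog_one {s : ℂ} (hs : 1 < s.re) :
    (s - 1) * Complex.exp (Alog s 1) = Complex.exp (Complex.log s) := by
  have h1 : s - 1 ≠ 0 := by
    intro h
    have := congrArg Complex.re h
    simp at this
    linarith
  unfold Alog
  rw [Complex.exp_sub, Complex.exp_log h1, show s - 1 + 1 = s by ring]
  field_simp

theorem exp_Alog_sum {Z : Multiset ℂ} {s : ℂ} (hs : ∀ ρ ∈ Z, ρ.re < s.re) :
    Complex.exp (-(Z.map (Alog s)).sum) = (Z.map fun ρ => s - ρ).prod *
      Complex.exp (-(Z.map fun ρ => Complex.log (s - ρ + 1)).sum) := by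
  induction Z using Multiset.induction_on with
  | empty => simp
  | cons ρ Z ih =>
    have hρ := hs ρ (Multiset.mem_cons_self ρ Z)
    have h1 := ih fun ρ' h' => hs ρ' (Multiset.mem_cons_of_mem h')
    simp only [Multiset.map_cons, Multiset.sum_cons, Multiset.prod_cons, neg_add, Complex.exp_add]
    rw [h1]
    have hne : s - ρ ≠ 0 := by
      intro h
      have := congrArg Complex.re h
      simp at this
      linarith
    have h2 : Complex.exp (-Alog s ρ) = (s - ρ) * Complex.exp (-Complex.log (s - ρ + 1)) := by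
      unfold Alog
      rw [neg_sub, sub_eq_add_neg, Complex.exp_add, Complex.exp_log hne]
    rw [h2]
    ring

theorem zeta_system {Z : Multiset ℂ} (hZ : ∀ ρ ∈ Z, ρ.re < 1) (hZc : Z.map conj = Z)
    {x₀ : ℝ} (hD : Dens (fZ Z) x₀) {a b : ℕ → ℝ} (h : Cells (fZ Z) x₀ a b) :
    ∃ p : ℕ → ℝ, (∀ j, p j ∈ Ico (a j) (b j)) ∧
      ∃ g : ℂ → ℂ, DifferentiableOn ℂ g {s : ℂ | 1 / 2 < s.re} ∧
        (∀ s : ℂ, 1 < s.re → (s - 1) * zetaB p s = (Z.map fun ρ => s - ρ).prod *
          Complex.exp (g s)) ∧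
        ∀ ε : ℝ, 0 < ε → ∃ C : ℝ, ∀ s : ℂ, 1 / 2 + ε ≤ s.re →
          ‖(Z.map fun ρ => s - ρ).prod * Complex.exp (g s)‖ ≤ C * ‖s‖ * (2 + ‖s‖) ^ ε := by
  have hx3 := hD.hx₀
  have hfi : ∀ s : ℂ, 1 < s.re →
      IntegrableOn (fun u : ℝ => (fZ Z u : ℂ) * (u : ℂ) ^ (-s)) (Ioi x₀) := fun s hs =>
    (int_fZ hZ hZc hs).1.mono_set (Ioi_subset_Ioi (by linarith))
  obtain ⟨p, hp, R, hRd, hRe, hRb⟩ := assemble hD h hfi
  have ha3 := h.a_ge3 hD
  have hp2 : ∀ j, 2 ≤ p j := fun j => by linarith [(hp j).1, ha3 j]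
  have hpV : ∀ τ : ℝ, 1 < τ → Summable fun j => p j ^ (-τ) := by
    intro τ hτ
    refine Summable.of_nonneg_of_le (fun j => Real.rpow_nonneg (by linarith [hp2 j]) _)
      (fun j => ?_) (h.summable_pow hD hτ)
    exact Real.rpow_le_rpow_of_nonpos (by linarith [ha3 j]) (hp j).1 (by linarith)
  set I0 : ℂ → ℂ := fun s => ∫ u in (1 : ℝ)..x₀, (fZ Z u : ℂ) * (u : ℂ) ^ (-s) with hI0
  have hfb : ∀ u ∈ Ioc (1 : ℝ) x₀, ‖(fZ Z u : ℂ)‖ ≤ 1 + Multiset.card Z := by
    intro u hu
    rw [Complex.norm_real, Real.norm_eq_abs]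
    unfold fZ
    rw [abs_mul]
    have h1 := abs_Wf_le_one hu.1.le
    have h2 : |1 - osc Z u| ≤ 1 + Multiset.card Z := by
      have := abs_sub (1 : ℝ) (osc Z u)
      have h3 := abs_osc_le hZ hu.1.le
      rw [abs_one] at this
      linarith
    calc |Wf u| * |1 - osc Z u| ≤ 1 * (1 + Multiset.card Z) :=
          mul_le_mul h1 h2 (abs_nonneg _) zero_le_one
      _ = _ := one_mul _
  have hI0d : Differentiable ℂ I0 := differentiable_integral_cpow le_rfl (by linarith)
    (Complex.measurable_ofReal.comp hD.meas).aestronglyMeasurable hfb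
  refine ⟨p, hp, fun s => g0 Z s + (R s - I0 s), (diff_g0 hZ).add
    (hRd.sub hI0d.differentiableOn), ?_, ?_⟩
  · intro s hs
    rw [zetaB_eq_exp p hp2 s hs.le (hpV _ hs), hRe s hs]
    have hsplit : ∫ u in Ioi x₀, (fZ Z u : ℂ) * (u : ℂ) ^ (-s) =
        (Alog s 1 - (Z.map (Alog s)).sum) - I0 s := by
      rw [← (int_fZ hZ hZc hs).2, hI0]
      simp only
      have := intervalIntegral.integral_Ioi_sub_Ioi (a := (1 : ℝ)) (b := x₀)
        (f := fun u : ℝ => (fZ Z u : ℂ) * (u : ℂ) ^ (-s)) (μ := volume)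
        (int_fZ hZ hZc hs).1 (by linarith)
      rw [← this]
      ring
    rw [hsplit]
    have e1 : Alog s 1 - (Z.map (Alog s)).sum - I0 s + R s =
        Alog s 1 + (-(Z.map (Alog s)).sum + (R s - I0 s)) := by ring
    rw [e1, Complex.exp_add, Complex.exp_add, exp_Alog_sum (fun ρ hρ => by linarith [hZ ρ hρ]),
      ← mul_assoc, exp_Alog_one hs]
    unfold g0
    have e2 : Complex.exp
        (Complex.log s - (Z.map fun ρ => Complex.log (s - ρ + 1)).sum + (R s - I0 s)) =
        Complex.exp (Complex.log s) *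
        Complex.exp (-(Z.map fun ρ => Complex.log (s - ρ + 1)).sum) *
        Complex.exp (R s - I0 s) := by
      rw [← Complex.exp_add, ← Complex.exp_add]
      ring_nf
    rw [e2]
    ring
  · intro ε hε
    obtain ⟨C, hC⟩ := hRb ε hε
    obtain ⟨K, hK⟩ : ∃ K : ℝ, K = (1 + (Multiset.card Z : ℝ)) * ((x₀ - 1) * 1 ^ (-(0 : ℝ))) :=
      ⟨_, rfl⟩
    refine ⟨3 ^ (Multiset.card Z) * Real.exp (C + K), fun s hs => ?_⟩
    have hs' : 1 / 2 < s.re := by linarith
    have hsne : s ≠ 0 := by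
      intro h0
      rw [h0] at hs'
      simp at hs'
      linarith
    unfold g0
    have e1 : (Z.map fun ρ => s - ρ).prod * Complex.exp
        (Complex.log s - (Z.map fun ρ => Complex.log (s - ρ + 1)).sum + (R s - I0 s)) =
        ((Z.map fun ρ => s - ρ).prod *
          Complex.exp (-(Z.map fun ρ => Complex.log (s - ρ + 1)).sum)) * s *
          Complex.exp (R s - I0 s) := by
      rw [Complex.exp_add, sub_eq_add_neg, Complex.exp_add, Complex.exp_log hsne]
      ring
    rw [e1, norm_mul, norm_mul, Complex.norm_exp]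
    have h1 := norm_prod_le hZ hs'
    have h2 : (R s - I0 s).re ≤ C + ε * Real.log (2 + ‖s‖) + K := by
      rw [Complex.sub_re, hK]
      have h3 := (abs_le.1 (hC s hs)).2
      have h4 := norm_integral_cpow_le (h := fun u => (fZ Z u : ℂ)) one_pos
        (by linarith : (1 : ℝ) ≤ x₀) hfb (by positivity) (s := s) (σ := 0) le_rfl le_rfl
        (by linarith)
      have h5 := (abs_le.1 ((Complex.abs_re_le_norm (I0 s)).trans h4)).1
      linarith
    have h6 : Real.exp (R s - I0 s).re ≤ Real.exp (C + K) * (2 + ‖s‖) ^ ε := by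
      rw [Real.rpow_def_of_pos (by positivity), ← Real.exp_add]
      apply Real.exp_le_exp.2
      linarith
    calc _ ≤ 3 ^ (Multiset.card Z) * ‖s‖ *
          (Real.exp (C + K) * (2 + ‖s‖) ^ ε) := by
          apply mul_le_mul (mul_le_mul_of_nonneg_right h1 (norm_nonneg _)) h6
            (Real.exp_nonneg _) (by positivity)
      _ = _ := by ring

end Pool.Agent.H521
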